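import Mathlib

/-!
Definitions: nearly commuting matrices, tight closure, F-regularity.
-/

namespace Pool.Agent.Helper51.NC

/-- The polynomial ring `K[X,Y]` in the entries of two generic `n × n` matrices:
`Sum.inl (i,j)` is the variable `x_ij` and `Sum.inr (i,j)` is the variable `y_ij`. -/
abbrev PolyXY (n : ℕ) (K : Type) [CommRing K] : Type :=
  MvPolynomial ((Fin n × Fin n) ⊕ (Fin n × Fin n)) K

/-- The generic matrix `X`. -/
noncomputable def matX (n : ℕ) (K : Type) [CommRing K] : Matrix (Fin n) (Fin n) (PolyXY n K) :=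
  Matrix.of fun i j => MvPolynomial.X (Sum.inl (i, j))

/-- The generic matrix `Y`. -/
noncomputable def matY (n : ℕ) (K : Type) [CommRing K] : Matrix (Fin n) (Fin n) (PolyXY n K) :=
  Matrix.of fun i j => MvPolynomial.X (Sum.inr (i, j))

/-- The entries `u_ij` of the commutator `XY - YX`. -/
noncomputable def commEntry (n : ℕ) (K : Type) [CommRing K] (i j : Fin n) : PolyXY n K :=
  (matX n K * matY n K - matY n K * matX n K) i j

/-- `I`, the ideal of nearly commuting matrices: generated by the off-diagonal entries. -/
noncomputable def idealI (n : ℕ) (K : Type) [CommRing K] : Ideal (PolyXY n K) :=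
  Ideal.span {f | ∃ i j : Fin n, i ≠ j ∧ f = commEntry n K i j}

/-- `J`, generated by all the entries of the commutator. -/
noncomputable def idealJ (n : ℕ) (K : Type) [CommRing K] : Ideal (PolyXY n K) :=
  Ideal.span {f | ∃ i j : Fin n, f = commEntry n K i j}

/-- `P`, the radical of `J`. -/
noncomputable def idealP (n : ℕ) (K : Type) [CommRing K] : Ideal (PolyXY n K) :=
  (idealJ n K).radical

/-- The bracket power `𝔞^{[q]}`, generated by the `q`-th powers of the elements of `𝔞`. -/
def bracketPow {S : Type} [CommRing S] (a : Ideal S) (q : ℕ) : Ideal S :=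
  Ideal.span {y | ∃ x ∈ a, y = x ^ q}

/-- `z` is in the tight closure of `𝔞` (in characteristic `p`): there is `c` outside every minimal
prime with `c z^q ∈ 𝔞^{[q]}` for all large `q = p^e`. -/
def InTightClosure (p : ℕ) {S : Type} [CommRing S] (a : Ideal S) (z : S) : Prop :=
  ∃ c : S, (∀ q ∈ minimalPrimes S, c ∉ q) ∧
    ∃ e₀ : ℕ, ∀ e : ℕ, e₀ ≤ e → c * z ^ (p ^ e) ∈ bracketPow a (p ^ e)

/-- `S` is F-regular (in characteristic `p`): every ideal of every localization of `S` is equal to
its tight closure. -/
def IsFRegular (p : ℕ) (S : Type) [CommRing S] : Prop :=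
  ∀ (M : Submonoid S) (a : Ideal (Localization M)) (z : Localization M),
    InTightClosure p a z → z ∈ a

end Pool.Agent.Helper51.NC
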