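import Mathlib
import Pool.Agent.Helper51.NC.Defs

/-!
Matrix level lemmas for 4 × 4 matrices.
-/

namespace Pool.Agent.Helper51.NC

open Matrix

variable {S : Type} [CommRing S]

abbrev M4 (S : Type) := Matrix (Fin 4) (Fin 4) S

/-- rows are the diagonals of the powers of `M` -/
def Gm (M : M4 S) : M4 S := Matrix.of fun a i => (M ^ (a : ℕ)) i i

/-- columns are `v, Mv, M²v, M³v` -/
def Wm (v : Fin 4 → S) (M : M4 S) : M4 S := Matrix.of fun i k => ((M ^ (k : ℕ)) *ᵥ v) i

/-- commutator -/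
def cm (M Y : M4 S) : M4 S := M * Y - Y * M

lemma trace_cm_mul_pow (M Y : M4 S) (a : ℕ) : (cm M Y * M ^ a).trace = 0 := by
  have h1 : cm M Y * M ^ a = M * (Y * M ^ a) - Y * M ^ a * M := by
    rw [cm, Matrix.sub_mul, Matrix.mul_assoc, Matrix.mul_assoc, Matrix.mul_assoc, ← pow_succ', ← pow_succ]
  rw [h1, Matrix.trace_sub, Matrix.trace_mul_comm, sub_self]

/-- `Σ_i [M,Y]_ii (M^a)_ii` is a combination of the off-diagonal entries of the commutator. -/
lemma sum_diag_mem (M Y : M4 S) (I : Ideal S) (hI : ∀ i j, i ≠ j → cm M Y i j ∈ I) (a : ℕ) :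
    ∑ i, (M ^ a) i i * cm M Y i i ∈ I := by
  have h1 : ∑ i, (M ^ a) i i * cm M Y i i =
      - ∑ i, ∑ j ∈ Finset.univ.erase i, cm M Y i j * (M ^ a) j i := by
    have h2 := trace_cm_mul_pow M Y a
    rw [Matrix.trace] at h2
    simp only [Matrix.diag_apply, Matrix.mul_apply] at h2
    rw [eq_neg_iff_add_eq_zero, ← Finset.sum_add_distrib, ← h2]
    refine Finset.sum_congr rfl fun i _ => ?_
    rw [← Finset.add_sum_erase _ _ (Finset.mem_univ i)]
    ring
  rw [h1]
  refine Ideal.neg_mem_iff _ |>.mpr ?_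
  refine Ideal.sum_mem _ fun i _ => Ideal.sum_mem _ fun j hj => Ideal.mul_mem_right _ _ (hI i j ?_)
  exact (Finset.ne_of_mem_erase hj).symm

lemma det_mul_diag_mem (M Y : M4 S) (I : Ideal S) (hI : ∀ i j, i ≠ j → cm M Y i j ∈ I) (k : Fin 4) :
    (Gm M).det * cm M Y k k ∈ I := by
  have h1 : ((Gm M).adjugate *ᵥ ((Gm M) *ᵥ fun i => cm M Y i i)) k = (Gm M).det * cm M Y k k := by
    rw [Matrix.mulVec_mulVec, Matrix.adjugate_mul, Matrix.smul_mulVec, Matrix.one_mulVec]
    simp
  rw [← h1, Matrix.mulVec, dotProduct]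
  refine Ideal.sum_mem _ fun a _ => Ideal.mul_mem_left _ _ ?_
  exact sum_diag_mem M Y I hI a

/-- If `E` commutes with `M` and kills a cyclic vector then it is zero. -/
lemma eq_zero_of_commute {κ : Type} [Field κ] (M E : M4 κ) (v : Fin 4 → κ) (hv : (Wm v M).det ≠ 0)
    (hc : cm M E = 0) (hE : E *ᵥ v = 0) : E = 0 := by
  have h1 : M * E = E * M := by rwa [cm, sub_eq_zero] at hc
  have h2 : ∀ k : ℕ, E * M ^ k = M ^ k * E := by
    intro k
    induction k with
    | zero => simp
    | succ k ih => rw [pow_succ, ← Matrix.mul_assoc, ih, Matrix.mul_assoc, ← h1, ← Matrix.mul_assoc]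
  have h3 : E * Wm v M = 0 := by
    ext i k
    have : (E * Wm v M) i k = (E *ᵥ ((M ^ (k : ℕ)) *ᵥ v)) i := by
      simp [Matrix.mul_apply, Wm, Matrix.mulVec, dotProduct]
    rw [this, Matrix.mulVec_mulVec, h2, ← Matrix.mulVec_mulVec, hE, Matrix.mulVec_zero]
    rfl
  have h4 : IsUnit (Wm v M).det := isUnit_iff_ne_zero.mpr hv
  calc E = E * (Wm v M * (Wm v M)⁻¹) := by rw [Matrix.mul_nonsing_inv _ h4, Matrix.mul_one]
    _ = 0 := by rw [← Matrix.mul_assoc, h3, Matrix.zero_mul]

lemma cm_sub (M Y Z : M4 S) : cm M (Y - Z) = cm M Y - cm M Z := by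
  simp only [cm, Matrix.mul_sub, Matrix.sub_mul]; abel

lemma cm_add (M Y Z : M4 S) : cm M (Y + Z) = cm M Y + cm M Z := by
  simp only [cm, Matrix.mul_add, Matrix.add_mul]; abel

lemma cm_smul (M Y : M4 S) (c : S) : cm M (c • Y) = c • cm M Y := by
  simp only [cm, Matrix.mul_smul, Matrix.smul_mul, smul_sub]

lemma cm_pow (M : M4 S) (k : ℕ) : cm M (M ^ k) = 0 := by
  rw [cm, ← pow_succ, ← pow_succ', sub_self]

/-- Commuting with a cyclic matrix means being a polynomial in it. -/
lemma eq_poly_of_commute {κ : Type} [Field κ] (M Y : M4 κ) (v : Fin 4 → κ) (hv : (Wm v M).det ≠ 0)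
    (hc : cm M Y = 0) : ∃ s : Fin 4 → κ, Y = ∑ k, s k • M ^ (k : ℕ) := by
  have h4 : IsUnit (Wm v M).det := isUnit_iff_ne_zero.mpr hv
  let s : Fin 4 → κ := (Wm v M)⁻¹ *ᵥ (Y *ᵥ v)
  refine ⟨s, ?_⟩
  rw [← sub_eq_zero]
  apply eq_zero_of_commute M _ v hv
  · rw [cm_sub, hc, zero_sub, neg_eq_zero]
    have : ∀ t : Finset (Fin 4), cm M (∑ k ∈ t, s k • M ^ (k : ℕ)) = 0 := by
      intro t
      induction t using Finset.induction_on with
      | empty => simp [cm]
      | insert k t hk ih =>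
        rw [Finset.sum_insert hk, cm_add, ih, cm_smul, cm_pow, smul_zero, add_zero]
    exact this _
  · rw [Matrix.sub_mulVec, sub_eq_zero]
    have h5 : Wm v M *ᵥ s = Y *ᵥ v := by
      simp only [s]
      rw [Matrix.mulVec_mulVec, Matrix.mul_nonsing_inv _ h4, Matrix.one_mulVec]
    rw [← h5]
    ext i
    simp only [Matrix.mulVec, dotProduct, Wm, Matrix.of_apply, Matrix.sum_apply, Matrix.smul_apply,
      smul_eq_mul, Finset.sum_mul]
    rw [Finset.sum_comm]
    refine Finset.sum_congr rfl fun k _ => ?_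
    refine Finset.sum_congr rfl fun j _ => ?_
    ring

section NS

variable {κ : Type} [Field κ]

/-- The space of `Y` with `[M,Y]` diagonal. -/
def NS (M : M4 κ) : Submodule κ (M4 κ) where
  carrier := {Y | ∀ i j, i ≠ j → cm M Y i j = 0}
  add_mem' := by
    intro a b ha hb i j hij
    rw [cm_add, Matrix.add_apply, ha i j hij, hb i j hij, add_zero]
  zero_mem' := by intro i j _; simp [cm]
  smul_mem' := by
    intro c a ha i j hij
    rw [cm_smul, Matrix.smul_apply, ha i j hij, smul_zero]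

lemma mem_NS {M Y : M4 κ} : Y ∈ NS M ↔ ∀ i j, i ≠ j → cm M Y i j = 0 := Iff.rfl

lemma NS_diag_ker {M Y : M4 κ} (hY : Y ∈ NS M) : Gm M *ᵥ (fun i => cm M Y i i) = 0 := by
  ext a
  have h := sum_diag_mem M Y ⊥ (fun i j hij => by rw [mem_NS.mp hY i j hij]; exact Submodule.zero_mem _) a
  rw [Ideal.mem_bot] at h
  exact h

/-- the injection `Y ↦ (Yv, diag [M,Y])` -/
def nsMap (M : M4 κ) (v : Fin 4 → κ) :
    NS M →ₗ[κ] (Fin 4 → κ) × LinearMap.ker (Gm M).mulVecLin where
  toFun Y := (Y.1 *ᵥ v, ⟨fun i => cm M Y.1 i i, NS_diag_ker Y.2⟩)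
  map_add' a b := by
    ext i
    · simp [Matrix.add_mulVec]
    · simp [cm_add]
  map_smul' c a := by
    ext i
    · simp [Matrix.smul_mulVec]
    · simp [cm_smul]

lemma nsMap_injective (M : M4 κ) (v : Fin 4 → κ) (hv : (Wm v M).det ≠ 0) :
    Function.Injective (nsMap M v) := by
  rw [injective_iff_map_eq_zero]
  intro Y hY
  have h1 : Y.1 *ᵥ v = 0 := congrArg Prod.fst hY
  have h2 : ∀ i, cm M Y.1 i i = 0 := fun i => congrFun (congrArg (fun z => (z.2 : Fin 4 → κ)) hY) i
  apply Subtype.ext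
  apply eq_zero_of_commute M _ v hv _ h1
  ext i j
  by_cases hij : i = j
  · subst hij; exact h2 i
  · exact Y.2 i j hij

lemma finrank_NS_le (M : M4 κ) (v : Fin 4 → κ) (hv : (Wm v M).det ≠ 0) :
    Module.finrank κ (NS M) + (Gm M).rank ≤ 8 := by
  have h1 := LinearMap.finrank_le_finrank_of_injective (nsMap_injective M v hv)
  rw [Module.finrank_prod] at h1
  have h2 := LinearMap.finrank_range_add_finrank_ker (Gm M).mulVecLin
  have h3 : (Gm M).rank = Module.finrank κ (LinearMap.range (Gm M).mulVecLin) := rfl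
  simp only [Module.finrank_fintype_fun_eq_card, Fintype.card_fin] at h1 h2
  omega

/-- if `det G ≠ 0`, then `[M,Y]` diagonal forces `[M,Y] = 0` -/
lemma cm_eq_zero_of_NS {M Y : M4 κ} (hD : (Gm M).det ≠ 0) (hY : Y ∈ NS M) : cm M Y = 0 := by
  have h1 := NS_diag_ker hY
  have h2 : (fun i => cm M Y i i) = 0 := by
    have := Matrix.mulVec_injective_iff_isUnit.mpr ((Matrix.isUnit_iff_isUnit_det _).mpr (isUnit_iff_ne_zero.mpr hD))
    apply this
    rw [h1, Matrix.mulVec_zero]
  ext i j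
  by_cases hij : i = j
  · subst hij; exact congrFun h2 i
  · exact hY i j hij

/-- if `det G = 0` there is `Y` with `[M,Y]` a nonzero diagonal matrix -/
lemma exists_NS_ne {M : M4 κ} (v : Fin 4 → κ) (hv : (Wm v M).det ≠ 0) (hD : (Gm M).det = 0) :
    ∃ Y ∈ NS M, ∃ k, cm M Y k k ≠ 0 := by
  obtain ⟨δ, hδ0, hδ⟩ := Matrix.exists_mulVec_eq_zero_iff.mpr hD
  -- the commutator map and the trace map
  let ad : M4 κ →ₗ[κ] M4 κ :=
    { toFun := fun Y => cm M Y, map_add' := cm_add M, map_smul' := fun c Y => cm_smul M Y c }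
  let T : M4 κ →ₗ[κ] (Fin 4 → κ) :=
    { toFun := fun U a => (U * M ^ (a : ℕ)).trace
      map_add' := fun a b => by ext; simp [Matrix.add_mul]
      map_smul' := fun c a => by ext; simp }
  have hle : LinearMap.range ad ≤ LinearMap.ker T := by
    rintro _ ⟨Y, rfl⟩
    rw [LinearMap.mem_ker]
    ext a
    exact trace_cm_mul_pow M Y a
  have h4 : IsUnit (Wm v M).det := isUnit_iff_ne_zero.mpr hv
  have hsurj : Function.Surjective T := by
    intro w
    let U : M4 κ := ∑ k, w k • Matrix.vecMulVec v ((Wm v M)⁻¹ k)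
    refine ⟨U, ?_⟩
    have hk : ∀ k, T (Matrix.vecMulVec v ((Wm v M)⁻¹ k)) = Pi.single k 1 := by
      intro k
      ext a
      change (Matrix.vecMulVec v ((Wm v M)⁻¹ k) * M ^ (a : ℕ)).trace = _
      have e1 : (Matrix.vecMulVec v ((Wm v M)⁻¹ k) * M ^ (a : ℕ)).trace =
          ((Wm v M)⁻¹ * Wm v M) k a := by
        rw [Matrix.trace]
        simp only [Matrix.diag_apply, Matrix.mul_apply, Matrix.vecMulVec_apply, Wm, Matrix.of_apply,
          Matrix.mulVec, dotProduct, Finset.mul_sum]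
        rw [Finset.sum_comm]
        refine Finset.sum_congr rfl fun i _ => Finset.sum_congr rfl fun j _ => ?_
        ring
      rw [e1, Matrix.nonsing_inv_mul _ h4, Matrix.one_apply, Pi.single_apply]
      simp only [eq_comm]
    simp only [U, map_sum, map_smul, hk]
    ext a
    simp [Finset.sum_apply, Pi.single_apply]
  have hkerad : Module.finrank κ (LinearMap.ker ad) ≤ 4 := by
    let g : LinearMap.ker ad →ₗ[κ] (Fin 4 → κ) :=
      { toFun := fun Y => Y.1 *ᵥ v
        map_add' := fun a b => by simp [Matrix.add_mulVec]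
        map_smul' := fun c a => by simp [Matrix.smul_mulVec] }
    have hg : Function.Injective g := by
      rw [injective_iff_map_eq_zero]
      intro Y hY
      apply Subtype.ext
      exact eq_zero_of_commute M _ v hv (LinearMap.mem_ker.mp Y.2) hY
    have := LinearMap.finrank_le_finrank_of_injective hg
    simpa using this
  have h16 : Module.finrank κ (M4 κ) = 16 := by
    rw [Module.finrank_matrix]; simp
  have h5 := LinearMap.finrank_range_add_finrank_ker ad
  have h6 := LinearMap.finrank_range_add_finrank_ker T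
  rw [LinearMap.range_eq_top.mpr hsurj, finrank_top, Module.finrank_fintype_fun_eq_card,
    Fintype.card_fin] at h6
  rw [h16] at h5 h6
  have heq : LinearMap.range ad = LinearMap.ker T := by
    apply Submodule.eq_of_le_of_finrank_le hle
    omega
  have hU : Matrix.diagonal δ ∈ LinearMap.ker T := by
    rw [LinearMap.mem_ker]
    ext a
    change (Matrix.diagonal δ * M ^ (a : ℕ)).trace = 0
    have := congrFun hδ a
    rw [Matrix.mulVec, dotProduct] at this
    rw [Matrix.trace]
    simp only [Matrix.diag_apply, Matrix.diagonal_mul]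
    rw [Pi.zero_apply] at this
    rw [← this]
    refine Finset.sum_congr rfl fun i _ => ?_
    rw [Gm, Matrix.of_apply, mul_comm]
  rw [← heq] at hU
  obtain ⟨Y, hY⟩ := hU
  have hY' : cm M Y = Matrix.diagonal δ := hY
  refine ⟨Y, ?_, ?_⟩
  · intro i j hij
    rw [hY', Matrix.diagonal_apply_ne _ hij]
  · by_contra hcon
    push Not at hcon
    apply hδ0
    ext k
    have := hcon k
    rw [hY', Matrix.diagonal_apply_eq] at this
    exact this

end NS

end Pool.Agent.Helper51.NC
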