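import Mathlib
import Pool.Agent.Helper51.NC.Mats

/-!
Every 4 × 4 matrix over an algebraically closed field commutes with a cyclic matrix.
-/

namespace Pool.Agent.Helper51.NC

open Polynomial Matrix

variable {K : Type} [Field K] [IsAlgClosed K]

lemma exists_cyclic_commuting_end {V : Type} [AddCommGroup V] [Module K V] [FiniteDimensional K V]
    (φ : Module.End K V) :
    ∃ ζ : Module.End K V, (∀ v, ζ (φ v) = φ (ζ v)) ∧ ∃ v₀ : V, ∀ w : V, ∃ f : K[X], aeval ζ f v₀ = w := by
  classical
  obtain ⟨ι, hfin, p, hp, e, ⟨E₀⟩⟩ := Module.equiv_directSum_of_isTorsion (R := K[X])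
    (M := Module.AEval' φ) (Module.AEval.isTorsion_of_finiteDimensional K V φ)
  have hfin' : Fintype ι := hfin
  let E := E₀.trans (DirectSum.linearEquivFunOnFintype K[X] ι (fun i => K[X] ⧸ Submodule.span K[X] {p i ^ e i}))
  -- roots
  have hroot : ∀ i, ∃ (a l : K), a ≠ 0 ∧ p i = C a * (X - C l) := by
    intro i
    have h1 := IsAlgClosed.degree_eq_one_of_irreducible K (hp i)
    have h2 := Polynomial.eq_X_add_C_of_degree_eq_one h1
    have h5 : (p i).leadingCoeff ≠ 0 := leadingCoeff_ne_zero.mpr (hp i).ne_zero
    refine ⟨(p i).leadingCoeff, -((p i).coeff 0 / (p i).leadingCoeff), h5, ?_⟩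
    conv_lhs => rw [h2]
    rw [C_neg, sub_neg_eq_add, mul_add, ← C_mul, mul_div_cancel₀ _ h5]
  choose a l ha hpl using hroot
  -- distinct values
  let ν : ι → K := fun i => (Infinite.natEmbedding K) (Fintype.equivFin ι i)
  have hν : Function.Injective ν := by
    intro i j hij
    have := (Infinite.natEmbedding K).injective hij
    exact (Fintype.equivFin ι).injective (Fin.ext this)
  let μ : ι → K := fun i => ν i - l i
  -- the endomorphism
  let W := (i : ι) → K[X] ⧸ Submodule.span K[X] {p i ^ e i}
  let ζW : W →ₗ[K[X]] W := LinearMap.pi (fun i => (X + C (μ i)) • LinearMap.proj i)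
  let ζN : Module.AEval' φ →ₗ[K[X]] Module.AEval' φ := E.symm.toLinearMap ∘ₗ ζW ∘ₗ E.toLinearMap
  let of := Module.AEval'.of φ
  let ζ : Module.End K V := of.symm.toLinearMap ∘ₗ (ζN.restrictScalars K) ∘ₗ of.toLinearMap
  refine ⟨ζ, ?_, ?_⟩
  · intro v
    change of.symm (ζN (of (φ v))) = φ (of.symm (ζN (of v)))
    have h1 : of (φ v) = (X : K[X]) • of v := (Module.AEval'.X_smul_of φ v).symm
    rw [h1, map_smul]
    exact Module.AEval'.of_symm_X_smul φ _
  · let one : W := fun i => Submodule.Quotient.mk 1
    refine ⟨of.symm (E.symm one), ?_⟩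
    intro w
    -- action of polynomials
    have hact : ∀ (f : K[X]) (x : W), of.symm (E.symm (fun i => (f.comp (X + C (μ i))) • x i)) =
        aeval ζ f (of.symm (E.symm x)) := by
      intro f
      induction f using Polynomial.induction_on' with
      | add f g hf hg =>
        intro x
        rw [map_add, LinearMap.add_apply, ← hf x, ← hg x, ← map_add, ← map_add]
        congr 2
        funext i
        simp [add_smul]
      | monomial n c =>
        induction n with
        | zero =>
          intro x
          simp only [Polynomial.monomial_zero_left, Polynomial.C_comp, Polynomial.aeval_C]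
          have h1 : (fun i => (C c : K[X]) • x i) = (C c : K[X]) • x := rfl
          rw [h1, map_smul]
          have h2 : of.symm ((C c : K[X]) • E.symm x) = c • of.symm (E.symm x) := by
            rw [Module.AEval.C_smul, map_smul]
          rw [h2]
          rfl
        | succ n ih =>
          intro x
          have h1 : (fun i => ((Polynomial.monomial (n+1) c).comp (X + C (μ i))) • x i) =
              (fun i => ((Polynomial.monomial n c).comp (X + C (μ i))) • (ζW x) i) := by
            funext i
            have : (ζW x) i = (X + C (μ i)) • x i := rfl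
            rw [this, smul_smul]
            congr 1
            rw [Polynomial.monomial_comp, Polynomial.monomial_comp, pow_succ, mul_assoc]
          rw [h1, ih]
          have h2 : of.symm (E.symm (ζW x)) = ζ (of.symm (E.symm x)) := by
            change _ = of.symm (ζN (of (of.symm (E.symm x))))
            rw [LinearEquiv.apply_symm_apply]
            change _ = of.symm (E.symm (ζW (E (E.symm x))))
            rw [LinearEquiv.apply_symm_apply]
          rw [h2]
          have h3 : (Polynomial.monomial (n+1) c : K[X]) = Polynomial.monomial n c * X := by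
            rw [Polynomial.monomial_mul_X]
          rw [h3, map_mul, aeval_X]
          rfl
    let w' : W := E (of w)
    choose g hg using fun i => Submodule.Quotient.mk_surjective _ (w' i)
    have hcop : Pairwise (Function.onFun IsCoprime
        (fun i => (Ideal.span {(X - C (ν i)) ^ e i} : Ideal K[X]))) := by
      intro i j hij
      rw [Function.onFun, Ideal.isCoprime_span_singleton_iff]
      apply IsCoprime.pow
      exact Polynomial.isCoprime_X_sub_C_of_isUnit_sub
        (isUnit_iff_ne_zero.mpr (sub_ne_zero.mpr (fun h => hij (hν h))))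
    obtain ⟨f, hf⟩ := Ideal.exists_forall_sub_mem_ideal hcop (fun i => (g i).comp (X - C (μ i)))
    refine ⟨f, ?_⟩
    rw [← hact]
    have h5 : (fun i => (f.comp (X + C (μ i))) • one i) = w' := by
      funext i
      rw [← hg i]
      have h6 : (f.comp (X + C (μ i))) • one i = Submodule.Quotient.mk ((f.comp (X + C (μ i))) * 1) := rfl
      rw [h6, mul_one, Submodule.Quotient.eq]
      have h7 := hf i
      rw [Ideal.mem_span_singleton] at h7
      obtain ⟨q, hq⟩ := h7
      have h8 : f.comp (X + C (μ i)) - g i = (X - C (l i)) ^ e i * q.comp (X + C (μ i)) := by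
        have h9 := congrArg (fun r => r.comp (X + C (μ i))) hq
        simp only [Polynomial.sub_comp, Polynomial.mul_comp, Polynomial.pow_comp, Polynomial.X_comp,
          Polynomial.C_comp, Polynomial.comp_assoc, add_sub_cancel_right, Polynomial.comp_X] at h9
        rw [h9]
        congr 2
        simp only [μ, C_sub]
        ring
      change _ ∈ Ideal.span {p i ^ e i}
      rw [h8, Ideal.mem_span_singleton, hpl i, mul_pow, ← C_pow]
      refine ⟨C ((a i ^ e i)⁻¹) * q.comp (X + C (μ i)), ?_⟩
      have h10 : (C (a i ^ e i) : K[X]) * C ((a i ^ e i)⁻¹) = 1 := by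
        rw [← C_mul, mul_inv_cancel₀ (pow_ne_zero _ (ha i)), C_1]
      linear_combination (-(X - C (l i)) ^ e i * q.comp (X + C (μ i))) * h10
    rw [h5]
    simp only [w']
    rw [LinearEquiv.symm_apply_apply, LinearEquiv.symm_apply_apply]

/-- Every `Y` commutes with a matrix having a cyclic vector. -/
theorem exists_cyclic_commuting (Y : M4 K) :
    ∃ (Z : M4 K) (v : Fin 4 → K), Z * Y = Y * Z ∧ (Wm v Z).det ≠ 0 := by
  obtain ⟨ζ, hc, v₀, hv⟩ := exists_cyclic_commuting_end (Matrix.toLin' Y)
  refine ⟨LinearMap.toMatrix' ζ, v₀, ?_, ?_⟩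
  · apply Matrix.toLin'.injective
    rw [Matrix.toLin'_mul, Matrix.toLin'_mul, Matrix.toLin'_toMatrix']
    exact LinearMap.ext fun x => hc x
  · set Z := LinearMap.toMatrix' ζ with hZ
    have hZf : ∀ f : K[X], aeval Z f = LinearMap.toMatrix' (aeval ζ f) := by
      intro f
      have := Polynomial.aeval_algHom_apply
        ((LinearMap.toMatrixAlgEquiv' : ((Fin 4 → K) →ₗ[K] (Fin 4 → K)) ≃ₐ[K] M4 K) : _ →ₐ[K] M4 K) ζ f
      exact this
    have hv' : ∀ w, ∃ f : K[X], (aeval Z f) *ᵥ v₀ = w := by
      intro w
      obtain ⟨f, hf⟩ := hv w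
      refine ⟨f, ?_⟩
      rw [hZf, LinearMap.toMatrix'_mulVec, hf]
    have hsurj : Function.Surjective (Wm v₀ Z).mulVec := by
      intro w
      obtain ⟨f, hf⟩ := hv' w
      let r := f %ₘ Z.charpoly
      have hr : r.natDegree < 4 := by
        have h1 := Polynomial.natDegree_modByMonic_lt f Z.charpoly_monic (by
          intro h
          have := Matrix.charpoly_natDegree_eq_dim Z
          rw [h] at this
          simp at this)
        rwa [Matrix.charpoly_natDegree_eq_dim, Fintype.card_fin] at h1
      refine ⟨fun k => r.coeff k, ?_⟩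
      have h2 : aeval Z f = aeval Z r := by
        conv_lhs => rw [← Polynomial.modByMonic_add_div f Z.charpoly]
        rw [map_add, map_mul, Matrix.aeval_self_charpoly, zero_mul, add_zero]
      rw [← hf, h2]
      rw [Polynomial.aeval_eq_sum_range' hr]
      ext i
      rw [Matrix.sum_mulVec, Finset.sum_apply, Finset.sum_range]
      rw [Matrix.mulVec, dotProduct]
      refine Finset.sum_congr rfl fun k _ => ?_
      rw [Matrix.smul_mulVec, Pi.smul_apply, smul_eq_mul, mul_comm]
      rfl
    rw [Matrix.mulVec_surjective_iff_isUnit, Matrix.isUnit_iff_isUnit_det] at hsurj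
    exact hsurj.ne_zero

end Pool.Agent.Helper51.NC
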