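import Mathlib

/-!
Lower bounds for heights of primes in polynomial rings in terms of transcendence degree.
-/

namespace Pool.Agent.Helper51.NC

open MvPolynomial

section HT

variable {K : Type} [Field K] {σ : Type}
  {B : Type} [CommRing B] [IsDomain B] [Algebra K B]

open Classical in
/-- evaluate the variables in `s` at `x`, keep the others -/
noncomputable def pev (x : σ → B) (s : Set σ) : MvPolynomial σ K →ₐ[K] MvPolynomial σ B :=
  aeval (fun i => if i ∈ s then C (x i) else X i)

lemma pev_ker_mono (x : σ → B) {s t : Set σ} (h : s ⊆ t) :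
    RingHom.ker (pev (K := K) x s) ≤ RingHom.ker (pev (K := K) x t) := by
  classical
  intro F hF
  have key : pev (K := K) x t = ((aeval (R := B) (fun i => if i ∈ t then C (x i) else X i) :
      MvPolynomial σ B →ₐ[B] MvPolynomial σ B).restrictScalars K).comp (pev (K := K) x s) := by
    apply algHom_ext
    intro i
    by_cases hi : i ∈ s
    · simp [pev, hi, h hi]
    · simp [pev, hi]
  rw [RingHom.mem_ker] at hF ⊢
  rw [key, AlgHom.comp_apply, hF, map_zero]

lemma pev_ker_lt (x : σ → B) {s : Set σ} {i : σ} (hi : i ∉ s)
    (halg : IsAlgebraic (Algebra.adjoin K (x '' s)) (x i)) :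
    RingHom.ker (pev (K := K) x s) < RingHom.ker (pev (K := K) x (insert i s)) := by
  classical
  refine lt_of_le_of_ne (pev_ker_mono x (Set.subset_insert i s)) ?_
  intro heq
  obtain ⟨p, hp0, hp⟩ := halg
  -- surjection from MvPolynomial s K onto the adjoin
  let g : MvPolynomial s K →ₐ[K] B := aeval (fun j => x j.1)
  have hrange : g.range = Algebra.adjoin K (x '' s) := by
    have := Algebra.adjoin_range_eq_range_aeval K (fun j : s => x j.1)
    rw [← this]
    congr 1
    ext y
    simp
  have hsurj : ∀ a : Algebra.adjoin K (x '' s), ∃ q : MvPolynomial s K, g q = a.1 := by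
    intro a
    have : a.1 ∈ g.range := by rw [hrange]; exact a.2
    exact this
  -- lift p
  obtain ⟨P, hP⟩ : ∃ P : Polynomial (MvPolynomial s K),
      P.map (g : MvPolynomial s K →+* B) = p.map (algebraMap (Algebra.adjoin K (x '' s)) B) := by
    choose f hf using hsurj
    refine ⟨∑ k ∈ p.support, Polynomial.monomial k (f (p.coeff k)), ?_⟩
    rw [Polynomial.map_sum]
    conv_rhs => rw [p.as_sum_support]
    rw [Polynomial.map_sum]
    refine Finset.sum_congr rfl fun k _ => ?_
    rw [Polynomial.map_monomial, Polynomial.map_monomial]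
    congr 1
    exact hf _
  let r : MvPolynomial s K →ₐ[K] MvPolynomial σ K := rename Subtype.val
  let F : MvPolynomial σ K := P.eval₂ (r : MvPolynomial s K →+* MvPolynomial σ K) (X i)
  have hev : ∀ t : Set σ, s ⊆ t → pev (K := K) x t F =
      P.eval₂ ((C : B →+* MvPolynomial σ B).comp (g : MvPolynomial s K →+* B))
        (pev (K := K) x t (X i)) := by
    intro t hst
    have h1 : (pev (K := K) x t) F = P.eval₂ (((pev (K := K) x t) : MvPolynomial σ K →+* MvPolynomial σ B).comp
        (r : MvPolynomial s K →+* MvPolynomial σ K)) (pev (K := K) x t (X i)) := by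
      have := Polynomial.hom_eval₂ P (r : MvPolynomial s K →+* MvPolynomial σ K)
        ((pev (K := K) x t) : MvPolynomial σ K →+* MvPolynomial σ B) (X i)
      exact this
    rw [h1]
    congr 1
    apply MvPolynomial.ringHom_ext
    · intro a
      simp [r, g, pev, MvPolynomial.algebraMap_eq]
    · intro j
      have hj : (j : σ) ∈ t := hst j.2
      simp [r, g, pev, hj]
  have hF1 : F ∈ RingHom.ker (pev (K := K) x (insert i s)) := by
    rw [RingHom.mem_ker, hev _ (Set.subset_insert i s)]
    have : pev (K := K) x (insert i s) (X i) = C (x i) := by simp [pev]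
    rw [this]
    have h2 := (Polynomial.hom_eval₂ P (g : MvPolynomial s K →+* B) (C : B →+* MvPolynomial σ B) (x i))
    rw [← h2, ← Polynomial.eval_map, hP, Polynomial.eval_map]
    have : Polynomial.eval₂ (algebraMap (Algebra.adjoin K (x '' s)) B) (x i) p = 0 := hp
    rw [this, map_zero]
  rw [← heq, RingHom.mem_ker, hev _ subset_rfl] at hF1
  have hX : pev (K := K) x s (X i) = X i := by simp [pev, hi]
  rw [hX] at hF1
  -- map to polynomials in one variable
  let φ : MvPolynomial σ B →ₐ[B] Polynomial B := aeval (fun j => if j = i then Polynomial.X else 0)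
  have h3 := congrArg φ hF1
  rw [map_zero] at h3
  have h4 := (Polynomial.hom_eval₂ P ((C : B →+* MvPolynomial σ B).comp (g : MvPolynomial s K →+* B))
    (φ : MvPolynomial σ B →+* Polynomial B) (X i))
  have h5 : (φ : MvPolynomial σ B →+* Polynomial B) (X i) = Polynomial.X := by simp [φ]
  rw [h5] at h4
  have h6 : ((φ : MvPolynomial σ B →+* Polynomial B).comp
      ((C : B →+* MvPolynomial σ B).comp (g : MvPolynomial s K →+* B))) =
      (Polynomial.C : B →+* Polynomial B).comp (g : MvPolynomial s K →+* B) := by
    ext a
    all_goals simp [φ]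
  rw [h6] at h4
  have h7 : Polynomial.eval₂ ((Polynomial.C : B →+* Polynomial B).comp (g : MvPolynomial s K →+* B))
      Polynomial.X P = P.map (g : MvPolynomial s K →+* B) := by
    rw [← Polynomial.eval₂_map, Polynomial.eval₂_C_X]
  rw [h7, hP] at h4
  have h8 : p.map (algebraMap (Algebra.adjoin K (x '' s)) B) = 0 := by
    rw [← h4]; exact h3
  rw [Polynomial.map_eq_zero_iff] at h8
  · exact hp0 h8
  · exact Subtype.val_injective

/-- A prime of a polynomial ring has height at least the number of variables minus the
transcendence degree of the quotient. -/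
theorem card_le_height_add [Fintype σ] (x : σ → B) (n : ℕ) (hn : Algebra.trdeg K B ≤ n) :
    (Fintype.card σ : ℕ∞) ≤ (RingHom.ker (aeval x : MvPolynomial σ K →ₐ[K] B)).height + n := by
  classical
  -- maximal independent subset
  let 𝒮 : Finset (Finset σ) := Finset.univ.filter
    (fun s : Finset σ => AlgebraicIndepOn K x (s : Set σ))
  have hne : 𝒮.Nonempty := by
    refine ⟨∅, ?_⟩
    simp only [𝒮, Finset.mem_filter, Finset.mem_univ, true_and, Finset.coe_empty]
    exact (algebraicIndependent_empty_type_iff (R := K) (A := B)).mpr (FaithfulSMul.algebraMap_injective K B)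
  obtain ⟨s₀, hs₀, hmax⟩ := 𝒮.exists_max_image Finset.card hne
  have hind : AlgebraicIndepOn K x (s₀ : Set σ) := by
    simpa [𝒮] using hs₀
  have hcard : s₀.card ≤ n := by
    have h1 : Cardinal.mk (s₀ : Set σ) ≤ Algebra.trdeg K B := hind.cardinalMk_le_trdeg
    have h2 := h1.trans hn
    simp only [Finset.coe_sort_coe, Cardinal.mk_coe_finset, Nat.cast_le] at h2
    exact h2
  have halg : ∀ i, i ∉ s₀ → IsAlgebraic (Algebra.adjoin K (x '' (s₀ : Set σ))) (x i) := by
    intro i hi
    by_contra hcon
    have h1 : AlgebraicIndepOn K x (insert i (s₀ : Set σ)) := by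
      rw [AlgebraicIndepOn.insert_iff (by simpa using hi)]
      exact ⟨hind, hcon⟩
    have h2 : insert i s₀ ∈ 𝒮 := by
      simp only [𝒮, Finset.mem_filter, Finset.mem_univ, true_and, Finset.coe_insert]
      exact h1
    have h3 := hmax _ h2
    rw [Finset.card_insert_of_notMem hi] at h3
    omega
  have key : ∀ t : Finset σ, Disjoint t s₀ →
      (t.card : ℕ∞) ≤ (RingHom.ker (pev (K := K) x ((t ∪ s₀ : Finset σ) : Set σ))).height := by
    intro t
    induction t using Finset.induction_on with
    | empty => intro _; simp
    | insert i t hit ih =>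
      intro hd
      rw [Finset.disjoint_insert_left] at hd
      have hlt := pev_ker_lt (K := K) x (s := ((t ∪ s₀ : Finset σ) : Set σ)) (i := i)
        (by simp [hit, hd.1]) (by
          have h0 := halg i hd.1
          have hsub : x '' (s₀ : Set σ) ⊆ x '' ((t ∪ s₀ : Finset σ) : Set σ) :=
            Set.image_mono (by simp)
          have hle := Algebra.adjoin_mono (R := K) hsub
          obtain ⟨p, hp0, hp⟩ := h0
          refine ⟨p.map (Subalgebra.inclusion hle : _ →+* _), ?_, ?_⟩
          · intro h0
            exact hp0 ((Polynomial.map_eq_zero_iff (Subalgebra.inclusion_injective hle)).mp h0)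
          · rw [Polynomial.aeval_def, Polynomial.eval₂_map]
            exact hp)
      have h2 : (insert i ((t ∪ s₀ : Finset σ) : Set σ)) = ((insert i t ∪ s₀ : Finset σ) : Set σ) := by
        ext; simp
      rw [h2] at hlt
      have := RingHom.ker_isPrime (pev (K := K) x ((t ∪ s₀ : Finset σ) : Set σ)).toRingHom
      have := RingHom.ker_isPrime (pev (K := K) x ((insert i t ∪ s₀ : Finset σ) : Set σ)).toRingHom
      have := Ideal.height_add_one_le_of_lt_of_isPrime
        (I := RingHom.ker (pev (K := K) x ((t ∪ s₀ : Finset σ) : Set σ)).toRingHom)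
        (J := RingHom.ker (pev (K := K) x ((insert i t ∪ s₀ : Finset σ) : Set σ)).toRingHom) hlt
      rw [Finset.card_insert_of_notMem hit]
      have h3 : ((t.card + 1 : ℕ) : ℕ∞) = (t.card : ℕ∞) + 1 := by push_cast; rfl
      rw [h3]
      exact (add_le_add_left (ih hd.2) 1).trans this
  have h1 := key (Finset.univ \ s₀) Finset.sdiff_disjoint
  have h2 : ((Finset.univ \ s₀ ∪ s₀ : Finset σ) : Set σ) = Set.univ := by
    ext i; simp
  rw [h2] at h1
  have h3 : RingHom.ker (pev (K := K) x Set.univ) = RingHom.ker (aeval x : MvPolynomial σ K →ₐ[K] B) := by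
    have hcomp : pev (K := K) x Set.univ =
        ((Algebra.ofId B (MvPolynomial σ B)).restrictScalars K).comp (aeval x) := by
      apply algHom_ext
      intro i
      simp [pev, Algebra.ofId_apply, MvPolynomial.algebraMap_eq]
    ext F
    rw [RingHom.mem_ker, RingHom.mem_ker, hcomp, AlgHom.comp_apply]
    constructor
    · intro h
      have : (C : B →+* MvPolynomial σ B) (aeval x F) = 0 := h
      exact (MvPolynomial.C_injective σ B) (by rw [this, map_zero])
    · intro h
      rw [h, map_zero]
  rw [h3] at h1
  have h4 : Fintype.card σ = (Finset.univ \ s₀).card + s₀.card := by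
    rw [Finset.card_sdiff_add_card, Finset.union_eq_left.mpr (Finset.subset_univ _),
      Finset.card_univ]
  rw [h4]
  push_cast
  exact add_le_add h1 (by exact_mod_cast hcard)

/-- Killing a nonzero element makes the transcendence degree drop. -/
theorem trdeg_drop {C' : Type} [CommRing C'] [IsDomain C'] [Algebra K C'] (f : B →ₐ[K] C')
    (hf : Function.Surjective f) (b : B) (hb : b ≠ 0) (hfb : f b = 0) (n : ℕ)
    (hn : Algebra.trdeg K B ≤ (n + 1 : ℕ)) : Algebra.trdeg K C' ≤ n := by
  obtain ⟨ι, y, hy⟩ := exists_isTranscendenceBasis' K C'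
  choose g hg using hf
  have hx : AlgebraicIndependent K (fun i => g (y i)) := by
    apply AlgebraicIndependent.of_comp f
    have : (f ∘ fun i => g (y i)) = y := by
      funext i; exact hg _
    rw [this]; exact hy.1
  have htr : Transcendental (Algebra.adjoin K (Set.range fun i => g (y i))) b := by
    intro halg
    obtain ⟨a, ha0, c, hc⟩ := halg.exists_nonzero_dvd (mem_nonZeroDivisors_of_ne_zero hb)
    have ha : a.1 ∈ (aeval (fun i => g (y i)) : MvPolynomial ι K →ₐ[K] B).range := by
      rw [← Algebra.adjoin_range_eq_range_aeval]; exact a.2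
    obtain ⟨q, hq⟩ := ha
    have h1 : f a.1 = 0 := by
      have : a.1 = b * c := hc
      rw [this, map_mul, hfb, zero_mul]
    have h2 : aeval y q = 0 := by
      rw [← h1, ← hq]
      change aeval y q = f (aeval (fun i => g (y i)) q)
      have h3 := MvPolynomial.comp_aeval_apply (fun i => g (y i)) f q
      rw [h3]
      congr 2
      funext i; exact (hg _).symm
    have h3 : q = 0 := by
      have := hy.1
      rw [AlgebraicIndependent, injective_iff_map_eq_zero] at this
      exact this q h2
    apply ha0
    apply Subtype.ext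
    rw [← hq, h3, map_zero]
    rfl
  have hopt := AlgebraicIndependent.option_iff.mpr ⟨hx, htr⟩
  have h4 := hopt.cardinalMk_le_trdeg
  have h5 : Cardinal.mk (Option ι) ≤ ((n + 1 : ℕ) : Cardinal) := h4.trans hn
  rw [← hy.cardinalMk_eq_trdeg]
  have hfin : Finite (Option ι) := by
    rw [← Cardinal.lt_aleph0_iff_finite]
    exact lt_of_le_of_lt h5 (Cardinal.natCast_lt_aleph0)
  have hfin' : Finite ι := Finite.of_injective (some : ι → Option ι) (Option.some_injective _)
  have := Fintype.ofFinite ι
  rw [Cardinal.mk_fintype, Fintype.card_option] at h5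
  rw [Cardinal.mk_fintype]
  have h6 : Fintype.card ι + 1 ≤ n + 1 := by exact_mod_cast h5
  exact_mod_cast Nat.le_of_succ_le_succ h6

end HT

end Pool.Agent.Helper51.NC
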