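import Mathlib
import Pool.Agent.Helper51.NC.Defs
import Pool.Agent.Helper51.NC.Mats
import Pool.Agent.Helper51.NC.Height

/-!
The prime ideal of `K[X,Y]` attached to a point `M` of the space of matrices (with values in a
field extension) and the linear space of `Y` with `[M,Y]` diagonal.
-/

namespace Pool.Agent.Helper51.NC

open MvPolynomial Matrix

variable {K : Type} [Field K] {κ : Type} [Field κ] [Algebra K κ]

abbrev IX : Type := Fin 4 × Fin 4

/-- inclusion of `K[X]` in `K[X,Y]` -/
noncomputable def embX (K : Type) [Field K] : MvPolynomial IX K →ₐ[K] PolyXY 4 K :=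
  rename Sum.inl

/-- evaluation of `K[X]` at `M` -/
noncomputable def evX (M : M4 κ) : MvPolynomial IX K →ₐ[K] κ := aeval (fun p => M p.1 p.2)

/-- evaluation of the `X` variables at `M`, keeping the `Y` variables -/
noncomputable def evXY (M : M4 κ) : PolyXY 4 K →ₐ[K] MvPolynomial IX κ :=
  aeval (Sum.elim (fun p => C (M p.1 p.2)) X)

/-- a linear functional as a linear form -/
noncomputable def lin (ℓ : M4 κ →ₗ[κ] κ) : MvPolynomial IX κ :=
  ∑ p : IX, C (ℓ (Matrix.single p.1 p.2 1)) * X p

lemma lin_add (a b : M4 κ →ₗ[κ] κ) : lin (a + b) = lin a + lin b := by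
  simp [lin, add_mul, Finset.sum_add_distrib]

lemma lin_sub (a b : M4 κ →ₗ[κ] κ) : lin (a - b) = lin a - lin b := by
  simp [lin, sub_mul, Finset.sum_sub_distrib]

lemma lin_smul (c : κ) (a : M4 κ →ₗ[κ] κ) : lin (c • a) = C c * lin a := by
  simp [lin, Finset.mul_sum, mul_assoc]

lemma lin_zero : lin (0 : M4 κ →ₗ[κ] κ) = 0 := by simp [lin]

/-- the coordinate functional -/
def coordL (p : IX) : M4 κ →ₗ[κ] κ where
  toFun Y := Y p.1 p.2
  map_add' _ _ := rfl
  map_smul' _ _ := rfl

@[simp] lemma coordL_apply (p : IX) (Y : M4 κ) : coordL p Y = Y p.1 p.2 := rfl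

lemma lin_coordL (p : IX) : lin (coordL (κ := κ) p) = X p := by
  classical
  rw [lin, Finset.sum_eq_single p]
  · simp [coordL_apply]
  · intro q _ hq
    have : (coordL (κ := κ) p) (Matrix.single q.1 q.2 1) = 0 := by
      rw [coordL_apply, Matrix.single_apply, if_neg]
      rintro ⟨h1, h2⟩
      exact hq (Prod.ext h1 h2)
    rw [this]; simp
  · intro h; exact absurd (Finset.mem_univ _) h

/-- the functional `Y ↦ [M,Y]_ij` -/
def cmL (M : M4 κ) (i j : Fin 4) : M4 κ →ₗ[κ] κ where
  toFun Y := cm M Y i j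
  map_add' a b := by rw [cm_add]; rfl
  map_smul' c a := by rw [cm_smul]; rfl

@[simp] lemma cmL_apply (M : M4 κ) (i j : Fin 4) (Y : M4 κ) : cmL M i j Y = cm M Y i j := rfl

lemma map_commEntry {S : Type} [CommRing S] (f : PolyXY 4 K →+* S) (i j : Fin 4) :
    f (commEntry 4 K i j) = cm ((matX 4 K).map f) ((matY 4 K).map f) i j := by
  simp only [commEntry, cm, Matrix.sub_apply, Matrix.mul_apply, map_sub, map_sum, map_mul, Matrix.map_apply]

lemma evXY_commEntry (M : M4 κ) (i j : Fin 4) :
    evXY (K := K) M (commEntry 4 K i j) = lin (cmL M i j) := by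
  have h1 : cmL M i j = ∑ k, (M i k • coordL (k, j) - M k j • coordL (κ := κ) (i, k)) := by
    ext Y : 1
    simp only [cmL_apply, cm, Matrix.sub_apply, Matrix.mul_apply, LinearMap.sum_apply,
      LinearMap.sub_apply, LinearMap.smul_apply, coordL_apply, smul_eq_mul, Finset.sum_sub_distrib]
    congr 1
    exact Finset.sum_congr rfl fun k _ => mul_comm _ _
  have h2 : ∀ (s : Finset (Fin 4)) (f : Fin 4 → (M4 κ →ₗ[κ] κ)), lin (∑ k ∈ s, f k) = ∑ k ∈ s, lin (f k) := by
    intro s f
    induction s using Finset.induction_on with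
    | empty => simp [lin_zero]
    | insert a s ha ih => rw [Finset.sum_insert ha, Finset.sum_insert ha, lin_add, ih]
  rw [h1, h2, commEntry]
  simp only [Matrix.sub_apply, Matrix.mul_apply, map_sub, map_sum, map_mul, matX, matY,
    Matrix.of_apply, evXY, aeval_X, Sum.elim_inl, Sum.elim_inr, lin_sub, lin_smul, lin_coordL,
    Finset.sum_sub_distrib]
  congr 1
  exact Finset.sum_congr rfl fun k _ => mul_comm _ _

section Theta

variable (M : M4 κ) {m : ℕ} (b : Module.Basis (Fin m) κ (NS M))

/-- generic element of the solution space -/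
noncomputable def genY : M4 (MvPolynomial (Fin m) κ) :=
  Matrix.of fun i j => ∑ l, X l * C ((b l).1 i j)

/-- the parametrization -/
noncomputable def Theta : PolyXY 4 K →ₐ[K] MvPolynomial (Fin m) κ :=
  aeval (Sum.elim (fun p => C (M p.1 p.2)) (fun p => genY M b p.1 p.2))

noncomputable def subY : MvPolynomial IX κ →ₐ[κ] MvPolynomial (Fin m) κ :=
  aeval (fun p => genY M b p.1 p.2)

lemma Theta_eq (f : PolyXY 4 K) : Theta M b f = subY M b (evXY M f) := by
  have : Theta (K := K) M b = ((subY M b).restrictScalars K).comp (evXY M) := by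
    apply algHom_ext
    rintro (p | p)
    · simp [Theta, subY, evXY]
    · simp [Theta, subY, evXY]
  rw [this]; rfl

lemma subY_lin (ℓ : M4 κ →ₗ[κ] κ) : subY M b (lin ℓ) = ∑ l, X l * C (ℓ (b l).1) := by
  have h1 : ∀ Y : M4 κ, ℓ Y = ∑ p : IX, Y p.1 p.2 * ℓ (Matrix.single p.1 p.2 1) := by
    intro Y
    conv_lhs => rw [Matrix.matrix_eq_sum_single Y]
    rw [map_sum, Fintype.sum_prod_type]
    refine Finset.sum_congr rfl fun i _ => ?_
    rw [map_sum]
    refine Finset.sum_congr rfl fun j _ => ?_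
    rw [← mul_one (Y i j), ← smul_eq_mul (Y i j) 1, ← Matrix.smul_single, map_smul, smul_eq_mul,
      smul_eq_mul, mul_one]
  rw [lin, map_sum]
  simp only [map_mul, subY, aeval_X, aeval_C, MvPolynomial.algebraMap_eq, genY, Matrix.of_apply,
    Finset.mul_sum]
  rw [Finset.sum_comm]
  refine Finset.sum_congr rfl fun l _ => ?_
  rw [h1 (b l).1, map_sum, Finset.mul_sum]
  refine Finset.sum_congr rfl fun p _ => ?_
  rw [map_mul]; ring

lemma idealI_le_ker_Theta : idealI 4 K ≤ RingHom.ker (Theta (K := K) M b) := by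
  rw [idealI, Ideal.span_le]
  rintro _ ⟨i, j, hij, rfl⟩
  rw [SetLike.mem_coe, RingHom.mem_ker, Theta_eq, evXY_commEntry, subY_lin]
  refine Finset.sum_eq_zero fun l _ => ?_
  have : cmL M i j (b l).1 = 0 := (b l).2 i j hij
  rw [this]; simp

/-- off-diagonal index pairs -/
abbrev OffD : Type := {p : Fin 4 × Fin 4 // p.1 ≠ p.2}

/-- a polynomial in `Y` vanishing on the solution space is in the ideal of its equations -/
lemma mem_span_of_subY_eq_zero (g : MvPolynomial IX κ) (hg : subY M b g = 0) :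
    g ∈ Ideal.span (Set.range fun p : OffD => lin (cmL M p.1.1 p.1.2)) := by
  set 𝔟 := Ideal.span (Set.range fun p : OffD => lin (cmL M p.1.1 p.1.2)) with h𝔟
  -- a projection
  obtain ⟨π, hπ⟩ := (NS M).subtype.exists_leftInverse_of_injective (by simp)
  have hπ' : ∀ Y : NS M, π Y.1 = Y := fun Y => LinearMap.congr_fun hπ Y
  let h : IX → MvPolynomial IX κ := fun p => lin ((coordL p) ∘ₗ (NS M).subtype ∘ₗ π)
  have hX : ∀ p, X p - h p ∈ 𝔟 := by
    intro p
    have e1 : X p - h p = lin (coordL p - (coordL p) ∘ₗ (NS M).subtype ∘ₗ π) := by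
      rw [lin_sub, lin_coordL]
    rw [e1]
    have e2 : (coordL p - (coordL p) ∘ₗ (NS M).subtype ∘ₗ π) ∈
        Submodule.span κ (Set.range fun q : OffD => cmL M q.1.1 q.1.2) := by
      apply mem_span_of_iInf_ker_le_ker
      intro Y hY
      have hYN : Y ∈ NS M := by
        intro i j hij
        have := (Submodule.mem_iInf _).mp hY ⟨(i, j), hij⟩
        exact this
      rw [LinearMap.mem_ker, LinearMap.sub_apply, LinearMap.comp_apply, LinearMap.comp_apply,
        hπ' ⟨Y, hYN⟩]
      simp
    refine Submodule.span_induction (p := fun ℓ _ => lin ℓ ∈ 𝔟) ?_ ?_ ?_ ?_ e2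
    · rintro _ ⟨q, rfl⟩
      exact Ideal.subset_span ⟨q, rfl⟩
    · rw [lin_zero]; exact Ideal.zero_mem _
    · intro x y _ _ hx hy
      rw [lin_add]; exact Ideal.add_mem _ hx hy
    · intro c x _ hx
      rw [lin_smul]; exact Ideal.mul_mem_left _ _ hx
  have h1 : g - aeval h g ∈ 𝔟 := by
    have e3 : (Ideal.Quotient.mkₐ κ 𝔟) = (Ideal.Quotient.mkₐ κ 𝔟).comp (aeval h) := by
      apply algHom_ext
      intro p
      rw [AlgHom.comp_apply, aeval_X]
      simp only [Ideal.Quotient.mkₐ_eq_mk]
      rw [Ideal.Quotient.eq]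
      exact hX p
    have e4 := congrArg (fun φ : MvPolynomial IX κ →ₐ[κ] _ => φ g) e3
    simp only [AlgHom.comp_apply, Ideal.Quotient.mkₐ_eq_mk] at e4
    rwa [Ideal.Quotient.eq] at e4
  have h2 : aeval h g = 0 := by
    let τ : MvPolynomial (Fin m) κ →ₐ[κ] MvPolynomial IX κ :=
      aeval (fun l => lin ((b.coord l) ∘ₗ π))
    have e5 : (aeval h : MvPolynomial IX κ →ₐ[κ] MvPolynomial IX κ) = τ.comp (subY M b) := by
      apply algHom_ext
      intro p
      rw [AlgHom.comp_apply, aeval_X]
      simp only [subY, aeval_X, genY, Matrix.of_apply, map_sum, map_mul, τ, aeval_C,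
        MvPolynomial.algebraMap_eq, h]
      have e6 : (coordL p) ∘ₗ (NS M).subtype ∘ₗ π = ∑ l, ((b l).1 p.1 p.2) • ((b.coord l) ∘ₗ π) := by
        ext Y : 1
        have e7 := b.sum_repr (π Y)
        have e8 := congrArg (fun z : NS M => z.1 p.1 p.2) e7
        simp only [Submodule.coe_sum, Submodule.coe_smul, Matrix.sum_apply, Matrix.smul_apply,
          smul_eq_mul] at e8
        simp only [LinearMap.comp_apply, Submodule.subtype_apply, coordL_apply,
          LinearMap.sum_apply, LinearMap.smul_apply, Module.Basis.coord_apply,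
          smul_eq_mul]
        rw [← e8]
        exact Finset.sum_congr rfl fun l _ => mul_comm _ _
      rw [e6]
      have e9 : ∀ (s : Finset (Fin m)) (f : Fin m → (M4 κ →ₗ[κ] κ)),
          lin (∑ k ∈ s, f k) = ∑ k ∈ s, lin (f k) := by
        intro s f
        induction s using Finset.induction_on with
        | empty => simp [lin_zero]
        | insert a s ha ih => rw [Finset.sum_insert ha, Finset.sum_insert ha, lin_add, ih]
      rw [e9]
      refine Finset.sum_congr rfl fun l _ => ?_
      rw [lin_smul, mul_comm]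
    rw [e5, AlgHom.comp_apply, hg, map_zero]
  rw [h2, sub_zero] at h1
  exact h1

end Theta

/-- every element of `κ` is a quotient of values of polynomials -/
def IsFracX (K : Type) [Field K] {κ : Type} [Field κ] [Algebra K κ] (M : M4 κ) : Prop :=
  ∀ a : κ, ∃ n d : MvPolynomial IX K, evX M d ≠ 0 ∧ a * evX M d = evX M n

lemma evXY_embX (M : M4 κ) (n : MvPolynomial IX K) : evXY M (embX K n) = C (evX M n) := by
  have e1 : (evXY (K := K) M).comp (embX K) =
      ((Algebra.ofId κ (MvPolynomial IX κ)).restrictScalars K).comp (evX M) := by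
    apply algHom_ext
    intro p
    simp [evXY, embX, evX, Algebra.ofId_apply, MvPolynomial.algebraMap_eq]
  have := congrArg (fun φ : MvPolynomial IX K →ₐ[K] _ => φ n) e1
  exact this

lemma clear_denoms (M : M4 κ) (hM : IsFracX K M) (g : MvPolynomial IX κ) :
    ∃ s : MvPolynomial IX K, evX M s ≠ 0 ∧ ∃ g' : PolyXY 4 K, evXY M g' = C (evX M s) * g := by
  induction g using MvPolynomial.induction_on with
  | C a =>
    obtain ⟨n, d, hd, h⟩ := hM a
    refine ⟨d, hd, embX K n, ?_⟩
    rw [evXY_embX, ← h, ← C_mul, mul_comm]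
  | add p q hp hq =>
    obtain ⟨s, hs, p', hp'⟩ := hp
    obtain ⟨t, ht, q', hq'⟩ := hq
    refine ⟨s * t, by rw [map_mul]; exact mul_ne_zero hs ht, embX K t * p' + embX K s * q', ?_⟩
    rw [map_add, map_mul, map_mul, hp', hq', evXY_embX, evXY_embX, map_mul, C_mul]
    ring
  | mul_X p i hp =>
    obtain ⟨s, hs, p', hp'⟩ := hp
    refine ⟨s, hs, p' * X (Sum.inr i), ?_⟩
    rw [map_mul, hp']
    have : evXY (K := K) M (X (Sum.inr i)) = X i := by simp [evXY]
    rw [this, mul_assoc]

/-- kernel of the evaluation of the `X` variables -/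
lemma mem_map_of_evXY_eq_zero (M : M4 κ) (h : PolyXY 4 K) (hh : evXY M h = 0) :
    h ∈ (RingHom.ker (evX (K := K) M)).map (embX K) := by
  let toI : PolyXY 4 K →ₐ[K] MvPolynomial IX (MvPolynomial IX K) :=
    aeval (Sum.elim (fun p => C (X p)) X)
  let frI : MvPolynomial IX (MvPolynomial IX K) →+* PolyXY 4 K :=
    eval₂Hom (embX K : MvPolynomial IX K →+* PolyXY 4 K) (fun p => X (Sum.inr p))
  have h1 : ∀ f, frI (toI f) = f := by
    intro f
    have : (frI.comp (toI : PolyXY 4 K →+* _)) = RingHom.id _ := by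
      apply MvPolynomial.ringHom_ext
      · intro a
        have e : (toI : PolyXY 4 K →+* MvPolynomial IX (MvPolynomial IX K)) (C a) = C (C a) := by
          have := toI.commutes a
          exact this
        rw [RingHom.comp_apply, e]
        simp only [frI, coe_eval₂Hom, eval₂_C, RingHom.id_apply]
        exact (embX K).commutes a
      · rintro (p | p)
        · simp [frI, toI, embX]
        · simp [frI, toI]
    exact congrArg (fun φ : PolyXY 4 K →+* PolyXY 4 K => φ f) this
  have h2 : ∀ f, evXY M f = MvPolynomial.map (evX (K := K) M : MvPolynomial IX K →+* κ) (toI f) := by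
    intro f
    have : ((evXY (K := K) M : PolyXY 4 K →ₐ[K] _) : PolyXY 4 K →+* MvPolynomial IX κ) =
        (MvPolynomial.map (evX (K := K) M : MvPolynomial IX K →+* κ)).comp
          (toI : PolyXY 4 K →+* _) := by
      apply MvPolynomial.ringHom_ext
      · intro a
        have e : (toI : PolyXY 4 K →+* MvPolynomial IX (MvPolynomial IX K)) (C a) = C (C a) := by
          have := toI.commutes a
          exact this
        rw [RingHom.comp_apply, e, map_C]
        have e2 : (evX (K := K) M : MvPolynomial IX K →+* κ) (C a) = algebraMap K κ a :=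
          (evX (K := K) M).commutes a
        rw [e2]
        have e3 := (evXY (K := K) M).commutes a
        exact e3
      · rintro (p | p)
        · simp [evXY, toI, evX]
        · simp [evXY, toI]
    exact congrArg (fun φ : PolyXY 4 K →+* MvPolynomial IX κ => φ f) this
  rw [h2] at hh
  have h3 : toI h ∈ Ideal.map (C : MvPolynomial IX K →+* _) (RingHom.ker (evX (K := K) M : MvPolynomial IX K →+* κ)) := by
    rw [← MvPolynomial.ker_map]
    exact hh
  have h4 := Ideal.mem_map_of_mem frI h3
  rw [h1, Ideal.map_map] at h4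
  have h5 : frI.comp (C : MvPolynomial IX K →+* _) = (embX K : MvPolynomial IX K →+* PolyXY 4 K) := by
    ext a
    all_goals simp [frI]
  rw [h5] at h4
  exact h4

/-- Main structural lemma: elements of the kernel of `Theta`, up to a multiplier in `K[X]` not
vanishing at `M`, are in `I` plus the ideal of `M`. -/
theorem ker_Theta_spec (M : M4 κ) {m : ℕ} (b : Module.Basis (Fin m) κ (NS M)) (hM : IsFracX K M)
    (f : PolyXY 4 K) (hf : Theta M b f = 0) :
    ∃ s : MvPolynomial IX K, evX M s ≠ 0 ∧
      embX K s * f ∈ idealI 4 K ⊔ (RingHom.ker (evX (K := K) M)).map (embX K) := by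
  rw [Theta_eq] at hf
  have h1 := mem_span_of_subY_eq_zero M b _ hf
  -- a common multiplier
  have key : ∀ g ∈ Ideal.span (Set.range fun p : OffD => lin (cmL M p.1.1 p.1.2)),
      ∃ s : MvPolynomial IX K, evX M s ≠ 0 ∧ ∃ h ∈ idealI 4 K, evXY M h = C (evX M s) * g := by
    intro g hg
    refine Submodule.span_induction ?_ ?_ ?_ ?_ hg
    · rintro _ ⟨p, rfl⟩
      refine ⟨1, by simp, commEntry 4 K p.1.1 p.1.2, Ideal.subset_span ⟨_, _, p.2, rfl⟩, ?_⟩
      simp [evXY_commEntry]
    · exact ⟨1, by simp, 0, Ideal.zero_mem _, by simp⟩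
    · rintro x y _ _ ⟨s, hs, a, ha, hsa⟩ ⟨t, ht, c, hc, htc⟩
      refine ⟨s * t, by rw [map_mul]; exact mul_ne_zero hs ht, embX K t * a + embX K s * c,
        Ideal.add_mem _ (Ideal.mul_mem_left _ _ ha) (Ideal.mul_mem_left _ _ hc), ?_⟩
      rw [map_add, map_mul, map_mul, hsa, htc, evXY_embX, evXY_embX, map_mul, C_mul]
      ring
    · rintro c x _ ⟨s, hs, a, ha, hsa⟩
      obtain ⟨t, ht, g', hg'⟩ := clear_denoms M hM c
      refine ⟨s * t, by rw [map_mul]; exact mul_ne_zero hs ht, g' * a, Ideal.mul_mem_left _ _ ha, ?_⟩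
      rw [map_mul, hsa, hg', map_mul, C_mul, smul_eq_mul]
      ring
  obtain ⟨s, hs, h, hhI, hh⟩ := key _ h1
  refine ⟨s, hs, ?_⟩
  have h2 : evXY M (embX K s * f - h) = 0 := by
    rw [map_sub, map_mul, evXY_embX, hh, sub_self]
  have h3 := mem_map_of_evXY_eq_zero M _ h2
  have h4 : embX K s * f = h + (embX K s * f - h) := by ring
  rw [h4]
  exact Ideal.add_mem _ (Ideal.mem_sup_left hhI) (Ideal.mem_sup_right h3)

/-- height bound for the kernel of `Theta` -/
theorem height_ker_Theta (M : M4 κ) {m : ℕ} (b : Module.Basis (Fin m) κ (NS M)) (t : ℕ)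
    (ht : Algebra.trdeg K κ ≤ t) :
    (32 : ℕ∞) ≤ (RingHom.ker (Theta (K := K) M b)).height + (t + m : ℕ) := by
  have h1 : Algebra.trdeg K (MvPolynomial (Fin m) κ) ≤ ((t + m : ℕ) : Cardinal) := by
    rw [← trdeg_add_eq K κ]
    rw [MvPolynomial.trdeg_of_isDomain]
    push_cast
    refine add_le_add ht ?_
    simp
  have h2 := card_le_height_add (K := K) (Sum.elim (fun p : IX => C (M p.1 p.2)) (fun p : IX => genY M b p.1 p.2)) (t + m) h1
  have h3 : Fintype.card (IX ⊕ IX) = 32 := by simp [IX]
  rw [h3] at h2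
  exact h2

end Pool.Agent.Helper51.NC
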