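import Mathlib
import Pool.Agent.Helper51.NC.Commutant
import Pool.Agent.Helper51.NC.LinForms

/-!
The Motzkin-Taussky argument.
-/

namespace Pool.Agent.Helper51.NC

open MvPolynomial Matrix

lemma Wm_map {S T : Type} [CommRing S] [CommRing T] (f : S →+* T) (v : Fin 4 → S) (M : M4 S) :
    (Wm v M).map f = Wm (fun i => f (v i)) (M.map f) := by
  ext i k
  have h := Matrix.map_pow M f (k : ℕ)
  simp only [Wm, Matrix.map_apply, Matrix.of_apply, Matrix.mulVec, dotProduct, map_sum, map_mul]
  rw [← h]
  rfl

lemma Gm_map {S T : Type} [CommRing S] [CommRing T] (f : S →+* T) (M : M4 S) :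
    (Gm M).map f = Gm (M.map f) := by
  ext a i
  have h := Matrix.map_pow M f (a : ℕ)
  simp only [Gm, Matrix.map_apply, Matrix.of_apply]
  rw [← h]
  rfl

lemma det_Wm_map {S T : Type} [CommRing S] [CommRing T] (f : S →+* T) (v : Fin 4 → S) (M : M4 S) :
    f (Wm v M).det = (Wm (fun i => f (v i)) (M.map f)).det := by
  rw [← Wm_map, RingHom.map_det]; rfl

lemma det_Gm_map {S T : Type} [CommRing S] [CommRing T] (f : S →+* T) (M : M4 S) :
    f (Gm M).det = (Gm (M.map f)).det := by
  rw [← Gm_map, RingHom.map_det]; rfl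

lemma det_Wm_smul {S : Type} [CommRing S] (v : Fin 4 → S) (s : S) (N : M4 S) :
    (Wm v (s • N)).det = s ^ 6 * (Wm v N).det := by
  have h : Wm v (s • N) = Wm v N * Matrix.diagonal (fun k : Fin 4 => s ^ (k : ℕ)) := by
    ext i k
    rw [Matrix.mul_diagonal]
    simp only [Wm, Matrix.of_apply, smul_pow, Matrix.smul_mulVec, Pi.smul_apply, smul_eq_mul]
    ring
  rw [h, Matrix.det_mul, Matrix.det_diagonal]
  have : ∏ i : Fin 4, s ^ (i : ℕ) = s ^ 6 := by
    simp [Fin.prod_univ_four]; ring
  rw [this]; ring

variable {K : Type} [Field K]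

/-- the point with coordinates `M`, `Y` -/
def pt (M Y : M4 K) : (IX ⊕ IX) → K := Sum.elim (fun p => M p.1 p.2) (fun p => Y p.1 p.2)

theorem mt_principle [IsAlgClosed K] (a : Ideal (PolyXY 4 K))
    (hstab : ∀ (M Y Z : M4 K) (t : K), Z * Y = Y * Z → pt M Y ∈ zeroLocus K a →
      pt (M + t • Z) Y ∈ zeroLocus K a)
    (h : PolyXY 4 K)
    (hh : ∀ (M Y : M4 K) (v : Fin 4 → K), pt M Y ∈ zeroLocus K a → (Wm v M).det ≠ 0 →
      aeval (pt M Y) h = 0) : h ∈ a.radical := by
  rw [← vanishingIdeal_zeroLocus_eq_radical (K := K)]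
  intro x hx
  obtain ⟨M, Y, rfl⟩ : ∃ M Y : M4 K, x = pt M Y := by
    refine ⟨Matrix.of fun i j => x (Sum.inl (i, j)), Matrix.of fun i j => x (Sum.inr (i, j)), ?_⟩
    funext p
    rcases p with p | p <;> rfl
  obtain ⟨Z, v, hZY, hZv⟩ := exists_cyclic_commuting Y
  -- the polynomials on the line
  let MT : M4 (Polynomial K) := M.map Polynomial.C + (Polynomial.X : Polynomial K) • Z.map Polynomial.C
  let P1 : Polynomial K := (Wm (fun i => Polynomial.C (v i)) MT).det
  let P2 : Polynomial K := aeval (Sum.elim (fun p : IX => MT p.1 p.2) (fun p : IX => Polynomial.C (Y p.1 p.2))) h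
  have hMT : ∀ t : K, MT.map (Polynomial.evalRingHom t) = M + t • Z := by
    intro t
    ext i j
    simp [MT]
    exact mul_comm _ _
  have hP1 : ∀ t, P1.eval t = (Wm v (M + t • Z)).det := by
    intro t
    have := det_Wm_map (Polynomial.evalRingHom t) (fun i => Polynomial.C (v i)) MT
    rw [hMT] at this
    simpa using this
  have hP2 : ∀ t, P2.eval t = aeval (pt (M + t • Z) Y) h := by
    intro t
    have h1 := MvPolynomial.comp_aeval_apply (R := K)
      (Sum.elim (fun p : IX => MT p.1 p.2) (fun p : IX => Polynomial.C (Y p.1 p.2)))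
      (Polynomial.aeval t) h
    have h2 : (Polynomial.aeval t) P2 = P2.eval t := by rw [Polynomial.coe_aeval_eq_eval]
    rw [← h2]
    simp only [P2]
    rw [h1]
    congr 2
    funext p
    rcases p with p | p
    · have := congrFun (congrFun (hMT t) p.1) p.2
      simp only [Matrix.map_apply, Polynomial.coe_evalRingHom] at this
      simp only [Sum.elim_inl, pt, Polynomial.coe_aeval_eq_eval]
      exact this
    · simp [pt]
  have hprod : P1 * P2 = 0 := by
    apply Polynomial.funext
    intro t
    rw [Polynomial.eval_mul, hP1, hP2, Polynomial.eval_zero]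
    by_cases h0 : (Wm v (M + t • Z)).det = 0
    · rw [h0, zero_mul]
    · rw [hh _ Y v (hstab M Y Z t hZY hx) h0, mul_zero]
  rcases mul_eq_zero.mp hprod with h1 | h1
  · -- impossible
    exfalso
    have hz : ∀ t : K, (Wm v (M + t • Z)).det = 0 := by
      intro t; rw [← hP1, h1, Polynomial.eval_zero]
    let MS : M4 (Polynomial K) := (Polynomial.X : Polynomial K) • M.map Polynomial.C + Z.map Polynomial.C
    let P3 : Polynomial K := (Wm (fun i => Polynomial.C (v i)) MS).det
    have hP3 : ∀ s, P3.eval s = (Wm v (s • M + Z)).det := by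
      intro s
      have := det_Wm_map (Polynomial.evalRingHom s) (fun i => Polynomial.C (v i)) MS
      have e : MS.map (Polynomial.evalRingHom s) = s • M + Z := by
        ext i j
        simp [MS]
        exact mul_comm _ _
      rw [e] at this
      simpa using this
    have hP3' : Polynomial.X * P3 = 0 := by
      apply Polynomial.funext
      intro s
      rw [Polynomial.eval_mul, Polynomial.eval_X, Polynomial.eval_zero, hP3]
      by_cases hs : s = 0
      · rw [hs, zero_mul]
      · have e : s • M + Z = s • (M + s⁻¹ • Z) := by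
          rw [smul_add, smul_smul, mul_inv_cancel₀ hs, one_smul]
        rw [e, det_Wm_smul, hz, mul_zero, mul_zero]
    have h3 : P3 = 0 := by
      rcases mul_eq_zero.mp hP3' with h | h
      · exact absurd h Polynomial.X_ne_zero
      · exact h
    have h4 := hP3 0
    rw [h3, Polynomial.eval_zero, zero_smul, zero_add] at h4
    exact hZv h4.symm
  · have := hP2 0
    rw [h1, Polynomial.eval_zero, zero_smul, add_zero] at this
    exact this.symm

end Pool.Agent.Helper51.NC
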