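import Mathlib
import Pool.Agent.Helper51.NC.MT

/-!
The determinant `D` of the matrix of diagonals of powers of the generic matrix is a prime element
in characteristic two.
-/

namespace Pool.Agent.Helper51.NC

open MvPolynomial Matrix

variable {K : Type} [Field K]

/-- the generic matrix -/
noncomputable def genX (K : Type) [Field K] : M4 (MvPolynomial IX K) := Matrix.of fun i j => X (i, j)

/-- the determinant `D` -/
noncomputable def DX (K : Type) [Field K] : MvPolynomial IX K := (Gm (genX K)).det

lemma genX_map {κ : Type} [Field κ] [Algebra K κ] (M : M4 κ) :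
    (genX K).map (evX (K := K) M : MvPolynomial IX K →+* κ) = M := by
  ext i j
  simp [genX, evX]

lemma evX_DX {κ : Type} [Field κ] [Algebra K κ] (M : M4 κ) : evX M (DX K) = (Gm M).det := by
  have := det_Gm_map (evX (K := K) M : MvPolynomial IX K →+* κ) (genX K)
  rw [genX_map] at this
  exact this

lemma totalDegree_genX_pow (a : ℕ) (i j : Fin 4) : ((genX K ^ a) i j).totalDegree ≤ a := by
  induction a generalizing i j with
  | zero =>
    rw [pow_zero, Matrix.one_apply]
    split_ifs <;> simp
  | succ a ih =>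
    rw [pow_succ, Matrix.mul_apply]
    refine totalDegree_finsetSum_le (fun k _ => ?_)
    refine (totalDegree_mul _ _).trans ?_
    refine add_le_add (ih i k) ?_
    simp [genX, totalDegree_X]

lemma totalDegree_DX_le : (DX K).totalDegree ≤ 6 := by
  rw [DX, Matrix.det_apply']
  refine totalDegree_finsetSum_le (fun σ _ => ?_)
  refine (totalDegree_mul _ _).trans ?_
  have h1 : (((Equiv.Perm.sign σ : ℤˣ) : ℤ) : MvPolynomial IX K).totalDegree = 0 := by
    rcases Int.units_eq_one_or (Equiv.Perm.sign σ) with h | h <;> rw [h] <;> simp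
  rw [h1, zero_add]
  refine (totalDegree_finsetProd _ _).trans ?_
  calc ∑ i, (Gm (genX K) (σ i) i).totalDegree ≤ ∑ i : Fin 4, ((σ i : Fin 4) : ℕ) :=
        Finset.sum_le_sum fun i _ => totalDegree_genX_pow _ _ _
    _ = ∑ i : Fin 4, (i : ℕ) := Equiv.sum_comp σ (fun i : Fin 4 => (i : ℕ))
    _ ≤ 6 := by decide

lemma natDegree_aeval_le {σ : Type} (f : σ → Polynomial K) (hf : ∀ i, (f i).natDegree ≤ 1)
    (G : MvPolynomial σ K) : (aeval f G).natDegree ≤ G.totalDegree := by
  rw [MvPolynomial.aeval_def, MvPolynomial.eval₂_eq]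
  refine Polynomial.natDegree_sum_le_of_forall_le _ _ (fun m hm => ?_)
  refine Polynomial.natDegree_mul_le.trans ?_
  have h1 : ((algebraMap K (Polynomial K)) (coeff m G)).natDegree = 0 := Polynomial.natDegree_C _
  rw [h1, zero_add]
  refine (Polynomial.natDegree_prod_le _ _).trans ?_
  refine le_trans ?_ (le_totalDegree hm)
  rw [Finsupp.sum]
  refine Finset.sum_le_sum fun i _ => ?_
  refine Polynomial.natDegree_pow_le.trans ?_
  calc m i * (f i).natDegree ≤ m i * 1 := Nat.mul_le_mul_left _ (hf i)
    _ = m i := mul_one _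

/-- the test line -/
def lineM {S : Type} [CommRing S] (b s : S) : M4 S :=
  !![b, b, 0, 0; b, 0, s, 0; 0, b, 0, 1 + b; b, 1, 1, 1 + b]

lemma det_Gm_lineM {S : Type} [CommRing S] (b s : S) (h2 : (2 : S) = 0) :
    (Gm (lineM b s)).det = s + b + b ^ 6 := by
  have hG : Gm (lineM b s) = !![1, 1, 1, 1; b, 0, 0, 1 + b;
      2 * b ^ 2, b * s + b ^ 2, 1 + b + b * s, 2 + 3 * b + b ^ 2;
      3 * b ^ 3, s + b * s + b ^ 3, 1 + s + 2 * b + b * s + b ^ 2,
        3 + s + 7 * b + b * s + 5 * b ^ 2 + b ^ 3] := by
    ext i j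
    fin_cases i <;> fin_cases j <;>
      simp [Gm, lineM, pow_succ, Matrix.mul_apply, Fin.sum_univ_four] <;> ring
  rw [hG]
  have e1 : (1 : Fin 4).succAbove (2 : Fin 3) = 3 := rfl
  have e2 : (2 : Fin 4).succAbove (2 : Fin 3) = 3 := rfl
  have e3 : (3 : Fin 4).succAbove (2 : Fin 3) = 2 := rfl
  simp [Matrix.det_succ_row_zero, Fin.sum_univ_succ, e1, e2, e3]
  linear_combination (b ^ 3 * s - 2 * b ^ 2 - b ^ 3 - b * s - s - b + b ^ 5 + 2 * b ^ 4 - b ^ 6) * h2

lemma lineM_map {S T : Type} [CommRing S] [CommRing T] (f : S →+* T) (b s : S) :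
    (lineM b s).map f = lineM (f b) (f s) := by
  ext i j
  fin_cases i <;> fin_cases j <;> simp [lineM]

section

/-- restriction to the test plane -/
noncomputable def rho (K : Type) [Field K] : MvPolynomial IX K →ₐ[K] Polynomial (Polynomial K) :=
  aeval (fun p => lineM (Polynomial.C Polynomial.X) Polynomial.X p.1 p.2)

noncomputable def rho0 (K : Type) [Field K] : MvPolynomial IX K →ₐ[K] Polynomial K :=
  aeval (fun p => lineM (Polynomial.X : Polynomial K) 0 p.1 p.2)

lemma rho0_eq (F : MvPolynomial IX K) : rho0 K F = (rho K F).eval 0 := by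
  have h1 : ((rho0 K : _ →ₐ[K] _) : MvPolynomial IX K →+* Polynomial K) =
      (Polynomial.evalRingHom (0 : Polynomial K)).comp
        ((rho K : _ →ₐ[K] _) : MvPolynomial IX K →+* Polynomial (Polynomial K)) := by
    apply MvPolynomial.ringHom_ext
    · intro a
      have e1 : ((rho0 K : _ →ₐ[K] _) : MvPolynomial IX K →+* Polynomial K) (C a) = Polynomial.C a :=
        (rho0 K).commutes a
      have e2 : ((rho K : _ →ₐ[K] _) : MvPolynomial IX K →+* Polynomial (Polynomial K)) (C a) =
          Polynomial.C (Polynomial.C a) := (rho K).commutes a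
      rw [e1, RingHom.comp_apply, e2]
      simp
    · intro p
      have e3 := lineM_map (Polynomial.evalRingHom (0 : Polynomial K)) (Polynomial.C Polynomial.X)
        (Polynomial.X : Polynomial (Polynomial K))
      have e4 := congrFun (congrFun e3 p.1) p.2
      simp only [Matrix.map_apply, Polynomial.coe_evalRingHom, Polynomial.eval_C, Polynomial.eval_X] at e4
      simp only [rho0, rho, RingHom.coe_coe, aeval_X, RingHom.comp_apply, Polynomial.coe_evalRingHom]
      exact e4.symm
  exact congrArg (fun φ : MvPolynomial IX K →+* Polynomial K => φ F) h1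

lemma rho_DX (h2 : (2 : K) = 0) : rho K (DX K) =
    Polynomial.X - Polynomial.C (-(Polynomial.X + Polynomial.X ^ 6)) := by
  have h1 := det_Gm_map ((rho K : _ →ₐ[K] _) : MvPolynomial IX K →+* Polynomial (Polynomial K)) (genX K)
  have h3 : (genX K).map ((rho K : _ →ₐ[K] _) : MvPolynomial IX K →+* Polynomial (Polynomial K)) =
      lineM (Polynomial.C (Polynomial.X : Polynomial K)) Polynomial.X := by
    refine Matrix.ext fun i j => ?_
    simp [genX, rho]
  rw [h3, det_Gm_lineM] at h1
  · have h4 : rho K (DX K) = _ := h1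
    rw [h4]
    simp only [Polynomial.C_neg, Polynomial.C_add, Polynomial.C_pow]
    ring
  · have : (2 : Polynomial (Polynomial K)) =
        ((Polynomial.C : Polynomial K →+* _).comp (Polynomial.C : K →+* _)) (2 : K) :=
      (map_ofNat _ 2).symm
    rw [this, h2, map_zero]

theorem DX_irreducible (h2 : (2 : K) = 0) : Irreducible (DX K) := by
  have hirr : Irreducible (rho K (DX K)) := by
    rw [rho_DX h2]; exact Polynomial.irreducible_X_sub_C _
  have h0 : rho0 K (DX K) = Polynomial.X ^ 6 + Polynomial.X := by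
    rw [rho0_eq, rho_DX h2]; simp; ring
  have hdeg0 : (rho0 K (DX K)).natDegree = 6 := by
    rw [h0]; compute_degree!
  have hent : ∀ p : IX, ((fun p : IX => lineM (Polynomial.X : Polynomial K) 0 p.1 p.2) p).natDegree ≤ 1 := by
    rintro ⟨i, j⟩
    fin_cases i <;> fin_cases j <;> simp [lineM] <;> compute_degree
  have hD0 : DX K ≠ 0 := by
    intro h; rw [h, map_zero] at hirr; exact not_irreducible_zero hirr
  have key : ∀ F G : MvPolynomial IX K, DX K = F * G → IsUnit (rho K F) → IsUnit F := by
    intro F G hFG hu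
    have hF0 : F ≠ 0 := by rintro rfl; rw [zero_mul] at hFG; exact hD0 hFG
    have hG0 : G ≠ 0 := by rintro rfl; rw [mul_zero] at hFG; exact hD0 hFG
    have hu0 : IsUnit (rho0 K F) := by
      rw [rho0_eq]
      exact hu.map (Polynomial.evalRingHom (0 : Polynomial K))
    have h1 : (rho0 K F).natDegree = 0 := Polynomial.natDegree_eq_zero_of_isUnit hu0
    have h3 : (rho0 K G).natDegree = 6 := by
      have h4 : rho0 K (DX K) = rho0 K F * rho0 K G := by rw [hFG, map_mul]
      have hG' : rho0 K G ≠ 0 := by
        intro h; rw [h, mul_zero] at h4; rw [h4] at hdeg0; simp at hdeg0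
      rw [h4, Polynomial.natDegree_mul hu0.ne_zero hG', h1, zero_add] at hdeg0
      exact hdeg0
    have h5 : 6 ≤ G.totalDegree := by
      rw [← h3]; exact natDegree_aeval_le _ hent G
    have h6 := totalDegree_DX_le (K := K)
    rw [hFG, totalDegree_mul_of_isDomain hF0 hG0] at h6
    have h7 : F.totalDegree = 0 := by omega
    rw [totalDegree_eq_zero_iff_eq_C] at h7
    rw [h7]
    have h8 : coeff 0 F ≠ 0 := by
      intro h; rw [h, C_0] at h7; exact hF0 h7
    exact (isUnit_iff_ne_zero.mpr h8).map C
  constructor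
  · intro hu
    exact hirr.not_isUnit (hu.map (rho K))
  · intro F G hFG
    have h1 : rho K (DX K) = rho K F * rho K G := by rw [hFG, map_mul]
    rcases hirr.isUnit_or_isUnit h1 with h | h
    · left; exact key F G hFG h
    · right; exact key G F (by rw [hFG, mul_comm]) h

theorem DX_prime (h2 : (2 : K) = 0) : Prime (DX K) := (DX_irreducible h2).prime

lemma DX_ne_zero (h2 : (2 : K) = 0) : DX K ≠ 0 := (DX_irreducible h2).ne_zero

end

end Pool.Agent.Helper51.NC
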