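import Mathlib
import Pool.Agent.Helper51.NC.MT

/-!
Transcendence degree bounds for matrices whose diagonals of powers span a small space.
-/

namespace Pool.Agent.Helper51.NC

open MvPolynomial Matrix

section minors

variable {S : Type} [CommRing S]

lemma minor_smul {n : ℕ} (M : M4 S) (x : S) (r c : Fin n → Fin 4)
    (h : ((Gm M).submatrix r c).det = 0) : ((Gm (x • M)).submatrix r c).det = 0 := by
  have e : (Gm (x • M)).submatrix r c =
      Matrix.diagonal (fun i => x ^ ((r i : Fin 4) : ℕ)) * (Gm M).submatrix r c := by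
    ext i j
    rw [Matrix.diagonal_mul]
    simp only [Matrix.submatrix_apply, Gm, Matrix.of_apply, smul_pow, Matrix.smul_apply, smul_eq_mul]
  rw [e, Matrix.det_mul, h, mul_zero]

/-- the three dimensional test space -/
def lineL (a b c : S) : M4 S :=
  !![0, a, 0, b; a, a, c, 0; b, c, b + c, 0; 0, 0, b, 0]

lemma Gm_lineL (a b c : S) : Gm (lineL a b c) = !![1, 1, 1, 1; 0, a, b + c, 0;
    a ^ 2, 2 * a ^ 2 + c ^ 2, b ^ 2 + 2 * b * c + 2 * c ^ 2, 0;
    a ^ 3 + a * b * c + b ^ 3, 3 * a ^ 3 + a * b * c + 2 * a * c ^ 2 + b * c ^ 2 + c ^ 3,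
      a * b * c + a * c ^ 2 + 2 * b ^ 3 + 3 * b ^ 2 * c + 5 * b * c ^ 2 + 3 * c ^ 3, b ^ 3] := by
  ext i j
  fin_cases i <;> fin_cases j <;>
    simp [Gm, lineL, pow_succ, Matrix.mul_apply, Fin.sum_univ_four] <;> ring

lemma lineL_eq_zero {k : Type} [Field k] (h2 : (2 : k) = 0) (a b c : k)
    (h : ∀ r c' : Fin 3 → Fin 4, ((Gm (lineL a b c)).submatrix r c').det = 0) :
    a = 0 ∧ b = 0 ∧ c = 0 := by
  have h1 := h ![0, 1, 2] ![0, 1, 3]
  have h3 := h ![0, 1, 2] ![1, 2, 3]
  have h4 := h ![0, 2, 3] ![1, 2, 3]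
  rw [Gm_lineL, Matrix.det_fin_three] at h1 h3 h4
  simp only [Matrix.submatrix_apply, Matrix.of_apply, Matrix.cons_val', Matrix.cons_val_zero,
    Matrix.cons_val_one, Matrix.cons_val, Matrix.cons_val_fin_one] at h1 h3 h4
  have ha : a = 0 := by
    have : a ^ 3 = 0 := by linear_combination (-1 : k) * h1
    exact pow_eq_zero_iff (by norm_num) |>.mp this
  subst ha
  have hc1 : c ^ 2 * (b + c) = 0 := by linear_combination (-1 : k) * h3
  have hb : b = 0 := by
    have : b ^ 5 = 0 := by
      linear_combination h4 - c ^ 2 * hc1 - (b ^ 4 * c + b ^ 3 * c ^ 2) * h2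
    exact pow_eq_zero_iff (by norm_num) |>.mp this
  subst hb
  have hc : c = 0 := by
    have : c ^ 3 = 0 := by linear_combination hc1
    exact pow_eq_zero_iff (by norm_num) |>.mp this
  exact ⟨rfl, rfl, hc⟩

lemma minor_ne_zero_rank {κ : Type} [Field κ] {n : ℕ} (G : M4 κ) (r c : Fin n → Fin 4)
    (h : (G.submatrix r c).det ≠ 0) : n ≤ G.rank := by
  have e : G.submatrix r c = (1 : M4 κ).submatrix r id * G * (1 : M4 κ).submatrix id c := by
    ext i j
    simp [Matrix.mul_apply, Matrix.one_apply]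
  have h1 : (G.submatrix r c).rank = n := by
    have := Matrix.rank_of_isUnit _ ((Matrix.isUnit_iff_isUnit_det _).mpr (isUnit_iff_ne_zero.mpr h))
    rw [this, Fintype.card_fin]
  calc n = (G.submatrix r c).rank := h1.symm
    _ ≤ ((1 : M4 κ).submatrix r id * G).rank := by rw [e]; exact Matrix.rank_mul_le_left _ _
    _ ≤ G.rank := Matrix.rank_mul_le_right _ _

end minors

section trdeg

variable {K : Type} [Field K] {κ : Type} [Field κ] [Algebra K κ]

/-- all elements are algebraic over a subalgebra over which the entries are -/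
lemma isAlgebraic_of_entries (M : M4 κ) (hM : IsFracX K M) (A : Subalgebra K κ)
    (h : ∀ i j, IsAlgebraic A (M i j)) : Algebra.IsAlgebraic A κ := by
  refine ⟨fun a => ?_⟩
  have hp : ∀ f : MvPolynomial IX K, IsAlgebraic A (evX M f) := by
    intro f
    induction f using MvPolynomial.induction_on with
    | C c =>
      have : evX (K := K) M (C c) = algebraMap A κ (algebraMap K A c) := by
        rw [← IsScalarTower.algebraMap_apply]
        exact (evX (K := K) M).commutes c
      rw [this]
      exact isAlgebraic_algebraMap _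
    | add p q hp hq => rw [map_add]; exact hp.add hq
    | mul_X p i hp =>
      rw [map_mul]
      refine hp.mul ?_
      have : evX (K := K) M (X i) = M i.1 i.2 := by simp [evX]
      rw [this]; exact h _ _
  obtain ⟨n, d, hd, hnd⟩ := hM a
  have : a = evX M n * (evX M d)⁻¹ := by
    rw [← hnd, mul_assoc, mul_inv_cancel₀ hd, mul_one]
  rw [this]
  exact (hp n).mul (hp d).inv

lemma trdeg_le_of_entries (M : M4 κ) (hM : IsFracX K M) {n : ℕ} (g : Fin n → κ)
    (h : ∀ i j, IsAlgebraic (Algebra.adjoin K (Set.range g)) (M i j)) :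
    Algebra.trdeg K κ ≤ n := by
  have := isAlgebraic_of_entries M hM _ h
  refine (Algebra.IsAlgebraic.trdeg_le_cardinalMk K (Set.range g)).trans ?_
  exact Cardinal.mk_range_le.trans (by simp)

/-- the thirteen linear forms cutting out the test space -/
def lamL (M : M4 κ) : Fin 13 → κ :=
  ![M 0 0, M 1 0 - M 0 1, M 1 1 - M 0 1, M 0 2, M 1 3, M 2 0 - M 0 3, M 2 1 - M 1 2,
    M 2 2 - M 0 3 - M 1 2, M 2 3, M 3 0, M 3 1, M 3 2 - M 0 3, M 3 3]

lemma eq_lineL_of_lamL {k : Type} [Field k] (N : M4 k) (h : ∀ i, lamL N i = 0) :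
    N = lineL (N 0 1) (N 0 3) (N 1 2) := by
  have e0 := h 0
  have e1 := h 1
  have e2 := h 2
  have e3 := h 3
  have e4 := h 4
  have e5 := h 5
  have e6 := h 6
  have e7 := h 7
  have e8 := h 8
  have e9 := h 9
  have e10 := h 10
  have e11 := h 11
  have e12 := h 12
  simp only [lamL, Matrix.cons_val_zero, Matrix.cons_val_one, Matrix.cons_val] at e0 e1 e2 e3 e4 e5 e6 e7 e8 e9 e10 e11 e12
  have f1 : N 1 0 = N 0 1 := by linear_combination e1
  have f2 : N 1 1 = N 0 1 := by linear_combination e2
  have f5 : N 2 0 = N 0 3 := by linear_combination e5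
  have f6 : N 2 1 = N 1 2 := by linear_combination e6
  have f7 : N 2 2 = N 0 3 + N 1 2 := by linear_combination e7
  have f11 : N 3 2 = N 0 3 := by linear_combination e11
  ext i j
  fin_cases i <;> fin_cases j <;> simp [lineL, e0, f1, f2, e3, e4, f5, f6, f7, e8, e9, e10, f11, e12]

/-- the valuation argument -/
lemma mem_valuationSubring (h2 : (2 : κ) = 0) (M : M4 κ)
    (hmin : ∀ r c : Fin 3 → Fin 4, ((Gm M).submatrix r c).det = 0)
    (V : ValuationSubring κ) (hV : ∀ i, lamL M i ∈ V) : ∀ i j, M i j ∈ V := by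
  by_contra hcon
  push Not at hcon
  obtain ⟨i₁, j₁, h₁⟩ := hcon
  obtain ⟨⟨i₀, j₀⟩, -, hmax⟩ := Finset.exists_max_image (Finset.univ : Finset IX)
    (fun p => V.valuation (M p.1 p.2)) ⟨(i₁, j₁), Finset.mem_univ _⟩
  set x := M i₀ j₀ with hx
  have hx1 : 1 < V.valuation x := by
    have h3 : 1 < V.valuation (M i₁ j₁) := by
      rw [← not_le, V.valuation_le_one_iff]; exact h₁
    exact lt_of_lt_of_le h3 (hmax (i₁, j₁) (Finset.mem_univ _))
  have hx0 : x ≠ 0 := by
    intro h; rw [h, map_zero] at hx1; exact not_lt_zero hx1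
  have hvx : V.valuation x ≠ 0 := by rwa [Valuation.ne_zero_iff]
  -- the scaled matrix
  have hN : ∀ i j, x⁻¹ * M i j ∈ V := by
    intro i j
    rw [← V.valuation_le_one_iff, map_mul, map_inv₀]
    have := hmax (i, j) (Finset.mem_univ _)
    calc (V.valuation x)⁻¹ * V.valuation (M i j) ≤ (V.valuation x)⁻¹ * V.valuation x := by
          gcongr
      _ = 1 := inv_mul_cancel₀ hvx
  let N : M4 V := Matrix.of fun i j => ⟨x⁻¹ * M i j, hN i j⟩
  have hNmap : N.map (algebraMap V κ) = x⁻¹ • M := by
    ext i j; rfl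
  let k := IsLocalRing.ResidueField V
  let R : M4 k := N.map (IsLocalRing.residue V)
  have hRmin : ∀ r c : Fin 3 → Fin 4, ((Gm R).submatrix r c).det = 0 := by
    intro r c
    have e1 : ((Gm N).submatrix r c).det = 0 := by
      have hinj : Function.Injective (algebraMap V κ) := Subtype.val_injective
      apply hinj
      rw [map_zero, RingHom.map_det, RingHom.mapMatrix_apply, ← Matrix.submatrix_map, Gm_map, hNmap]
      exact minor_smul M _ r c (hmin r c)
    have e2 := congrArg (IsLocalRing.residue V) e1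
    rw [map_zero, RingHom.map_det, RingHom.mapMatrix_apply, ← Matrix.submatrix_map, Gm_map] at e2
    exact e2
  have hRlam : ∀ i, lamL R i = 0 := by
    intro i
    have hm : ∀ l : κ, l ∈ V → V.valuation (x⁻¹ * l) < 1 := by
      intro l hl
      rw [map_mul, map_inv₀]
      have hl' : V.valuation l ≤ 1 := (V.valuation_le_one_iff l).mpr hl
      calc (V.valuation x)⁻¹ * V.valuation l ≤ (V.valuation x)⁻¹ * 1 := by gcongr
        _ < 1 := by rw [mul_one]; exact inv_lt_one_of_one_lt₀ hx1
    have hlamV : (lamL M i) ∈ V := hV i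
    -- express lamL R i as residue of an element of valuation < 1
    have key : ∀ z : V, (z : κ) = x⁻¹ * lamL M i → IsLocalRing.residue V z = 0 := by
      intro z hz
      rw [IsLocalRing.residue_eq_zero_iff]
      have := hm _ hlamV
      rw [← hz] at this
      exact (V.valuation_lt_one_iff z).mpr this
    have hz : ∃ z : V, (z : κ) = x⁻¹ * lamL M i ∧ lamL R i = IsLocalRing.residue V z := by
      fin_cases i
      · exact ⟨N 0 0, rfl, rfl⟩
      · exact ⟨N 1 0 - N 0 1, (mul_sub _ _ _).symm, by rw [map_sub]; rfl⟩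
      · exact ⟨N 1 1 - N 0 1, (mul_sub _ _ _).symm, by rw [map_sub]; rfl⟩
      · exact ⟨N 0 2, rfl, rfl⟩
      · exact ⟨N 1 3, rfl, rfl⟩
      · exact ⟨N 2 0 - N 0 3, (mul_sub _ _ _).symm, by rw [map_sub]; rfl⟩
      · exact ⟨N 2 1 - N 1 2, (mul_sub _ _ _).symm, by rw [map_sub]; rfl⟩
      · refine ⟨N 2 2 - N 0 3 - N 1 2, ?_, ?_⟩
        · change x⁻¹ * M 2 2 - x⁻¹ * M 0 3 - x⁻¹ * M 1 2 = x⁻¹ * (M 2 2 - M 0 3 - M 1 2)
          ring
        · rw [map_sub, map_sub]; rfl
      · exact ⟨N 2 3, rfl, rfl⟩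
      · exact ⟨N 3 0, rfl, rfl⟩
      · exact ⟨N 3 1, rfl, rfl⟩
      · exact ⟨N 3 2 - N 0 3, (mul_sub _ _ _).symm, by rw [map_sub]; rfl⟩
      · exact ⟨N 3 3, rfl, rfl⟩
    obtain ⟨z, hz1, hz2⟩ := hz
    rw [hz2]; exact key z hz1
  have h2k : (2 : k) = 0 := by
    have e1 : (2 : V) = 0 := by
      apply Subtype.ext
      exact h2
    have : (2 : k) = IsLocalRing.residue V 2 := (map_ofNat _ 2).symm
    rw [this, e1, map_zero]
  have hL := eq_lineL_of_lamL R hRlam
  have h3 := lineL_eq_zero h2k (R 0 1) (R 0 3) (R 1 2) (by rw [← hL]; exact hRmin)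
  obtain ⟨ha, hb, hc⟩ := h3
  have hR0 : R = 0 := by
    rw [hL, ha, hb, hc]
    ext i j
    fin_cases i <;> fin_cases j <;> simp [lineL]
  have h4 : R i₀ j₀ = 1 := by
    change IsLocalRing.residue V ⟨x⁻¹ * M i₀ j₀, hN i₀ j₀⟩ = 1
    have : (⟨x⁻¹ * M i₀ j₀, hN i₀ j₀⟩ : V) = 1 := by
      apply Subtype.ext
      exact inv_mul_cancel₀ hx0
    rw [this, map_one]
  rw [hR0] at h4
  exact zero_ne_one h4

/-- rank at most two -/
theorem trdeg_le_thirteen (h2 : (2 : κ) = 0) (M : M4 κ) (hM : IsFracX K M)
    (hmin : ∀ r c : Fin 3 → Fin 4, ((Gm M).submatrix r c).det = 0) :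
    Algebra.trdeg K κ ≤ 13 := by
  have h := trdeg_le_of_entries (K := K) M hM (lamL M) (by
    intro i j
    have h1 : M i j ∈ (⨅ V : {V : ValuationSubring κ // (Set.range (algebraMap K κ) ∪ Set.range (lamL M)) ⊆ V.toSubring},
        V.1.toSubring) := by
      rw [Subring.mem_iInf]
      intro V
      exact mem_valuationSubring h2 M hmin V.1 (fun i => V.2 (Or.inr ⟨i, rfl⟩)) i j
    rw [iInf_valuationSubring_superset] at h1
    have h3 : IsIntegral (Subring.closure (Set.range (algebraMap K κ) ∪ Set.range (lamL M))) (M i j) := h1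
    have h4 : (Algebra.adjoin K (Set.range (lamL M))).toSubring =
        Subring.closure (Set.range (algebraMap K κ) ∪ Set.range (lamL M)) :=
      Algebra.adjoin_eq_ring_closure _
    have h5 : IsIntegral (Algebra.adjoin K (Set.range (lamL M))) (M i j) := by
      obtain ⟨p, hp, hp0⟩ := h3
      have hle : Subring.closure (Set.range (algebraMap K κ) ∪ Set.range (lamL M)) ≤
          (Algebra.adjoin K (Set.range (lamL M))).toSubring := h4.ge
      refine ⟨p.map (Subring.inclusion hle), hp.map _, ?_⟩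
      rw [Polynomial.eval₂_map]
      exact hp0
    exact h5.isAlgebraic)
  exact_mod_cast h

/-- rank at most one -/
theorem trdeg_le_twelve (M : M4 κ) (hM : IsFracX K M)
    (hmin : ∀ r c : Fin 2 → Fin 4, ((Gm M).submatrix r c).det = 0) :
    Algebra.trdeg K κ ≤ 12 := by
  have hd : ∀ i, M i i = M 3 3 := by
    intro i
    have := hmin ![0, 1] ![3, i]
    rw [Matrix.det_fin_two] at this
    simp only [Matrix.submatrix_apply, Matrix.cons_val_zero, Matrix.cons_val_one, Gm,
      Matrix.of_apply, Matrix.cons_val_fin_one] at this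
    simp only [Fin.coe_ofNat_eq_mod, Nat.zero_mod, pow_zero, Matrix.one_apply_eq, Nat.reduceMod, pow_one] at this
    linear_combination this
  have hd2 : (M ^ 2) 0 0 = (M ^ 2) 1 1 := by
    have := hmin ![0, 2] ![1, 0]
    rw [Matrix.det_fin_two] at this
    simp only [Matrix.submatrix_apply, Matrix.cons_val_zero, Matrix.cons_val_one, Gm,
      Matrix.of_apply, Matrix.cons_val_fin_one] at this
    simp only [Fin.coe_ofNat_eq_mod, Nat.zero_mod, pow_zero, Matrix.one_apply_eq, Nat.reduceMod] at this
    linear_combination this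
  have hrel : M 0 2 * M 2 0 = M 1 2 * M 2 1 + M 1 3 * M 3 1 - M 0 3 * M 3 0 := by
    rw [pow_two, Matrix.mul_apply, Matrix.mul_apply, Fin.sum_univ_four, Fin.sum_univ_four] at hd2
    linear_combination hd2 - (M 0 0 + M 3 3) * (hd 0) + (M 1 1 + M 3 3) * (hd 1)
  have hself : ∀ (g : Fin 12 → κ) (l : Fin 12), IsAlgebraic (Algebra.adjoin K (Set.range g)) (g l) := by
    intro g l
    exact isAlgebraic_algebraMap (⟨g l, Algebra.subset_adjoin ⟨l, rfl⟩⟩ : Algebra.adjoin K (Set.range g))
  have hcov : ∀ (g : Fin 12 → κ),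
      IsAlgebraic (Algebra.adjoin K (Set.range g)) (M 3 3) →
      (∀ i j, i ≠ j → IsAlgebraic (Algebra.adjoin K (Set.range g)) (M i j)) →
      ∀ i j, IsAlgebraic (Algebra.adjoin K (Set.range g)) (M i j) := by
    intro g hg1 hg2 i j
    by_cases hij : i = j
    · subst hij; rw [hd i]; exact hg1
    · exact hg2 i j hij
  by_cases h20 : M 2 0 = 0
  · let g : Fin 12 → κ := ![M 3 3, M 0 1, M 0 2, M 0 3, M 1 0, M 1 2, M 1 3, M 2 1, M 2 3, M 3 0, M 3 1, M 3 2]
    have h := trdeg_le_of_entries (K := K) M hM g (by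
      apply hcov g (hself g 0)
      intro i j hij
      have h0 : IsAlgebraic (Algebra.adjoin K (Set.range g)) (M 2 0) := by
        rw [h20]; exact isAlgebraic_zero
      fin_cases i <;> fin_cases j <;>
        first
          | exact absurd rfl hij
          | exact h0
          | exact hself g 1
          | exact hself g 2
          | exact hself g 3
          | exact hself g 4
          | exact hself g 5
          | exact hself g 6
          | exact hself g 7
          | exact hself g 8
          | exact hself g 9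
          | exact hself g 10
          | exact hself g 11)
    exact_mod_cast h
  · let g : Fin 12 → κ := ![M 3 3, M 0 1, M 2 0, M 0 3, M 1 0, M 1 2, M 1 3, M 2 1, M 2 3, M 3 0, M 3 1, M 3 2]
    have h := trdeg_le_of_entries (K := K) M hM g (by
      apply hcov g (hself g 0)
      intro i j hij
      have h0 : IsAlgebraic (Algebra.adjoin K (Set.range g)) (M 0 2) := by
        have e : M 0 2 = (M 1 2 * M 2 1 + M 1 3 * M 3 1 - M 0 3 * M 3 0) * (M 2 0)⁻¹ := by
          rw [← hrel, mul_assoc, mul_inv_cancel₀ h20, mul_one]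
        rw [e]
        refine IsAlgebraic.mul ?_ (hself g 2).inv
        exact (((hself g 5).mul (hself g 7)).add ((hself g 6).mul (hself g 10))).sub
          ((hself g 3).mul (hself g 9))
      fin_cases i <;> fin_cases j <;>
        first
          | exact absurd rfl hij
          | exact h0
          | exact hself g 1
          | exact hself g 2
          | exact hself g 3
          | exact hself g 4
          | exact hself g 5
          | exact hself g 6
          | exact hself g 7
          | exact hself g 8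
          | exact hself g 9
          | exact hself g 10
          | exact hself g 11)
    exact_mod_cast h

end trdeg

end Pool.Agent.Helper51.NC
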