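import Mathlib
import Pool.Agent.Helper51.NC.DPrime
import Pool.Agent.Helper51.NC.RankTwo

/-!
The minimal primes of the ideal of nearly commuting 4 × 4 matrices in characteristic two.
-/

namespace Pool.Agent.Helper51.NC

open MvPolynomial Matrix

variable {K : Type} [Field K]

abbrev AX (K : Type) [Field K] : Type := MvPolynomial IX K

section kappa

variable (p : Ideal (AX K)) [p.IsPrime]

/-- residue field at a prime of `K[X]` -/
abbrev Kap : Type := FractionRing (AX K ⧸ p)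

/-- the generic point of the prime -/
noncomputable def Mp : M4 (Kap p) :=
  Matrix.of fun i j => algebraMap (AX K ⧸ p) (Kap p) (Ideal.Quotient.mk p (X (i, j)))

lemma evX_Mp (f : AX K) : evX (Mp p) f = algebraMap (AX K ⧸ p) (Kap p) (Ideal.Quotient.mk p f) := by
  have h : (evX (Mp p) : AX K →ₐ[K] Kap p) =
      (IsScalarTower.toAlgHom K (AX K ⧸ p) (Kap p)).comp (Ideal.Quotient.mkₐ K p) := by
    apply algHom_ext
    rintro ⟨i, j⟩
    simp [evX, Mp]
  rw [h]; rfl

lemma evX_Mp_eq_zero {f : AX K} : evX (Mp p) f = 0 ↔ f ∈ p := by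
  rw [evX_Mp, ← Ideal.Quotient.eq_zero_iff_mem]
  constructor
  · intro h
    exact (IsFractionRing.injective (AX K ⧸ p) (Kap p)) (by rw [h, map_zero])
  · intro h; rw [h, map_zero]

lemma ker_evX_Mp : RingHom.ker (evX (K := K) (Mp p)) = p := by
  ext f; rw [RingHom.mem_ker]; exact evX_Mp_eq_zero p

lemma isFracX_Mp : IsFracX K (Mp p) := by
  intro a
  obtain ⟨n, d, hd, rfl⟩ := IsFractionRing.div_surjective (A := AX K ⧸ p) a
  obtain ⟨n, rfl⟩ := Ideal.Quotient.mk_surjective n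
  obtain ⟨d, rfl⟩ := Ideal.Quotient.mk_surjective d
  have hd0 : algebraMap (AX K ⧸ p) (Kap p) (Ideal.Quotient.mk p d) ≠ 0 := by
    intro h
    have : Ideal.Quotient.mk p d = 0 :=
      (IsFractionRing.injective (AX K ⧸ p) (Kap p)) (by rw [h, map_zero])
    rw [this] at hd
    exact zero_notMem_nonZeroDivisors hd
  refine ⟨n, d, ?_, ?_⟩
  · rw [evX_Mp]; exact hd0
  · rw [evX_Mp, evX_Mp, div_mul_cancel₀ _ hd0]

/-- basis of the solution space -/
noncomputable def bp : Module.Basis (Fin (Module.finrank (Kap p) (NS (Mp p)))) (Kap p) (NS (Mp p)) :=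
  Module.finBasis _ _

/-- the prime attached to `p` -/
noncomputable def PP : Ideal (PolyXY 4 K) := RingHom.ker (Theta (K := K) (Mp p) (bp p))

instance PP_isPrime : (PP p).IsPrime := RingHom.ker_isPrime _

lemma idealI_le_PP : idealI 4 K ≤ PP p := idealI_le_ker_Theta _ _

lemma embX_mem_PP {f : AX K} : embX K f ∈ PP p ↔ f ∈ p := by
  rw [PP, RingHom.mem_ker, Theta_eq, evXY_embX, ← evX_Mp_eq_zero p]
  have : subY (Mp p) (bp p) (C (evX (Mp p) f)) = C (evX (Mp p) f) := by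
    simp [subY, MvPolynomial.algebraMap_eq]
  rw [this]
  constructor
  · intro h; exact C_injective _ _ (by rw [h, C_0])
  · intro h; rw [h, C_0]

lemma PP_spec {f : PolyXY 4 K} (hf : f ∈ PP p) :
    ∃ s : AX K, s ∉ p ∧ embX K s * f ∈ idealI 4 K ⊔ p.map (embX K) := by
  obtain ⟨s, hs, h⟩ := ker_Theta_spec (Mp p) (bp p) (isFracX_Mp p) f hf
  rw [ker_evX_Mp] at h
  exact ⟨s, fun hs' => hs ((evX_Mp_eq_zero p).mpr hs'), h⟩

lemma PP_height (t : ℕ) (ht : Algebra.trdeg K (Kap p) ≤ t) :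
    (32 : ℕ∞) ≤ (PP p).height + (t + Module.finrank (Kap p) (NS (Mp p)) : ℕ) :=
  height_ker_Theta (Mp p) (bp p) t ht

end kappa

lemma PP_le {P : Ideal (PolyXY 4 K)} (hP : P.IsPrime) (hI : idealI 4 K ≤ P)
    (p : Ideal (AX K)) [p.IsPrime] (hp : p = P.comap (embX K)) : PP p ≤ P := by
  intro f hf
  obtain ⟨s, hs, h⟩ := PP_spec p hf
  have h1 : embX K s * f ∈ P := by
    have h2 : idealI 4 K ⊔ p.map (embX K) ≤ P := by
      refine sup_le hI ?_
      rw [Ideal.map_le_iff_le_comap, hp]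
    exact h2 h
  rcases hP.mem_or_mem h1 with h2 | h2
  · exfalso
    apply hs
    rw [hp]; exact h2
  · exact h2

lemma eq_PP_of_minimal {P : Ideal (PolyXY 4 K)} (hP : P ∈ (idealI 4 K).minimalPrimes)
    (p : Ideal (AX K)) [p.IsPrime] (hp : p = P.comap (embX K)) : P = PP p :=
  le_antisymm (hP.2 ⟨PP_isPrime p, idealI_le_PP p⟩ (PP_le hP.1.1 hP.1.2 p hp)) (PP_le hP.1.1 hP.1.2 p hp)

/-! ### transcendence degrees -/

lemma trdeg_fractionRing_le {B : Type} [CommRing B] [IsDomain B] [Algebra K B] (n : ℕ)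
    (h : Algebra.trdeg K B ≤ n) : Algebra.trdeg K (FractionRing B) ≤ n := by
  have h1 := trdeg_add_eq K B (A := FractionRing B)
  have h2 : Algebra.trdeg B (FractionRing B) = 0 := by
    have : Algebra.IsAlgebraic B (FractionRing B) :=
      IsLocalization.isAlgebraic (FractionRing B) (nonZeroDivisors B)
    exact _root_.trdeg_eq_zero
  rw [h2, add_zero] at h1
  rw [← h1]; exact h

lemma trdeg_quot_le_fifteen (p : Ideal (AX K)) [p.IsPrime] (hp : p ≠ ⊥) :
    Algebra.trdeg K (AX K ⧸ p) ≤ (15 : ℕ) := by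
  obtain ⟨b, hb, hb0⟩ := Submodule.exists_mem_ne_zero_of_ne_bot hp
  refine trdeg_drop (Ideal.Quotient.mkₐ K p) (Ideal.Quotient.mkₐ_surjective K p) b hb0 ?_ 15 ?_
  · rw [Ideal.Quotient.mkₐ_eq_mk]; exact Ideal.Quotient.eq_zero_iff_mem.mpr hb
  · rw [MvPolynomial.trdeg_of_isDomain]
    simp [IX]

lemma trdeg_quot_le_fourteen (p q : Ideal (AX K)) [p.IsPrime] [q.IsPrime] (hp : p ≠ ⊥) (hpq : p < q) :
    Algebra.trdeg K (AX K ⧸ q) ≤ (14 : ℕ) := by
  obtain ⟨b, hb, hbp⟩ := Set.exists_of_ssubset (show (p : Set (AX K)) ⊂ q from hpq)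
  refine trdeg_drop (Ideal.Quotient.factorₐ K hpq.le) (Ideal.Quotient.factor_surjective hpq.le)
    (Ideal.Quotient.mk p b) ?_ ?_ 14 (trdeg_quot_le_fifteen p hp)
  · intro h; exact hbp (Ideal.Quotient.eq_zero_iff_mem.mp h)
  · have : Ideal.Quotient.factorₐ K hpq.le (Ideal.Quotient.mk p b) = Ideal.Quotient.mk q b := rfl
    rw [this]; exact Ideal.Quotient.eq_zero_iff_mem.mpr hb

lemma trdeg_kap_le_fifteen (p : Ideal (AX K)) [p.IsPrime] (hp : p ≠ ⊥) :
    Algebra.trdeg K (Kap p) ≤ (15 : ℕ) := trdeg_fractionRing_le 15 (trdeg_quot_le_fifteen p hp)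

lemma trdeg_kap_le_fourteen (p q : Ideal (AX K)) [p.IsPrime] [q.IsPrime] (hp : p ≠ ⊥) (hpq : p < q) :
    Algebra.trdeg K (Kap q) ≤ (14 : ℕ) := trdeg_fractionRing_le 14 (trdeg_quot_le_fourteen p q hp hpq)

lemma trdeg_kap_le_sixteen (p : Ideal (AX K)) [p.IsPrime] :
    Algebra.trdeg K (Kap p) ≤ (16 : ℕ) := by
  by_cases hp : p = ⊥
  · apply trdeg_fractionRing_le
    have h := lift_trdeg_le_of_surjective (Ideal.Quotient.mkₐ K p) (Ideal.Quotient.mkₐ_surjective K p)
    simp only [Cardinal.lift_id] at h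
    refine h.trans ?_
    rw [MvPolynomial.trdeg_of_isDomain]
    simp [IX]
  · exact (trdeg_kap_le_fifteen p hp).trans (by exact_mod_cast (by norm_num : (15 : ℕ) ≤ 16))

end Pool.Agent.Helper51.NC
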