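import Mathlib
import Pool.Agent.Helper51.NC.Geometry

/-!
The classification of the minimal primes of `I`.
-/

namespace Pool.Agent.Helper51.NC

open MvPolynomial Matrix

variable {K : Type} [Field K]

/-! ### points -/

lemma map_matX_pt (M Y : M4 K) :
    (matX 4 K).map ((aeval (pt M Y) : PolyXY 4 K →ₐ[K] K) : PolyXY 4 K →+* K) = M := by
  ext i j; simp [matX, pt]

lemma map_matY_pt (M Y : M4 K) :
    (matY 4 K).map ((aeval (pt M Y) : PolyXY 4 K →ₐ[K] K) : PolyXY 4 K →+* K) = Y := by
  ext i j; simp [matY, pt]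

lemma aeval_commEntry (M Y : M4 K) (i j : Fin 4) :
    aeval (pt M Y) (commEntry 4 K i j) = cm M Y i j := by
  have h := map_commEntry ((aeval (pt M Y) : PolyXY 4 K →ₐ[K] K) : PolyXY 4 K →+* K) i j
  rw [map_matX_pt, map_matY_pt] at h
  exact h

lemma mem_zeroLocus_I (M Y : M4 K) :
    pt M Y ∈ zeroLocus K (idealI 4 K) ↔ ∀ i j, i ≠ j → cm M Y i j = 0 := by
  constructor
  · intro h i j hij
    have := h (commEntry 4 K i j) (Ideal.subset_span ⟨i, j, hij, rfl⟩)
    rwa [aeval_commEntry] at this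
  · intro h f hf
    have h1 : idealI 4 K ≤ RingHom.ker (aeval (pt M Y) : PolyXY 4 K →ₐ[K] K) := by
      rw [idealI, Ideal.span_le]
      rintro _ ⟨i, j, hij, rfl⟩
      rw [SetLike.mem_coe, RingHom.mem_ker, aeval_commEntry]
      exact h i j hij
    exact h1 hf

lemma mem_zeroLocus_J (M Y : M4 K) :
    pt M Y ∈ zeroLocus K (idealJ 4 K) ↔ cm M Y = 0 := by
  constructor
  · intro h
    ext i j
    have := h (commEntry 4 K i j) (Ideal.subset_span ⟨i, j, rfl⟩)
    rwa [aeval_commEntry] at this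
  · intro h f hf
    have h1 : idealJ 4 K ≤ RingHom.ker (aeval (pt M Y) : PolyXY 4 K →ₐ[K] K) := by
      rw [idealJ, Ideal.span_le]
      rintro _ ⟨i, j, rfl⟩
      rw [SetLike.mem_coe, RingHom.mem_ker, aeval_commEntry, h]
      rfl
    exact h1 hf

lemma aeval_embX (M Y : M4 K) (f : AX K) : aeval (pt M Y) (embX K f) = evX M f := by
  rw [embX, aeval_rename]
  rfl

lemma cm_add_smul (M Y Z : M4 K) (t : K) (h : Z * Y = Y * Z) : cm (M + t • Z) Y = cm M Y := by
  simp only [cm, add_mul, mul_add, smul_mul_assoc, mul_smul_comm, h]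
  abel

/-! ### the Krull bound -/

open Classical in
lemma idealI_eq : idealI 4 K = Ideal.span
    (((Finset.univ : Finset OffD).image (fun p => commEntry 4 K p.1.1 p.1.2) : Finset (PolyXY 4 K)) :
      Set (PolyXY 4 K)) := by
  rw [idealI]
  congr 1
  ext f
  simp only [Finset.coe_image, Finset.coe_univ, Set.image_univ, Set.mem_range, Set.mem_ofPred_eq]
  constructor
  · rintro ⟨i, j, hij, rfl⟩
    exact ⟨⟨(i, j), hij⟩, rfl⟩
  · rintro ⟨p, rfl⟩
    exact ⟨_, _, p.2, rfl⟩

lemma card_offD : Fintype.card OffD = 12 := by decide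

lemma height_le_twelve {P : Ideal (PolyXY 4 K)} (hP : P ∈ (idealI 4 K).minimalPrimes) :
    P.height ≤ 12 := by
  classical
  rw [idealI_eq] at hP
  refine (Ideal.height_le_card_of_mem_minimalPrimes_span_finset hP).trans ?_
  have h1 : ((Finset.univ : Finset OffD).image
      (fun p => commEntry 4 K p.1.1 p.1.2) : Finset (PolyXY 4 K)).card ≤ 12 := by
    refine Finset.card_image_le.trans ?_
    rw [Finset.card_univ, card_offD]
  exact_mod_cast h1

/-! ### cyclic vectors -/

/-- determinant of the Krylov matrix of the generic matrix -/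
noncomputable def cV (v : Fin 4 → K) : AX K := (Wm (fun i => C (v i)) (genX K)).det

lemma evX_cV {κ : Type} [Field κ] [Algebra K κ] (v : Fin 4 → K) (M : M4 κ) :
    evX M (cV v) = (Wm (fun i => algebraMap K κ (v i)) M).det := by
  have h := det_Wm_map (evX (K := K) M : MvPolynomial IX K →+* κ) (fun i => C (v i)) (genX K)
  rw [genX_map] at h
  have h2 : (fun i => (evX (K := K) M : MvPolynomial IX K →+* κ) (C (v i))) =
      fun i => algebraMap K κ (v i) := by
    funext i; exact (evX (K := K) M).commutes (v i)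
  rw [h2] at h
  exact h

lemma exists_cV_notMem [IsAlgClosed K] {P : Ideal (PolyXY 4 K)}
    (hP : P ∈ (idealI 4 K).minimalPrimes) : ∃ v : Fin 4 → K, embX K (cV v) ∉ P := by
  classical
  by_contra hcon
  push Not at hcon
  have hPp : P.IsPrime := hP.1.1
  have hfin := Ideal.finite_minimalPrimes_of_isNoetherianRing (PolyXY 4 K) (idealI 4 K)
  -- an element of the other minimal primes
  obtain ⟨h, hhP, hh⟩ : ∃ h : PolyXY 4 K, h ∉ P ∧
      ∀ Q ∈ (idealI 4 K).minimalPrimes, Q ≠ P → h ∈ Q := by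
    let s : Finset (Ideal (PolyXY 4 K)) := hfin.toFinset.erase P
    have h1 : ¬ (s.inf id ≤ P) := by
      intro hle
      rw [hPp.inf_le'] at hle
      obtain ⟨Q, hQs, hQP⟩ := hle
      simp only [s, Finset.mem_erase, Set.Finite.mem_toFinset] at hQs
      have h2 : P ≤ Q := hP.2 hQs.2.1 hQP
      exact hQs.1 (le_antisymm hQP h2)
    obtain ⟨h, hh1, hh2⟩ := Set.not_subset.mp h1
    refine ⟨h, hh2, fun Q hQ hne => ?_⟩
    have h3 : s.inf id ≤ Q := Finset.inf_le (f := id) (by
      simp only [s, Finset.mem_erase, Set.Finite.mem_toFinset]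
      exact ⟨hne, hQ⟩)
    exact h3 hh1
  apply hhP
  have hrad : (idealI 4 K).radical ≤ P := by
    rw [hPp.radical_le_iff]; exact hP.1.2
  apply hrad
  apply mt_principle (idealI 4 K)
  · intro M Y Z t hZY hM
    rw [mem_zeroLocus_I] at hM ⊢
    rw [cm_add_smul M Y Z t hZY]
    exact hM
  · intro M Y v hMY hv
    have h1 : h * embX K (cV v) ∈ (idealI 4 K).radical := by
      rw [← Ideal.sInf_minimalPrimes, Ideal.mem_sInf]
      intro Q hQ
      by_cases hQP : Q = P
      · rw [hQP]; exact Ideal.mul_mem_left _ _ (hcon v)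
      · exact Ideal.mul_mem_right _ _ (hh Q hQ hQP)
    obtain ⟨n, hn⟩ := h1
    have h2 := hMY _ hn
    rw [map_pow] at h2
    have h3 := eq_zero_of_pow_eq_zero h2
    rw [map_mul, aeval_embX, evX_cV] at h3
    rcases mul_eq_zero.mp h3 with h4 | h4
    · exact h4
    · exact absurd h4 hv

/-! ### classification -/

lemma rank_ge_four {κ : Type} [Field κ] (G : M4 κ) (h : G.det ≠ 0) : 4 ≤ G.rank := by
  have := minor_ne_zero_rank G (n := 4) id id (by simpa using h)
  exact this

lemma twenty_le {P : Ideal (PolyXY 4 K)} (hP : P ∈ (idealI 4 K).minimalPrimes)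
    (p : Ideal (AX K)) [p.IsPrime] (hp : p = P.comap (embX K)) (t m : ℕ)
    (ht : Algebra.trdeg K (Kap p) ≤ t) (hm : Module.finrank (Kap p) (NS (Mp p)) ≤ m) :
    20 ≤ t + m := by
  have h1 := PP_height p t ht
  rw [← eq_PP_of_minimal hP p hp] at h1
  have h2 := height_le_twelve hP
  have h3 : (32 : ℕ∞) ≤ ((12 + (t + m) : ℕ) : ℕ∞) := by
    refine h1.trans ?_
    push_cast
    exact add_le_add h2 (by gcongr)
  have h4 : 32 ≤ 12 + (t + m) := by exact_mod_cast h3
  omega

/-- the prime ideal generated by `D` -/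
noncomputable def pD (K : Type) [Field K] : Ideal (AX K) := Ideal.span {DX K}

lemma pD_isPrime (h2 : (2 : K) = 0) : (pD K).IsPrime :=
  (Ideal.span_singleton_prime (DX_ne_zero h2)).mpr (DX_prime h2)

lemma two_Kap (p : Ideal (AX K)) [p.IsPrime] (h2 : (2 : K) = 0) : (2 : Kap p) = 0 := by
  have : (2 : Kap p) = algebraMap K (Kap p) 2 := (map_ofNat _ 2).symm
  rw [this, h2, map_zero]

theorem classify [IsAlgClosed K] (h2 : (2 : K) = 0) {P : Ideal (PolyXY 4 K)}
    (hP : P ∈ (idealI 4 K).minimalPrimes) :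
    P.comap (embX K) = ⊥ ∨ P.comap (embX K) = pD K := by
  have hPp : P.IsPrime := hP.1.1
  obtain ⟨p, hp⟩ : ∃ p, p = P.comap (embX K) := ⟨_, rfl⟩
  have hpp : p.IsPrime := by rw [hp]; infer_instance
  rw [← hp]
  obtain ⟨v, hv⟩ := exists_cV_notMem hP
  have hv' : (Wm (fun i => algebraMap K (Kap p) (v i)) (Mp p)).det ≠ 0 := by
    rw [← evX_cV (K := K) v (Mp p)]
    intro h
    rw [evX_Mp_eq_zero, hp] at h
    exact hv h
  have hrk := finrank_NS_le (Mp p) _ hv'
  by_cases hD : DX K ∈ p
  · right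
    have hpne : p ≠ ⊥ := by
      rintro rfl
      exact DX_ne_zero h2 (by simpa using hD)
    by_cases m2 : ∀ r c : Fin 2 → Fin 4, ((Gm (Mp p)).submatrix r c).det = 0
    · exfalso
      have ht := trdeg_le_twelve (K := K) (Mp p) (isFracX_Mp p) m2
      have hr : 1 ≤ (Gm (Mp p)).rank := by
        apply minor_ne_zero_rank (Gm (Mp p)) (fun _ : Fin 1 => 0) (fun _ => 0)
        simp [Gm]
      have := twenty_le hP p hp 12 7 (by exact_mod_cast ht) (by omega)
      omega
    · push Not at m2
      obtain ⟨r2, c2, hrc2⟩ := m2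
      have hr2 := minor_ne_zero_rank (Gm (Mp p)) r2 c2 hrc2
      by_cases m3 : ∀ r c : Fin 3 → Fin 4, ((Gm (Mp p)).submatrix r c).det = 0
      · exfalso
        have ht := trdeg_le_thirteen (K := K) (two_Kap p h2) (Mp p) (isFracX_Mp p) m3
        have := twenty_le hP p hp 13 6 (by exact_mod_cast ht) (by omega)
        omega
      · push Not at m3
        obtain ⟨r3, c3, hrc3⟩ := m3
        have hr3 := minor_ne_zero_rank (Gm (Mp p)) r3 c3 hrc3
        by_contra hne
        have hle : pD K ≤ p := by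
          rw [pD, Ideal.span_singleton_le_iff_mem]; exact hD
        have hlt : pD K < p := lt_of_le_of_ne hle (fun h => hne h.symm)
        have := pD_isPrime h2
        have hDne : pD K ≠ ⊥ := by
          rw [pD, Ne, Ideal.span_singleton_eq_bot]; exact DX_ne_zero h2
        have ht := trdeg_kap_le_fourteen (pD K) p hDne hlt
        have := twenty_le hP p hp 14 5 ht (by omega)
        omega
  · left
    by_contra hne
    have h4 : (Gm (Mp p)).det ≠ 0 := by
      rw [← evX_DX (K := K), Ne, evX_Mp_eq_zero]; exact hD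
    have hr4 := rank_ge_four _ h4
    have ht := trdeg_kap_le_fifteen p hne
    have := twenty_le hP p hp 15 4 ht (by omega)
    omega

end Pool.Agent.Helper51.NC
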