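import Mathlib
import Pool.Agent.Helper51.NC.Classify

/-!
The two minimal primes of `I` and the linking elements.
-/

namespace Pool.Agent.Helper51.NC

open MvPolynomial Matrix

variable {K : Type} [Field K]

lemma idealI_le_J : idealI 4 K ≤ idealJ 4 K := by
  rw [idealI, idealJ]
  apply Ideal.span_mono
  rintro _ ⟨i, j, _, rfl⟩
  exact ⟨i, j, rfl⟩

lemma embX_DX : embX K (DX K) = (Gm (matX 4 K)).det := by
  have h := det_Gm_map ((embX K : AX K →ₐ[K] PolyXY 4 K) : AX K →+* PolyXY 4 K) (genX K)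
  have h1 : (genX K).map ((embX K : AX K →ₐ[K] PolyXY 4 K) : AX K →+* PolyXY 4 K) = matX 4 K := by
    ext i j; simp [genX, matX, embX]
  rw [h1] at h
  exact h

/-- `D · u_kk ∈ I` -/
lemma embX_DX_mul_mem (k : Fin 4) : embX K (DX K) * commEntry 4 K k k ∈ idealI 4 K := by
  rw [embX_DX]
  exact det_mul_diag_mem (matX 4 K) (matY 4 K) (idealI 4 K)
    (fun i j hij => Ideal.subset_span ⟨i, j, hij, rfl⟩) k

lemma idealJ_le {P : Ideal (PolyXY 4 K)} (hI : idealI 4 K ≤ P)
    (hd : ∀ k, commEntry 4 K k k ∈ P) : idealJ 4 K ≤ P := by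
  rw [idealJ, Ideal.span_le]
  rintro _ ⟨i, j, rfl⟩
  by_cases hij : i = j
  · subst hij; exact hd i
  · exact hI (Ideal.subset_span ⟨i, j, hij, rfl⟩)

section generic

instance bot_prime_AX : (⊥ : Ideal (AX K)).IsPrime := Ideal.isPrime_bot

lemma commEntry_mem_PPbot (h2 : (2 : K) = 0) (k : Fin 4) :
    commEntry 4 K k k ∈ PP (⊥ : Ideal (AX K)) := by
  rcases (PP_isPrime (⊥ : Ideal (AX K))).mem_or_mem (idealI_le_PP _ (embX_DX_mul_mem k)) with h | h
  · exfalso
    rw [embX_mem_PP] at h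
    exact DX_ne_zero h2 (by simpa using h)
  · exact h

/-- the polynomial parametrization of commuting pairs -/
noncomputable def PhiK (K : Type) [Field K] : PolyXY 4 K →ₐ[K] MvPolynomial (Fin 4) (AX K) :=
  aeval (Sum.elim (fun p => C (X p)) (fun p => ∑ k : Fin 4, X k * C ((genX K ^ (k : ℕ)) p.1 p.2)))

lemma PhiK_embX (f : AX K) : PhiK K (embX K f) = C f := by
  have h : (PhiK K).comp (embX K) = (Algebra.ofId (AX K) (MvPolynomial (Fin 4) (AX K))).restrictScalars K := by
    apply algHom_ext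
    intro p
    simp [PhiK, embX, Algebra.ofId_apply, MvPolynomial.algebraMap_eq]
  have := congrArg (fun φ : AX K →ₐ[K] MvPolynomial (Fin 4) (AX K) => φ f) h
  exact this

lemma PhiK_commEntry (i j : Fin 4) : PhiK K (commEntry 4 K i j) = 0 := by
  have h := map_commEntry ((PhiK K : _ →ₐ[K] _) : PolyXY 4 K →+* MvPolynomial (Fin 4) (AX K)) i j
  let G : M4 (MvPolynomial (Fin 4) (AX K)) := (genX K).map C
  have hX : (matX 4 K).map ((PhiK K : _ →ₐ[K] _) : PolyXY 4 K →+* MvPolynomial (Fin 4) (AX K)) = G := by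
    ext1 a b
    simp [matX, PhiK, G, genX]
  have hY : (matY 4 K).map ((PhiK K : _ →ₐ[K] _) : PolyXY 4 K →+* MvPolynomial (Fin 4) (AX K)) =
      ∑ k : Fin 4, (X k : MvPolynomial (Fin 4) (AX K)) • G ^ (k : ℕ) := by
    ext1 a b
    rw [Matrix.sum_apply]
    simp only [matY, PhiK, Matrix.map_apply, Matrix.of_apply, RingHom.coe_coe, aeval_X, Sum.elim_inr,
      Matrix.smul_apply, smul_eq_mul]
    refine Finset.sum_congr rfl fun k _ => ?_
    have := congrFun (congrFun (Matrix.map_pow (genX K) (C : AX K →+* MvPolynomial (Fin 4) (AX K)) (k : ℕ)) a) b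
    rw [Matrix.map_apply] at this
    rw [this]
  rw [hX, hY] at h
  have h3 : cm G (∑ k : Fin 4, (X k : MvPolynomial (Fin 4) (AX K)) • G ^ (k : ℕ)) = 0 := by
    rw [cm, Finset.mul_sum, Finset.sum_mul, ← Finset.sum_sub_distrib]
    refine Finset.sum_eq_zero fun k _ => ?_
    rw [mul_smul_comm, smul_mul_assoc, ← pow_succ, ← pow_succ', sub_self]
  rw [h3] at h
  exact h

lemma PhiK_eq_zero {f : PolyXY 4 K} (hf : f ∈ PP (⊥ : Ideal (AX K))) : PhiK K f = 0 := by
  obtain ⟨s, hs, h⟩ := PP_spec _ hf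
  rw [Ideal.map_bot, sup_bot_eq] at h
  have h1 : idealI 4 K ≤ RingHom.ker (PhiK K) := by
    rw [idealI, Ideal.span_le]
    rintro _ ⟨i, j, _, rfl⟩
    exact PhiK_commEntry i j
  have h2 := h1 h
  rw [RingHom.mem_ker, map_mul, PhiK_embX] at h2
  rcases mul_eq_zero.mp h2 with h3 | h3
  · exfalso
    apply hs
    rw [Ideal.mem_bot]
    exact C_injective _ _ (by rw [h3, C_0])
  · exact h3

lemma aeval_of_PhiK (M : M4 K) (c : Fin 4 → K) (f : PolyXY 4 K) :
    aeval (pt M (∑ k : Fin 4, c k • M ^ (k : ℕ))) f =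
      eval₂Hom ((evX M : AX K →ₐ[K] K) : AX K →+* K) c (PhiK K f) := by
  have h : ((aeval (pt M (∑ k : Fin 4, c k • M ^ (k : ℕ))) : PolyXY 4 K →ₐ[K] K) : PolyXY 4 K →+* K) =
      (eval₂Hom ((evX M : AX K →ₐ[K] K) : AX K →+* K) c).comp
        ((PhiK K : _ →ₐ[K] _) : PolyXY 4 K →+* MvPolynomial (Fin 4) (AX K)) := by
    apply MvPolynomial.ringHom_ext
    · intro a
      have e1 : ((PhiK K : _ →ₐ[K] _) : PolyXY 4 K →+* MvPolynomial (Fin 4) (AX K)) (C a) = C (C a) :=
        (PhiK K).commutes a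
      rw [RingHom.comp_apply, e1]
      simp [evX]
    · rintro (p | p)
      · simp [PhiK, pt, evX]
      · simp only [RingHom.coe_coe, aeval_X, pt, Sum.elim_inr, RingHom.comp_apply, PhiK, map_sum, map_mul,
          coe_eval₂Hom, eval₂_X, eval₂_C, Matrix.sum_apply, Matrix.smul_apply, smul_eq_mul]
        refine Finset.sum_congr rfl fun k _ => ?_
        congr 1
        have h3 := congrFun (congrFun (Matrix.map_pow (genX K)
          ((evX M : AX K →ₐ[K] K) : AX K →+* K) (k : ℕ)) p.1) p.2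
        rw [genX_map] at h3
        exact h3.symm
  exact congrArg (fun φ : PolyXY 4 K →+* K => φ f) h

theorem idealP_eq [IsAlgClosed K] (h2 : (2 : K) = 0) : idealP 4 K = PP (⊥ : Ideal (AX K)) := by
  apply le_antisymm
  · rw [idealP, (PP_isPrime (⊥ : Ideal (AX K))).radical_le_iff]
    exact idealJ_le (idealI_le_PP _) (commEntry_mem_PPbot h2)
  · intro f hf
    rw [idealP]
    apply mt_principle (idealJ 4 K)
    · intro M Y Z t hZY hM
      rw [mem_zeroLocus_J] at hM ⊢
      rw [cm_add_smul M Y Z t hZY, hM]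
    · intro M Y v hMY hv
      rw [mem_zeroLocus_J] at hMY
      obtain ⟨c, hc⟩ := eq_poly_of_commute M Y v hv hMY
      rw [hc, aeval_of_PhiK, PhiK_eq_zero hf, map_zero]

end generic

/-! ### the second component -/

/-- the nilpotent shift -/
def shiftM (K : Type) [Field K] : M4 K := !![0, 0, 0, 0; 1, 0, 0, 0; 0, 1, 0, 0; 0, 0, 1, 0]

lemma det_Gm_shiftM : (Gm (shiftM K)).det = 0 := by
  apply Matrix.det_eq_zero_of_row_eq_zero (1 : Fin 4)
  intro j
  fin_cases j <;> simp [Gm, shiftM]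

lemma det_Wm_shiftM : (Wm (fun i => if i = 0 then 1 else 0) (shiftM K)).det = 1 := by
  have h : Wm (fun i => if i = 0 then 1 else 0) (shiftM K) = 1 := by
    ext i j
    fin_cases i <;> fin_cases j <;>
      simp [Wm, shiftM, pow_succ, Matrix.mulVec, dotProduct, Matrix.mul_apply, Fin.sum_univ_four]
  rw [h, Matrix.det_one]

lemma cV_e0_notMem : cV (fun i => if i = 0 then (1 : K) else 0) ∉ pD K := by
  intro h
  rw [pD, Ideal.mem_span_singleton'] at h
  obtain ⟨a, ha⟩ := h
  have h1 := congrArg (fun f => evX (K := K) (shiftM K) f) ha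
  simp only [map_mul] at h1
  rw [evX_DX, det_Gm_shiftM, mul_zero, evX_cV] at h1
  have h3 : (fun i : Fin 4 => algebraMap K K (if i = 0 then (1 : K) else 0)) =
      fun i => if i = 0 then 1 else 0 := by
    funext i; simp
  rw [h3, det_Wm_shiftM] at h1
  exact zero_ne_one h1

section second

variable [hD : (pD K).IsPrime]

lemma exists_commEntry_notMem : ∃ k, commEntry 4 K k k ∉ PP (pD K) := by
  have hv : (Wm (fun i => algebraMap K (Kap (pD K)) (if i = 0 then 1 else 0)) (Mp (pD K))).det ≠ 0 := by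
    rw [← evX_cV (K := K) (fun i => if i = 0 then 1 else 0) (Mp (pD K))]
    intro h
    rw [evX_Mp_eq_zero] at h
    exact cV_e0_notMem h
  have hdet : (Gm (Mp (pD K))).det = 0 := by
    rw [← evX_DX (K := K), evX_Mp_eq_zero, pD]
    exact Ideal.mem_span_singleton_self _
  obtain ⟨Y, hY, k, hk⟩ := exists_NS_ne _ hv hdet
  refine ⟨k, fun hcon => hk ?_⟩
  rw [PP, RingHom.mem_ker, Theta_eq, evXY_commEntry, subY_lin] at hcon
  have h1 : ∀ l, cm (Mp (pD K)) (bp (pD K) l).1 k k = 0 := by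
    intro l
    have h2 := congrArg (coeff (Finsupp.single l 1)) hcon
    rw [coeff_sum, coeff_zero, Finset.sum_eq_single l] at h2
    · rw [mul_comm, coeff_C_mul, coeff_X_same, mul_one] at h2
      exact h2
    · intro l' _ hl'
      rw [mul_comm, coeff_C_mul, coeff_X, if_neg (by
        intro h
        exact hl' (Finsupp.single_left_injective one_ne_zero h)), mul_zero]
    · intro h; exact absurd (Finset.mem_univ _) h
  have h2 : (cmL (Mp (pD K)) k k) ∘ₗ (NS (Mp (pD K))).subtype = 0 := by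
    apply (bp (pD K)).ext
    intro l
    exact h1 l
  exact LinearMap.congr_fun h2 ⟨Y, hY⟩

lemma DX_mem_PP : embX K (DX K) ∈ PP (pD K) := by
  rw [embX_mem_PP, pD]; exact Ideal.mem_span_singleton_self _

lemma PP_pD_not_le (h2 : (2 : K) = 0) : ¬ PP (pD K) ≤ PP (⊥ : Ideal (AX K)) := by
  intro h
  have := h DX_mem_PP
  rw [embX_mem_PP] at this
  exact DX_ne_zero h2 (by simpa using this)

lemma PP_bot_not_le (h2 : (2 : K) = 0) : ¬ PP (⊥ : Ideal (AX K)) ≤ PP (pD K) := by
  intro h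
  obtain ⟨k, hk⟩ := exists_commEntry_notMem (K := K)
  exact hk (h (commEntry_mem_PPbot h2 k))

lemma minimalPrimes_subset [IsAlgClosed K] (h2 : (2 : K) = 0) {P : Ideal (PolyXY 4 K)}
    (hP : P ∈ (idealI 4 K).minimalPrimes) : P = PP (⊥ : Ideal (AX K)) ∨ P = PP (pD K) := by
  rcases classify h2 hP with h | h
  · left; exact eq_PP_of_minimal hP _ h.symm
  · right; exact eq_PP_of_minimal hP _ h.symm

theorem minimalPrimes_eq [IsAlgClosed K] (h2 : (2 : K) = 0) :
    (idealI 4 K).minimalPrimes = {PP (⊥ : Ideal (AX K)), PP (pD K)} := by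
  have m1 : PP (⊥ : Ideal (AX K)) ∈ (idealI 4 K).minimalPrimes := by
    obtain ⟨P, hP, hle⟩ := Ideal.exists_minimalPrimes_le (idealI_le_PP (⊥ : Ideal (AX K)))
    rcases minimalPrimes_subset h2 hP with h | h
    · rwa [h] at hP
    · exact absurd (h ▸ hle) (PP_pD_not_le h2)
  have m2 : PP (pD K) ∈ (idealI 4 K).minimalPrimes := by
    obtain ⟨P, hP, hle⟩ := Ideal.exists_minimalPrimes_le (idealI_le_PP (pD K))
    rcases minimalPrimes_subset h2 hP with h | h
    · exact absurd (h ▸ hle) (PP_bot_not_le h2)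
    · rwa [h] at hP
  ext P
  simp only [Set.mem_insert_iff, Set.mem_singleton_iff]
  constructor
  · exact minimalPrimes_subset h2
  · rintro (rfl | rfl)
    · exact m1
    · exact m2

end second

end Pool.Agent.Helper51.NC
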