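import Mathlib

/-!
Determinants in characteristic two: symmetric matrices with zero diagonal have square determinant,
and products of linear forms in square-zero elements.
-/

namespace Pool.Agent.Helper51.NC

open Matrix

variable {S : Type} [CommRing S]

lemma sign_smul_two (h2 : (2 : S) = 0) (e : ℤˣ) (x : S) : e • x = x := by
  rcases Int.units_eq_one_or e with rfl | rfl
  · simp
  · rw [Units.neg_smul, one_smul]
    linear_combination (-x) * h2

lemma det_two (h2 : (2 : S) = 0) {n : Type} [Fintype n] [DecidableEq n] (B : Matrix n n S) :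
    B.det = ∑ σ : Equiv.Perm n, ∏ i, B (σ i) i := by
  rw [Matrix.det_apply]
  exact Finset.sum_congr rfl fun σ _ => sign_smul_two h2 _ _

lemma sum_sq_two (h2 : (2 : S) = 0) {ι : Type} (s : Finset ι) (f : ι → S) :
    ∑ i ∈ s, f i ^ 2 = (∑ i ∈ s, f i) ^ 2 := by
  classical
  induction s using Finset.induction_on with
  | empty => simp
  | insert a s ha ih =>
    rw [Finset.sum_insert ha, Finset.sum_insert ha, ih]
    linear_combination (-(f a * ∑ i ∈ s, f i)) * h2

theorem det_eq_sq (h2 : (2 : S) = 0) {n : Type} [Fintype n] [DecidableEq n] (r : n → ℕ)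
    (hr : Function.Injective r) (B : Matrix n n S)
    (hs : ∀ i j, B i j = B j i) (hd : ∀ i, B i i = 0) : ∃ g, B.det = g ^ 2 := by
  classical
  rw [det_two h2]
  let F : Equiv.Perm n → S := fun σ => ∏ i, B (σ i) i
  have hinv : ∀ σ, F σ⁻¹ = F σ := by
    intro σ
    simp only [F]
    rw [← Equiv.prod_comp σ]
    refine Finset.prod_congr rfl fun i _ => ?_
    rw [Equiv.Perm.inv_eq_iff_eq.mpr rfl, hs]
  have h1 : ∑ σ, F σ = ∑ σ ∈ Finset.univ.filter (fun σ : Equiv.Perm n => σ⁻¹ = σ), F σ := by
    rw [← Finset.sum_filter_add_sum_filter_not Finset.univ (fun σ : Equiv.Perm n => σ⁻¹ = σ) F]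
    have h3 : ∑ σ ∈ Finset.univ.filter (fun σ : Equiv.Perm n => ¬ σ⁻¹ = σ), F σ = 0 := by
      refine Finset.sum_involution (fun σ _ => σ⁻¹) ?_ ?_ ?_ ?_
      · intro σ _
        rw [hinv]
        linear_combination (F σ) * h2
      · intro σ hσ _
        exact (Finset.mem_filter.mp hσ).2
      · intro σ hσ
        rw [Finset.mem_filter] at hσ ⊢
        refine ⟨Finset.mem_univ _, ?_⟩
        rw [inv_inv]
        exact fun h => hσ.2 h.symm
      · intro σ _
        exact inv_inv σ
    rw [h3, add_zero]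
  let G : Equiv.Perm n → S := fun σ => if ∃ i, σ i = i then 0 else
    ∏ i ∈ Finset.univ.filter (fun i => r i < r (σ i)), B (σ i) i
  have hG : ∀ σ ∈ Finset.univ.filter (fun σ : Equiv.Perm n => σ⁻¹ = σ), F σ = G σ ^ 2 := by
    intro σ hσ
    have hσ' : σ⁻¹ = σ := (Finset.mem_filter.mp hσ).2
    have hσσ : ∀ i, σ (σ i) = i := by
      intro i
      have : σ⁻¹ (σ i) = i := Equiv.Perm.inv_eq_iff_eq.mpr rfl
      rwa [hσ'] at this
    by_cases hfix : ∃ i, σ i = i
    · obtain ⟨i, hi⟩ := hfix
      have h4 : G σ = 0 := if_pos ⟨i, hi⟩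
      rw [h4]
      have : F σ = 0 := Finset.prod_eq_zero (Finset.mem_univ i) (by rw [hi]; exact hd i)
      rw [this]; ring
    · have h4 : G σ = ∏ i ∈ Finset.univ.filter (fun i => r i < r (σ i)), B (σ i) i := if_neg hfix
      rw [h4]
      simp only [F]
      rw [← Finset.prod_filter_mul_prod_filter_not Finset.univ (fun i => r i < r (σ i))]
      rw [sq]
      congr 1
      refine Finset.prod_bij (fun i _ => σ i) ?_ ?_ ?_ ?_
      · intro i hi
        rw [Finset.mem_filter] at hi ⊢
        refine ⟨Finset.mem_univ _, ?_⟩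
        rw [hσσ]
        exact lt_of_le_of_ne (not_lt.mp hi.2) (fun h => hfix ⟨i, hr h⟩)
      · intro i _ j _ h
        exact σ.injective h
      · intro j hj
        rw [Finset.mem_filter] at hj
        refine ⟨σ j, ?_, hσσ j⟩
        rw [Finset.mem_filter]
        refine ⟨Finset.mem_univ _, ?_⟩
        rw [hσσ]
        exact not_lt.mpr hj.2.le
      · intro i _
        rw [hσσ, hs]
  refine ⟨∑ σ ∈ Finset.univ.filter (fun σ : Equiv.Perm n => σ⁻¹ = σ), G σ, ?_⟩
  change ∑ σ, F σ = _
  rw [h1, ← sum_sq_two h2]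
  exact Finset.sum_congr rfl hG

/-- a product of linear forms in square-zero elements -/
theorem prod_linear_forms (h2 : (2 : S) = 0) {n : Type} [Fintype n] [DecidableEq n]
    (M : Matrix n n S) (w : n → S) (hw : ∀ i, w i ^ 2 = 0) :
    ∏ i, (∑ j, M i j * w j) = M.det * ∏ j, w j := by
  rw [← Matrix.det_transpose, det_two h2, Finset.sum_mul, Finset.prod_univ_sum, Fintype.piFinset_univ]
  have h1 : ∑ f : n → n, ∏ i, M i (f i) * w (f i) =
      ∑ f ∈ Finset.univ.filter (fun f : n → n => Function.Bijective f), ∏ i, M i (f i) * w (f i) := by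
    symm
    apply Finset.sum_subset (Finset.filter_subset _ _)
    intro f _ hf
    rw [Finset.mem_filter, not_and] at hf
    have hf' : ¬ Function.Injective f := fun h => hf (Finset.mem_univ _) (Finite.injective_iff_bijective.mp h)
    rw [Function.Injective] at hf'
    push Not at hf'
    obtain ⟨a, b, hab, hne⟩ := hf'
    rw [Finset.prod_mul_distrib]
    have : ∏ i, w (f i) = 0 := by
      rw [← Finset.mul_prod_erase Finset.univ _ (Finset.mem_univ a),
        ← Finset.mul_prod_erase (Finset.univ.erase a) _ (Finset.mem_erase.mpr ⟨hne.symm, Finset.mem_univ b⟩),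
        ← mul_assoc, hab, ← sq, hw, zero_mul]
    rw [this, mul_zero]
  rw [h1]
  symm
  refine Finset.sum_bij (fun (σ : Equiv.Perm n) _ => (σ : n → n)) ?_ ?_ ?_ ?_
  · intro σ _
    rw [Finset.mem_filter]
    exact ⟨Finset.mem_univ _, σ.bijective⟩
  · intro σ _ τ _ h
    exact Equiv.coe_fn_injective h
  · intro f hf
    rw [Finset.mem_filter] at hf
    exact ⟨Equiv.ofBijective f hf.2, Finset.mem_univ _, rfl⟩
  · intro σ _
    rw [Finset.prod_mul_distrib, Equiv.prod_comp σ w]
    rfl

end Pool.Agent.Helper51.NC
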