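import Mathlib
import Pool.Agent.Helper51.NC.MinPrimes
import Pool.Agent.Helper51.NC.Pfaff

/-!
The matrix of the commutator map and its maximal minors.
-/

namespace Pool.Agent.Helper51.NC

open MvPolynomial Matrix

/-- positions of a `4 × 4` matrix, sorted into off-diagonal and diagonal ones -/
abbrev Pos : Type := OffD ⊕ Fin 4

def posOf : Pos → IX := Sum.elim Subtype.val (fun k => (k, k))

lemma posOf_bij : Function.Bijective posOf := by
  constructor
  · rintro (⟨⟨a, b⟩, h⟩ | a) (⟨⟨c, d⟩, h'⟩ | c) hh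
    · simp only [posOf, Sum.elim_inl] at hh
      congr 1
      exact Subtype.ext hh
    · simp only [posOf, Sum.elim_inl, Sum.elim_inr, Prod.mk.injEq] at hh
      exact absurd (hh.1.trans hh.2.symm) h
    · simp only [posOf, Sum.elim_inl, Sum.elim_inr, Prod.mk.injEq] at hh
      exact absurd (hh.1.symm.trans hh.2) h'
    · simp only [posOf, Sum.elim_inr, Prod.mk.injEq] at hh
      rw [hh.1]
  · rintro ⟨a, b⟩
    by_cases h : a = b
    · subst h; exact ⟨Sum.inr a, rfl⟩
    · exact ⟨Sum.inl ⟨(a, b), h⟩, rfl⟩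

noncomputable def posEquiv : Pos ≃ IX := Equiv.ofBijective posOf posOf_bij

lemma sum_IX {S : Type} [CommRing S] (f : IX → S) : ∑ q, f q = ∑ p : OffD, f p.1 + ∑ k : Fin 4, f (k, k) := by
  rw [← Equiv.sum_comp posEquiv f, Fintype.sum_sum_type]
  rfl

section defs

variable {S : Type} [CommRing S] (X : M4 S)

/-- coefficient of `y_q` in the entry `p` of the commutator -/
def adc (p q : IX) : S := X p.1 q.1 * (if q.2 = p.2 then 1 else 0) - (if p.1 = q.1 then 1 else 0) * X q.2 p.2

lemma cm_eq_sum (Y : M4 S) (i j : Fin 4) : cm X Y i j = ∑ q : IX, adc X (i, j) q * Y q.1 q.2 := by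
  simp only [cm, Matrix.sub_apply, Matrix.mul_apply, adc, sub_mul, Finset.sum_sub_distrib]
  congr 1
  · rw [Fintype.sum_prod_type]
    refine Finset.sum_congr rfl fun k _ => ?_
    symm
    rw [Finset.sum_eq_single j]
    · simp
    · intro l _ hl; simp [hl]
    · intro h; exact absurd (Finset.mem_univ _) h
  · symm
    rw [Fintype.sum_prod_type, Finset.sum_eq_single i]
    · refine Finset.sum_congr rfl fun l _ => ?_
      simp [mul_comm]
    · intro k _ hk
      refine Finset.sum_eq_zero fun l _ => ?_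
      simp [hk.symm]
    · intro h; exact absurd (Finset.mem_univ _) h

def Ao : Matrix OffD OffD S := Matrix.of fun p q => adc X p.1 q.1

def Ad : Matrix OffD (Fin 4) S := Matrix.of fun p k => adc X p.1 (k, k)

def Co (C : Fin 4 → IX) : Matrix (Fin 4) OffD S := Matrix.of fun k q => if C k = q.1 then 1 else 0

def Cd (C : Fin 4 → IX) : Matrix (Fin 4) (Fin 4) S := Matrix.of fun k l => if C k = (l, l) then 1 else 0

/-- the 16 × 16 matrix of the linear forms `u_ij` and `y_(C k)` -/
def MC (C : Fin 4 → IX) : Matrix Pos Pos S := Matrix.fromBlocks (Ao X) (Ad X) (Co C) (Cd C)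

/-- the 4 × 4 minor of the powers -/
def PC (C : Fin 4 → IX) : M4 S := Matrix.of fun k a => (X ^ (a : ℕ)) (C k).1 (C k).2

theorem det_MC_mul (C : Fin 4 → IX) : (MC X C).det * (Gm X).det = (Ao X).det * (PC X C).det := by
  let Xo : Matrix OffD (Fin 4) S := Matrix.of fun q a => (X ^ (a : ℕ)) q.1.1 q.1.2
  let N : Matrix Pos Pos S := Matrix.fromBlocks 1 Xo 0 (Gm X)ᵀ
  have hN : N.det = (Gm X).det := by
    simp only [N]
    rw [Matrix.det_fromBlocks_zero₂₁, Matrix.det_one, one_mul, Matrix.det_transpose]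
  have h1 : Ao X * Xo + Ad X * (Gm X)ᵀ = 0 := by
    refine Matrix.ext fun p a => ?_
    rw [Matrix.add_apply, Matrix.mul_apply, Matrix.mul_apply, Matrix.zero_apply]
    have h2 := congrFun (congrFun (cm_pow X (a : ℕ)) p.1.1) p.1.2
    rw [cm_eq_sum, sum_IX] at h2
    exact h2
  have h3 : (Co C : Matrix (Fin 4) OffD S) * Xo + (Cd C : Matrix (Fin 4) (Fin 4) S) * (Gm X)ᵀ =
      PC X C := by
    refine Matrix.ext fun k a => ?_
    rw [Matrix.add_apply, Matrix.mul_apply, Matrix.mul_apply]
    have h2 := sum_IX (fun q : IX => (if C k = q then (1 : S) else 0) * (X ^ (a : ℕ)) q.1 q.2)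
    have h4 : ∑ q : IX, (if C k = q then (1 : S) else 0) * (X ^ (a : ℕ)) q.1 q.2 = (X ^ (a : ℕ)) (C k).1 (C k).2 := by
      rw [Finset.sum_eq_single (C k)]
      · simp
      · intro q _ hq; simp [hq.symm]
      · intro h; exact absurd (Finset.mem_univ _) h
    rw [h4] at h2
    exact h2.symm
  have hprod : MC X C * N = Matrix.fromBlocks (Ao X) 0 (Co C) (PC X C) := by
    simp only [MC, N]
    rw [Matrix.fromBlocks_multiply, h1, h3]
    simp
  rw [← hN, ← Matrix.det_mul, hprod, Matrix.det_fromBlocks_zero₁₂]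

def swE : OffD ≃ OffD where
  toFun p := ⟨(p.1.2, p.1.1), fun h => p.2 h.symm⟩
  invFun p := ⟨(p.1.2, p.1.1), fun h => p.2 h.symm⟩
  left_inv _ := rfl
  right_inv _ := rfl

theorem det_Ao_sq (h2 : (2 : S) = 0) : ∃ g, (Ao X).det = g ^ 2 := by
  have h1 : ((Ao X).submatrix swE id).det = (Ao X).det := by
    rw [Matrix.det_permute]
    rcases Int.units_eq_one_or (Equiv.Perm.sign swE) with h | h
    · rw [h]; simp
    · rw [h]; push_cast
      linear_combination (-(Ao X).det) * h2
  rw [← h1]
  refine det_eq_sq h2 (fun p : OffD => 4 * (p.1.1 : ℕ) + (p.1.2 : ℕ)) ?_ _ ?_ ?_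
  · rintro ⟨⟨a, b⟩, h⟩ ⟨⟨c, d⟩, h'⟩ hh
    simp only at hh
    have h3 : a = c := by apply Fin.ext; omega
    have h4 : b = d := by apply Fin.ext; omega
    subst h3 h4; rfl
  · rintro ⟨⟨a, b⟩, h⟩ ⟨⟨c, d⟩, h'⟩
    simp only [Matrix.submatrix_apply, Ao, Matrix.of_apply, adc, swE, Equiv.coe_fn_mk, id]
    have e1 : (if b = c then (1 : S) else 0) = if c = b then 1 else 0 := by simp [eq_comm]
    have e2 : (if d = a then (1 : S) else 0) = if a = d then 1 else 0 := by simp [eq_comm]
    by_cases h5 : b = c <;> by_cases h6 : a = d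
    · subst h5 h6
      simp
      linear_combination (X b b - X a a) * h2
    · subst h5
      have h7 : ¬ d = a := fun h => h6 h.symm
      simp [h7]
      linear_combination (- X d a) * h2
    · subst h6
      simp [h5]
      linear_combination (X b c) * h2
    · have h8 : ¬ d = a := fun h => h6 h.symm
      simp [h5, h8]
  · rintro ⟨⟨a, b⟩, h⟩
    have h' : a ≠ b := h
    simp [Ao, adc, swE, h'.symm]

end defs

section kernel

variable {κ : Type} [Field κ]

/-- a nonzero left null vector of the off-diagonal commutator matrix -/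
lemma det_Ao_eq_zero (M : M4 κ) (v : Fin 4 → κ) (hv : (Wm v M).det ≠ 0) (hD : (Gm M).det = 0) :
    (Ao M).det = 0 := by
  obtain ⟨g, hg0, hg⟩ := Matrix.exists_vecMul_eq_zero_iff.mpr hD
  let N : M4 κ := ∑ a : Fin 4, g a • M ^ (a : ℕ)
  have hNd : ∀ i, N i i = 0 := by
    intro i
    have := congrFun hg i
    simp only [N, Matrix.sum_apply, Matrix.smul_apply, smul_eq_mul]
    simpa [Matrix.vecMul, dotProduct, Gm] using this
  have hN0 : N ≠ 0 := by
    intro h0
    have h1 : Wm v M *ᵥ g = 0 := by
      ext i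
      have h2 : (N *ᵥ v) i = 0 := by rw [h0]; simp
      simp only [N] at h2
      rw [Matrix.sum_mulVec, Finset.sum_apply] at h2
      simp only [Matrix.smul_mulVec, Pi.smul_apply, smul_eq_mul] at h2
      simp only [Matrix.mulVec, dotProduct, Wm, Matrix.of_apply, Pi.zero_apply]
      rw [← h2]
      refine Finset.sum_congr rfl fun a _ => ?_
      rw [mul_comm]
      rfl
    exact hg0 (Matrix.eq_zero_of_mulVec_eq_zero hv h1)
  have hcomm : N * M = M * N := by
    simp only [N]
    rw [Finset.sum_mul, Finset.mul_sum]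
    refine Finset.sum_congr rfl fun a _ => ?_
    rw [smul_mul_assoc, mul_smul_comm, ← pow_succ, ← pow_succ']
  apply Matrix.exists_vecMul_eq_zero_iff.mp
  refine ⟨fun p => N p.1.2 p.1.1, ?_, ?_⟩
  · intro h
    apply hN0
    ext i j
    by_cases hij : i = j
    · subst hij; exact hNd i
    · exact congrFun h ⟨(j, i), fun h => hij h.symm⟩
  · ext q
    obtain ⟨⟨k, l⟩, hq⟩ := q
    have h1 : ∑ p : IX, N p.2 p.1 * adc M p (k, l) = 0 := by
      simp only [adc, mul_sub, Finset.sum_sub_distrib]
      rw [Fintype.sum_prod_type, Fintype.sum_prod_type]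
      have e1 : ∑ i, ∑ j, N j i * (M i k * if l = j then 1 else 0) = (N * M) l k := by
        rw [Matrix.mul_apply]
        refine Finset.sum_congr rfl fun i _ => ?_
        rw [Finset.sum_eq_single l]
        · simp
        · intro j _ hj; simp [hj.symm]
        · intro h; exact absurd (Finset.mem_univ _) h
      have e2 : ∑ i, ∑ j, N j i * ((if i = k then 1 else 0) * M l j) = (M * N) l k := by
        rw [Matrix.mul_apply, Finset.sum_eq_single k]
        · refine Finset.sum_congr rfl fun j _ => ?_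
          simp [mul_comm]
        · intro i _ hi
          refine Finset.sum_eq_zero fun j _ => ?_
          simp [hi]
        · intro h; exact absurd (Finset.mem_univ _) h
      rw [e1, e2, hcomm, sub_self]
    rw [sum_IX] at h1
    have h3 : ∑ k' : Fin 4, N k' k' * adc M (k', k') (k, l) = 0 :=
      Finset.sum_eq_zero fun i _ => by rw [hNd, zero_mul]
    rw [h3, add_zero] at h1
    simpa [Matrix.vecMul, dotProduct, Ao] using h1

end kernel

section maps

lemma adc_map {S T : Type} [CommRing S] [CommRing T] (f : S →+* T) (X : M4 S) (p q : IX) :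
    f (adc X p q) = adc (X.map f) p q := by
  simp only [adc, map_sub, map_mul, Matrix.map_apply, apply_ite f, map_one, map_zero]

lemma Ao_map {S T : Type} [CommRing S] [CommRing T] (f : S →+* T) (X : M4 S) :
    (Ao X).map f = Ao (X.map f) := by
  refine Matrix.ext fun p q => ?_
  exact adc_map f X _ _

lemma det_Ao_map {S T : Type} [CommRing S] [CommRing T] (f : S →+* T) (X : M4 S) :
    f (Ao X).det = (Ao (X.map f)).det := by
  rw [← Ao_map, RingHom.map_det]; rfl

lemma det_MC_map {S T : Type} [CommRing S] [CommRing T] (f : S →+* T) (X : M4 S) (C : Fin 4 → IX) :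
    f (MC X C).det = (MC (X.map f) C).det := by
  rw [RingHom.map_det]
  congr 1
  refine Matrix.ext fun p q => ?_
  rcases p with p | p <;> rcases q with q | q
  · exact adc_map f X _ _
  · exact adc_map f X _ _
  · simp [MC, Co]
  · simp [MC, Cd]

lemma det_PC_map {S T : Type} [CommRing S] [CommRing T] (f : S →+* T) (X : M4 S) (C : Fin 4 → IX) :
    f (PC X C).det = (PC (X.map f) C).det := by
  rw [RingHom.map_det]
  congr 1
  refine Matrix.ext fun k a => ?_
  simp only [PC, RingHom.mapMatrix_apply, Matrix.map_apply, Matrix.of_apply]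
  rw [← Matrix.map_pow]
  rfl

end maps

theorem exists_factor {K : Type} [Field K] (h2 : (2 : K) = 0) (C : Fin 4 → IX) :
    ∃ h : AX K, (MC (genX K) C).det = DX K * h ^ 2 * (PC (genX K) C).det := by
  have hpD : (pD K).IsPrime := pD_isPrime h2
  have h2' : (2 : AX K) = 0 := by
    have : (2 : AX K) = MvPolynomial.C 2 := (map_ofNat (MvPolynomial.C : K →+* AX K) 2).symm
    rw [this, h2, C_0]
  obtain ⟨g, hg⟩ := det_Ao_sq (genX K) h2'
  have h1 : (Ao (genX K)).det ∈ pD K := by
    rw [← evX_Mp_eq_zero (pD K)]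
    have h3 := det_Ao_map (evX (K := K) (Mp (pD K)) : MvPolynomial IX K →+* Kap (pD K)) (genX K)
    rw [genX_map] at h3
    have h4 : evX (K := K) (Mp (pD K)) (Ao (genX K)).det = (Ao (Mp (pD K))).det := h3
    rw [h4]
    apply det_Ao_eq_zero (Mp (pD K)) (fun i => algebraMap K (Kap (pD K)) (if i = 0 then 1 else 0))
    · rw [← evX_cV (K := K) (fun i => if i = 0 then 1 else 0) (Mp (pD K))]
      intro h
      rw [evX_Mp_eq_zero] at h
      exact cV_e0_notMem (K := K) h
    · rw [← evX_DX (K := K), evX_Mp_eq_zero, pD]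
      exact Ideal.mem_span_singleton_self _
  rw [hg, pD, Ideal.mem_span_singleton] at h1
  obtain ⟨h, rfl⟩ := (DX_prime h2).dvd_of_dvd_pow h1
  refine ⟨h, ?_⟩
  have h5 := det_MC_mul (genX K) C
  rw [hg] at h5
  apply mul_right_cancel₀ (DX_ne_zero h2)
  have h6 : (Gm (genX K)).det = DX K := rfl
  rw [h6] at h5
  rw [h5]; ring

end Pool.Agent.Helper51.NC
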