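import Mathlib

/-!
Systems of parameters in a local ring: if one is a (strongly) regular family then all are.
-/

namespace Pool.Agent.Helper51.NC

open IsLocalRing

variable {A : Type} [CommRing A] {ι : Type}

/-- every member is a nonzerodivisor modulo every set of other members -/
def RegFam (f : ι → A) : Prop :=
  ∀ (S : Set ι) (k : ι), k ∉ S → ∀ h : A, f k * h ∈ Ideal.span (f '' S) → h ∈ Ideal.span (f '' S)

lemma RegFam.pow_mul_mem {f : ι → A} (hf : RegFam f) {S : Set ι} {k : ι} (hk : k ∉ S) (N : ℕ) :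
    ∀ h : A, f k ^ N * h ∈ Ideal.span (f '' S) → h ∈ Ideal.span (f '' S) := by
  induction N with
  | zero => intro h hh; simpa using hh
  | succ N ih =>
    intro h hh
    apply ih
    apply hf S k hk
    rwa [← mul_assoc, ← pow_succ']

/-- Krull intersection modulo an ideal. -/
lemma krull_inter [IsLocalRing A] [IsNoetherianRing A] (b : Ideal A) (hb : b ≤ maximalIdeal A)
    (a : A) (ha : a ∈ maximalIdeal A) (h : A)
    (hh : ∀ m : ℕ, h ∈ b ⊔ Ideal.span {a ^ m}) : h ∈ b := by
  have hbt : b ≠ ⊤ := fun h0 => (maximalIdeal.isMaximal A).ne_top (top_le_iff.mp (h0 ▸ hb))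
  have : Nontrivial (A ⧸ b) := Ideal.Quotient.nontrivial_iff.mpr hbt
  have : IsLocalRing (A ⧸ b) :=
    IsLocalRing.of_surjective' (Ideal.Quotient.mk b) Ideal.Quotient.mk_surjective
  let I : Ideal (A ⧸ b) := Ideal.span {Ideal.Quotient.mk b a}
  have hI : I ≠ ⊤ := by
    intro h0
    rw [Ideal.span_singleton_eq_top] at h0
    obtain ⟨c, hc⟩ := Ideal.Quotient.mk_surjective (I := b) ((h0.unit⁻¹ : (A ⧸ b)ˣ) : A ⧸ b)
    have h1 : Ideal.Quotient.mk b (a * c - 1) = 0 := by
      rw [map_sub, map_mul, hc, map_one]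
      simp
    rw [Ideal.Quotient.eq_zero_iff_mem] at h1
    have h2 : (1 : A) ∈ maximalIdeal A := by
      have h3 := hb h1
      have h4 : a * c ∈ maximalIdeal A := Ideal.mul_mem_right _ _ ha
      have : (1 : A) = a * c - (a * c - 1) := by ring
      rw [this]; exact Ideal.sub_mem _ h4 h3
    exact (Ideal.ne_top_iff_one _).mp (maximalIdeal.isMaximal A).ne_top h2
  have key := Ideal.iInf_pow_eq_bot_of_isLocalRing I hI
  have h1 : Ideal.Quotient.mk b h ∈ ⨅ i, I ^ i := by
    rw [Ideal.mem_iInf]
    intro m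
    have h2 := Ideal.mem_map_of_mem (Ideal.Quotient.mk b) (hh m)
    rw [Ideal.map_sup, Ideal.map_quotient_self, bot_sup_eq, Ideal.map_span] at h2
    simp only [Set.image_singleton, map_pow] at h2
    simpa [I, Ideal.span_singleton_pow] using h2
  rw [key, Ideal.mem_bot, Ideal.Quotient.eq_zero_iff_mem] at h1
  exact h1

lemma exch_aux [IsLocalRing A] [IsNoetherianRing A] [Finite ι] (g : ι → A) (hg : RegFam g)
    (hm : ∀ i, g i ∈ maximalIdeal A) (k : ι) (z : A)
    (N : ℕ) (hN : g k ^ N ∈ Ideal.span (g '' {k}ᶜ) ⊔ Ideal.span {z}) :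
    ∀ (n : ℕ) (S : Set ι), k ∉ S → ({k}ᶜ \ S).ncard = n →
      ∀ h, z * h ∈ Ideal.span (g '' S) → h ∈ Ideal.span (g '' S) := by
  intro n
  induction n with
  | zero =>
    intro S hk hS h hh
    rw [Set.ncard_eq_zero (Set.toFinite _), Set.sdiff_eq_empty] at hS
    have hS' : S = {k}ᶜ := by
      apply Set.Subset.antisymm _ hS
      intro i hi
      simp only [Set.mem_compl_iff, Set.mem_singleton_iff]
      rintro rfl
      exact hk hi
    subst hS'
    obtain ⟨b, hb, c, hc, hbc⟩ := Submodule.mem_sup.mp hN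
    rw [Ideal.mem_span_singleton'] at hc
    obtain ⟨r, rfl⟩ := hc
    apply hg.pow_mul_mem hk N
    rw [← hbc, add_mul]
    refine Ideal.add_mem _ (Ideal.mul_mem_right _ _ hb) ?_
    have : r * z * h = r * (z * h) := by ring
    rw [this]
    exact Ideal.mul_mem_left _ _ hh
  | succ n ih =>
    intro S hk hS h hh
    have hne : ({k}ᶜ \ S).Nonempty := by
      rw [← Set.ncard_pos (Set.toFinite _)]; omega
    obtain ⟨i, hik, hiS⟩ := hne
    have hik' : i ≠ k := by simpa using hik
    have hk' : k ∉ insert i S := by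
      simp only [Set.mem_insert_iff, not_or]
      exact ⟨fun h0 => hik' h0.symm, hk⟩
    have hcard : ({k}ᶜ \ (insert i S)).ncard = n := by
      have h1 : ({k}ᶜ \ (insert i S)) = ({k}ᶜ \ S) \ {i} := by
        ext j; simp only [Set.mem_sdiff, Set.mem_insert_iff, Set.mem_singleton_iff]; tauto
      rw [h1, Set.ncard_sdiff_singleton_of_mem (Set.mem_sdiff_of_mem hik hiS), hS]
      rfl
    have IH := ih (insert i S) hk' hcard
    -- successive approximation
    have hb : Ideal.span (g '' S) ≤ maximalIdeal A := by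
      rw [Ideal.span_le]
      rintro _ ⟨j, _, rfl⟩
      exact hm j
    apply krull_inter _ hb (g i) (hm i)
    intro m
    have claim : ∀ m : ℕ, ∃ s ∈ Ideal.span (g '' S), ∃ h' : A, h = s + g i ^ m * h' ∧
        z * h' ∈ Ideal.span (g '' S) := by
      intro m
      induction m with
      | zero => exact ⟨0, Ideal.zero_mem _, h, by simp, hh⟩
      | succ m ihm =>
        obtain ⟨s, hs, h', hh', hz⟩ := ihm
        have h1 : h' ∈ Ideal.span (g '' insert i S) := by
          apply IH
          exact Ideal.span_mono (Set.image_mono (Set.subset_insert i S)) hz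
        rw [Set.image_insert_eq, Ideal.mem_span_insert] at h1
        obtain ⟨a, y, hy, rfl⟩ := h1
        refine ⟨s + g i ^ m * y, Ideal.add_mem _ hs (Ideal.mul_mem_left _ _ hy), a, ?_, ?_⟩
        · rw [hh']; ring
        · apply hg S i hiS
          have h3 : g i * (z * a) = z * (a * g i + y) - z * y := by ring
          rw [h3]
          exact Ideal.sub_mem _ hz (Ideal.mul_mem_left _ _ hy)
    obtain ⟨s, hs, h', hh', -⟩ := claim m
    rw [hh']
    refine Ideal.add_mem _ (Ideal.mem_sup_left hs) (Ideal.mem_sup_right ?_)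
    exact Ideal.mul_mem_right _ _ (Ideal.mem_span_singleton_self _)

/-- Exchange of one member. -/
lemma RegFam.exchange [IsLocalRing A] [IsNoetherianRing A] [Finite ι] {g g' : ι → A}
    (hg : RegFam g) (hm : ∀ i, g i ∈ maximalIdeal A) (k : ι) (hgg' : ∀ i, i ≠ k → g' i = g i)
    (N : ℕ) (hN : maximalIdeal A ^ N ≤ Ideal.span (Set.range g')) : RegFam g' := by
  have himg : ∀ S : Set ι, k ∉ S → g' '' S = g '' S := by
    intro S hS
    apply Set.image_congr
    intro i hi
    exact hgg' i (fun h => hS (h ▸ hi))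
  have hN' : g k ^ N ∈ Ideal.span (g '' {k}ᶜ) ⊔ Ideal.span {g' k} := by
    have h1 : Set.range g' = g '' {k}ᶜ ∪ {g' k} := by
      rw [← himg {k}ᶜ (by simp)]
      ext y
      constructor
      · rintro ⟨i, rfl⟩
        by_cases h : i = k
        · right; rw [h]; rfl
        · left; exact ⟨i, h, rfl⟩
      · rintro (⟨i, _, rfl⟩ | h)
        · exact ⟨i, rfl⟩
        · exact ⟨k, h.symm⟩
    rw [← Ideal.span_union, ← h1]
    exact hN (Ideal.pow_mem_pow (hm k) N)
  have step1 : ∀ S : Set ι, k ∉ S → ∀ h, g' k * h ∈ Ideal.span (g '' S) →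
      h ∈ Ideal.span (g '' S) := fun S hS h hh =>
    exch_aux g hg hm k (g' k) N hN' _ S hS rfl h hh
  intro S j hj h hh
  by_cases hkS : k ∈ S
  · -- k in S
    have hjk : j ≠ k := fun h => hj (h ▸ hkS)
    let S' := S \ {k}
    have hS : S = insert k S' := by
      simp only [S', Set.insert_sdiff_singleton]
      exact (Set.insert_eq_of_mem hkS).symm
    have hkS' : k ∉ S' := by simp [S']
    have hjS' : j ∉ S' := fun h => hj h.1
    have himg' : g' '' S = insert (g' k) (g '' S') := by
      rw [hS, Set.image_insert_eq, himg S' hkS']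
    rw [himg'] at hh ⊢
    rw [hgg' j hjk] at hh
    rw [Ideal.mem_span_insert] at hh
    obtain ⟨t, s, hs, hst⟩ := hh
    have h1 : t ∈ Ideal.span (g '' insert j S') := by
      apply step1
      · simp only [Set.mem_insert_iff, not_or]
        exact ⟨fun h0 => hjk h0.symm, hkS'⟩
      · have h2 : g' k * t = g j * h - s := by rw [hst]; ring
        rw [h2]
        refine Ideal.sub_mem _ (Ideal.mul_mem_right _ _ (Ideal.subset_span ⟨j, by simp, rfl⟩)) ?_
        exact Ideal.span_mono (Set.image_mono (Set.subset_insert j S')) hs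
    rw [Set.image_insert_eq, Ideal.mem_span_insert] at h1
    obtain ⟨t', s', hs', ht⟩ := h1
    have h3 : h - g' k * t' ∈ Ideal.span (g '' S') := by
      apply hg S' j hjS'
      have h4 : g j * (h - g' k * t') = s + g' k * s' := by
        have : g j * (h - g' k * t') = g j * h - g' k * (t' * g j) := by ring
        rw [this, hst, ht]; ring
      rw [h4]
      exact Ideal.add_mem _ hs (Ideal.mul_mem_left _ _ hs')
    rw [Ideal.mem_span_insert]
    exact ⟨t', h - g' k * t', h3, by ring⟩
  · rw [himg S hkS] at hh ⊢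
    by_cases hjk : j = k
    · subst hjk
      exact step1 S hkS h hh
    · rw [hgg' j hjk] at hh
      exact hg S j hj h hh

/-- system of parameters -/
def SOP [IsLocalRing A] (g : ι → A) : Prop :=
  (∀ i, g i ∈ maximalIdeal A) ∧ ∃ N : ℕ, maximalIdeal A ^ N ≤ Ideal.span (Set.range g)

lemma exists_pow_le_of_primes [IsLocalRing A] [IsNoetherianRing A] (b : Ideal A)
    (h : ∀ q : Ideal A, q.IsPrime → b ≤ q → q = maximalIdeal A) :
    ∃ N : ℕ, maximalIdeal A ^ N ≤ b := by
  have h1 : maximalIdeal A ≤ b.radical := by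
    rw [Ideal.radical_eq_sInf]
    refine le_sInf ?_
    rintro q ⟨hq, hqp⟩
    rw [h q hqp hq]
  obtain ⟨N, hN⟩ := Ideal.exists_radical_pow_le_of_fg b (IsNoetherian.noetherian _)
  exact ⟨N, (Ideal.pow_right_mono h1 N).trans hN⟩

lemma prime_eq_max_of_pow_le [IsLocalRing A] {b q : Ideal A} (hq : q.IsPrime) {N : ℕ}
    (hN : maximalIdeal A ^ N ≤ b) (hbq : b ≤ q) : q = maximalIdeal A := by
  have h1 : maximalIdeal A ≤ q := hq.le_of_pow_le (hN.trans hbq)
  exact ((maximalIdeal.isMaximal A).eq_of_le hq.ne_top h1).symm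

/-- Replacing one member of a system of parameters by an element of the maximal ideal outside
the minimal primes over the others gives a system of parameters. -/
lemma SOP.replace [IsLocalRing A] [IsNoetherianRing A] [DecidableEq ι] {g : ι → A} (hg : SOP g)
    (k : ι) (z : A) (hz : z ∈ maximalIdeal A)
    (hz' : ∀ q ∈ (Ideal.span (g '' {k}ᶜ)).minimalPrimes, z ∉ q) :
    SOP (Function.update g k z) := by
  obtain ⟨hm, N, hN⟩ := hg
  refine ⟨?_, ?_⟩
  · intro i
    by_cases h : i = k
    · subst h; simpa using hz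
    · rw [Function.update_of_ne h]; exact hm i
  · apply exists_pow_le_of_primes
    intro q hq hle
    by_contra hne
    have h1 : Ideal.span (g '' {k}ᶜ) ≤ q := by
      refine le_trans (Ideal.span_mono ?_) hle
      rintro _ ⟨i, hi, rfl⟩
      exact ⟨i, by rw [Function.update_of_ne hi]⟩
    have hzq : z ∈ q := hle (Ideal.subset_span ⟨k, by simp⟩)
    obtain ⟨p, hp, hpq⟩ := Ideal.exists_minimalPrimes_le h1
    have hpp : p.IsPrime := hp.1.1
    have hpq' : p < q := lt_of_le_of_ne hpq (fun h => hz' p hp (h ▸ hzq))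
    have hqm : q < maximalIdeal A := lt_of_le_of_ne (le_maximalIdeal hq.ne_top) hne
    have hmin : maximalIdeal A ∈ (p ⊔ Ideal.span {g k}).minimalPrimes := by
      refine ⟨⟨(maximalIdeal.isMaximal A).isPrime, ?_⟩, ?_⟩
      · refine sup_le (le_maximalIdeal hpp.ne_top) ?_
        rw [Ideal.span_singleton_le_iff_mem]; exact hm k
      · rintro r ⟨hr, hr'⟩ _
        have h2 : Ideal.span (Set.range g) ≤ r := by
          rw [Ideal.span_le]
          rintro _ ⟨i, rfl⟩
          by_cases h : i = k
          · rw [h]; exact hr' (Ideal.mem_sup_right (Ideal.mem_span_singleton_self _))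
          · exact hr' (Ideal.mem_sup_left (hp.1.2 (Ideal.subset_span ⟨i, h, rfl⟩)))
        rw [prime_eq_max_of_pow_le hr hN h2]
    have h3 := Ideal.map_height_le_one_of_mem_minimalPrimes hmin
    -- chain of length two in the quotient
    have hm' : (Ideal.map (Ideal.Quotient.mk p) (maximalIdeal A)).IsPrime :=
      Ideal.map_isPrime_of_surjective Ideal.Quotient.mk_surjective (by
        rw [Ideal.mk_ker]; exact le_maximalIdeal hpp.ne_top)
    have hq' : (Ideal.map (Ideal.Quotient.mk p) q).IsPrime :=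
      Ideal.map_isPrime_of_surjective Ideal.Quotient.mk_surjective (by
        rw [Ideal.mk_ker]; exact hpq)
    have hlt1 : Ideal.map (Ideal.Quotient.mk p) q < Ideal.map (Ideal.Quotient.mk p) (maximalIdeal A) := by
      refine lt_of_le_of_ne (Ideal.map_mono hqm.le) ?_
      intro h
      have h4 := congrArg (Ideal.comap (Ideal.Quotient.mk p)) h
      rw [Ideal.comap_map_of_surjective _ Ideal.Quotient.mk_surjective,
        Ideal.comap_map_of_surjective _ Ideal.Quotient.mk_surjective] at h4
      have h5 : Ideal.comap (Ideal.Quotient.mk p) ⊥ = p := by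
        rw [← RingHom.ker_eq_comap_bot, Ideal.mk_ker]
      rw [h5, sup_eq_left.mpr hpq, sup_eq_left.mpr (hpq.trans hqm.le)] at h4
      exact hqm.ne h4
    have hlt0 : (⊥ : Ideal (A ⧸ p)) < Ideal.map (Ideal.Quotient.mk p) q := by
      refine lt_of_le_of_ne bot_le ?_
      intro h
      have h4 := congrArg (Ideal.comap (Ideal.Quotient.mk p)) h
      rw [Ideal.comap_map_of_surjective _ Ideal.Quotient.mk_surjective] at h4
      have h5 : Ideal.comap (Ideal.Quotient.mk p) ⊥ = p := by
        rw [← RingHom.ker_eq_comap_bot, Ideal.mk_ker]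
      rw [h5, sup_eq_left.mpr hpq] at h4
      exact hpq'.ne h4
    have hb : (⊥ : Ideal (A ⧸ p)).IsPrime := Ideal.isPrime_bot
    have h6 := Ideal.height_add_one_le_of_lt_of_isPrime hlt0
    have h7 := Ideal.height_add_one_le_of_lt_of_isPrime hlt1
    have h8 : (2 : ℕ∞) ≤ 1 := by
      calc (2 : ℕ∞) = 0 + 1 + 1 := by norm_num
        _ ≤ (⊥ : Ideal (A ⧸ p)).height + 1 + 1 := by gcongr; exact bot_le
        _ ≤ _ := by gcongr
        _ ≤ _ := h7
        _ ≤ 1 := h3
    exact absurd h8 (by decide)

/-- finite prime avoidance inside the maximal ideal -/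
lemma exists_avoid [IsLocalRing A] [IsNoetherianRing A] (s : Set (Ideal A)) (hs : s.Finite)
    (hp : ∀ q ∈ s, q.IsPrime) (hne : ∀ q ∈ s, q ≠ maximalIdeal A) :
    ∃ z ∈ maximalIdeal A, ∀ q ∈ s, z ∉ q := by
  classical
  by_contra hcon
  push Not at hcon
  have hsub : ((maximalIdeal A : Ideal A) : Set A) ⊆ ⋃ i ∈ (hs.toFinset : Set (Ideal A)), (i : Set A) := by
    intro z hz
    obtain ⟨q, hq, hzq⟩ := hcon z hz
    simp only [Set.Finite.coe_toFinset, Set.mem_iUnion]
    exact ⟨q, hq, hzq⟩
  rw [Ideal.subset_union_prime (⊥ : Ideal A) (⊥ : Ideal A)] at hsub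
  · obtain ⟨q, hq, hle⟩ := hsub
    have hq' : q ∈ s := by simpa using hq
    exact hne q hq' (((maximalIdeal.isMaximal A).eq_of_le (hp q hq').ne_top hle).symm)
  · intro q hq _ _
    exact hp q (by simpa using hq)

lemma SOP.max_notMem [IsLocalRing A] [IsNoetherianRing A] [Fintype ι] [DecidableEq ι]
    (hdim : (Fintype.card ι : ℕ∞) ≤ (maximalIdeal A).height) (g : ι → A) (k : ι) :
    ∀ q ∈ (Ideal.span (g '' {k}ᶜ)).minimalPrimes, q ≠ maximalIdeal A := by
  classical
  rintro q hq rfl
  have h1 : g '' {k}ᶜ = (((Finset.univ.erase k).image g : Finset A) : Set A) := by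
    ext y; simp
  rw [h1] at hq
  have h2 := Ideal.height_le_card_of_mem_minimalPrimes_span_finset hq
  have h3 : ((Finset.univ.erase k).image g).card ≤ Fintype.card ι - 1 := by
    refine Finset.card_image_le.trans ?_
    rw [Finset.card_erase_of_mem (Finset.mem_univ k), Finset.card_univ]
  have h4 : (Fintype.card ι : ℕ∞) ≤ ((Fintype.card ι - 1 : ℕ) : ℕ∞) :=
    (hdim.trans h2).trans (by exact_mod_cast h3)
  have h5 : Fintype.card ι ≤ Fintype.card ι - 1 := by exact_mod_cast h4
  have h6 : 0 < Fintype.card ι := Fintype.card_pos_iff.mpr ⟨k⟩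
  omega

/-- If one system of parameters is a regular family, all are. -/
theorem RegFam.of_sop [IsLocalRing A] [IsNoetherianRing A] [Fintype ι] [DecidableEq ι]
    (hdim : (Fintype.card ι : ℕ∞) ≤ (maximalIdeal A).height) :
    ∀ (T : Finset ι) (g g' : ι → A), SOP g → SOP g' → (∀ i, i ∉ T → g i = g' i) →
      RegFam g → RegFam g' := by
  intro T
  induction T using Finset.induction_on with
  | empty =>
    intro g g' _ _ h hg
    have : g = g' := funext fun i => h i (by simp)
    rwa [← this]
  | insert k T hk ih =>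
    intro g g' hs hs' h hg
    obtain ⟨z, hz, hzq⟩ := exists_avoid
      ((Ideal.span (g '' {k}ᶜ)).minimalPrimes ∪ (Ideal.span (g' '' {k}ᶜ)).minimalPrimes)
      (Set.Finite.union (Ideal.finite_minimalPrimes_of_isNoetherianRing A _)
        (Ideal.finite_minimalPrimes_of_isNoetherianRing A _))
      (by rintro q (hq | hq) <;> exact hq.1.1)
      (by
        rintro q (hq | hq)
        · exact SOP.max_notMem hdim g k q hq
        · exact SOP.max_notMem hdim g' k q hq)
    have s1 := hs.replace k z hz (fun q hq => hzq q (Or.inl hq))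
    have s2 := hs'.replace k z hz (fun q hq => hzq q (Or.inr hq))
    obtain ⟨N1, hN1⟩ := s1.2
    obtain ⟨N2, hN2⟩ := hs'.2
    have r1 : RegFam (Function.update g k z) :=
      hg.exchange hs.1 k (fun i hi => Function.update_of_ne hi _ _) N1 hN1
    have r2 : RegFam (Function.update g' k z) := by
      refine ih _ _ s1 s2 ?_ r1
      intro i hi
      by_cases hik : i = k
      · subst hik; simp
      · rw [Function.update_of_ne hik, Function.update_of_ne hik]
        exact h i (by simp [hik, hi])
    exact r2.exchange s2.1 k (fun i hi => (Function.update_of_ne hi _ _).symm) N2 hN2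

end Pool.Agent.Helper51.NC
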