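import Mathlib
import Pool.Agent.Helper51.NC.Defs
import Pool.Agent.Helper51.NC.LocalReg

/-!
The local contradiction: two linked components with all three quotient rings weakly F-regular
force the complete intersection to be F-pure-like; here in characteristic two.
-/

namespace Pool.Agent.Helper51.NC

open IsLocalRing

variable {A : Type} [CommRing A]

/-- all ideals are tightly closed -/
def WeakFReg (p : ℕ) (S : Type) [CommRing S] : Prop :=
  ∀ (a : Ideal S) (z : S), InTightClosure p a z → z ∈ a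

lemma sq_mem_span {S : Type} [CommRing S] (h2 : (2 : S) = 0) {κ : Type} (f : κ → S) (x : S)
    (hx : x ∈ Ideal.span (Set.range f)) : x ^ 2 ∈ Ideal.span (Set.range fun i => f i ^ 2) := by
  refine Submodule.span_induction ?_ ?_ ?_ ?_ hx
  · rintro _ ⟨i, rfl⟩
    exact Ideal.subset_span ⟨i, rfl⟩
  · simp
  · intro a b _ _ ha hb
    have : (a + b) ^ 2 = a ^ 2 + b ^ 2 + 2 * (a * b) := by ring
    rw [this, h2, zero_mul, add_zero]
    exact Ideal.add_mem _ ha hb
  · intro a b _ hb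
    rw [smul_eq_mul, mul_pow]
    exact Ideal.mul_mem_left _ _ hb

lemma pow_two_pow_mem_span {S : Type} [CommRing S] (h2 : (2 : S) = 0) {κ : Type} (f : κ → S)
    (e : ℕ) : ∀ (x : S), x ∈ Ideal.span (Set.range f) →
      x ^ 2 ^ e ∈ Ideal.span (Set.range fun i => f i ^ 2 ^ e) := by
  induction e with
  | zero => intro x hx; simpa using hx
  | succ e ih =>
    intro x hx
    have h := sq_mem_span h2 _ _ (ih x hx)
    simp only [← pow_mul, ← pow_succ] at h
    exact h

lemma add_pow_two_pow {S : Type} [CommRing S] (h2 : (2 : S) = 0) (e : ℕ) (x y : S) :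
    (x + y) ^ 2 ^ e = x ^ 2 ^ e + y ^ 2 ^ e := by
  induction e generalizing x y with
  | zero => simp
  | succ e ih =>
    have : (x + y) ^ 2 = x ^ 2 + y ^ 2 := by
      have : (x + y) ^ 2 = x ^ 2 + y ^ 2 + 2 * (x * y) := by ring
      rw [this, h2, zero_mul, add_zero]
    rw [pow_succ', pow_mul, pow_mul, pow_mul, this, ih]

/-- tight closure in a quotient domain, phrased upstairs -/
lemma WeakFReg.mem_of {P : Ideal A} (hP : P.IsPrime) (hF : WeakFReg 2 (A ⧸ P)) {κ : Type}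
    (f : κ → A) (c g : A) (hc : c ∉ P)
    (h : ∀ e : ℕ, c * g ^ 2 ^ e ∈ P ⊔ Ideal.span (Set.range fun i => f i ^ 2 ^ e)) :
    g ∈ P ⊔ Ideal.span (Set.range f) := by
  have h1 : Ideal.Quotient.mk P g ∈ (Ideal.span (Set.range f)).map (Ideal.Quotient.mk P) := by
    apply hF
    refine ⟨Ideal.Quotient.mk P c, ?_, 0, ?_⟩
    · intro q hq
      have hdom : IsDomain (A ⧸ P) := (Ideal.Quotient.isDomain_iff_prime P).mpr hP
      rw [IsDomain.minimalPrimes_eq_singleton_bot] at hq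
      rw [hq]
      intro h0
      exact hc (Ideal.Quotient.eq_zero_iff_mem.mp (by simpa using h0))
    · intro e _
      have h2 := Ideal.mem_map_of_mem (Ideal.Quotient.mk P) (h e)
      rw [Ideal.map_sup, Ideal.map_quotient_self, bot_sup_eq, map_mul, map_pow] at h2
      refine Ideal.map_le_iff_le_comap.mpr ?_ h2
      rw [Ideal.span_le]
      rintro _ ⟨i, rfl⟩
      rw [SetLike.mem_coe, Ideal.mem_comap, map_pow]
      exact Ideal.subset_span ⟨_, Ideal.mem_map_of_mem _ (Ideal.subset_span ⟨i, rfl⟩), rfl⟩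
  have h3 : g ∈ Ideal.comap (Ideal.Quotient.mk P)
      ((Ideal.span (Set.range f)).map (Ideal.Quotient.mk P)) := h1
  rw [Ideal.comap_map_of_surjective _ Ideal.Quotient.mk_surjective, ← RingHom.ker_eq_comap_bot,
    Ideal.mk_ker, sup_comm] at h3
  exact h3

/-- Frobenius-type closure statement modulo an arbitrary ideal -/
lemma WeakFReg.mem_of_sq {P : Ideal A} (h2 : (2 : A) = 0) (hF : WeakFReg 2 (A ⧸ P)) {κ : Type}
    (f : κ → A) (g : A)
    (h : g ^ 2 ∈ P ⊔ Ideal.span (Set.range fun i => f i ^ 2)) :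
    g ∈ P ⊔ Ideal.span (Set.range f) := by
  have h1 : Ideal.Quotient.mk P g ∈ (Ideal.span (Set.range f)).map (Ideal.Quotient.mk P) := by
    apply hF
    refine ⟨1, ?_, 1, ?_⟩
    · intro q hq h0
      exact hq.1.1.ne_top ((Ideal.eq_top_iff_one q).mpr h0)
    · intro e he
      obtain ⟨k, rfl⟩ : ∃ k, e = k + 1 := ⟨e - 1, by omega⟩
      have h2' : (2 : A ⧸ P) = 0 := by
        rw [← map_ofNat (Ideal.Quotient.mk P) 2, h2, map_zero]
      have h3 := Ideal.mem_map_of_mem (Ideal.Quotient.mk P) h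
      rw [Ideal.map_sup, Ideal.map_quotient_self, bot_sup_eq, map_pow, Ideal.map_span,
        ← Set.range_comp] at h3
      have h4 := pow_two_pow_mem_span h2' _ k _ h3
      rw [one_mul, pow_succ', pow_mul]
      refine (Ideal.span_le.mpr ?_) h4
      rintro _ ⟨i, rfl⟩
      refine Ideal.subset_span ⟨Ideal.Quotient.mk P (f i),
        Ideal.mem_map_of_mem _ (Ideal.subset_span ⟨i, rfl⟩), ?_⟩
      simp only [Function.comp, map_pow]
      rw [← pow_mul]
  have h3 : g ∈ Ideal.comap (Ideal.Quotient.mk P)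
      ((Ideal.span (Set.range f)).map (Ideal.Quotient.mk P)) := h1
  rw [Ideal.comap_map_of_surjective _ Ideal.Quotient.mk_surjective, ← RingHom.ker_eq_comap_bot,
    Ideal.mk_ker, sup_comm] at h3
  exact h3

/-- colon of squares by the product of some members -/
lemma prod_colon {τ : Type} [DecidableEq τ] (f : τ → A)
    (hreg : ∀ e : τ → ℕ, (∀ i, 1 ≤ e i) → RegFam (fun i => f i ^ e i))
    (S : Finset τ) : ∀ (e : τ → ℕ), (∀ i, 1 ≤ e i) → (∀ i ∈ S, e i = 1) → ∀ w : A,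
      (∏ i ∈ S, f i) * w ∈ Ideal.span (Set.range fun i => f i ^ (if i ∈ S then 2 else e i)) →
      w ∈ Ideal.span (Set.range fun i => f i ^ e i) := by
  induction S using Finset.induction_on with
  | empty => intro e _ _ w hw; simpa using hw
  | insert k S hk ih =>
    intro e he heS w hw
    apply ih e he (fun i hi => heS i (Finset.mem_insert_of_mem hi))
    have hek : e k = 1 := heS k (Finset.mem_insert_self k S)
    let E : τ → ℕ := fun i => if i ∈ S then 2 else e i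
    have hE : ∀ i, 1 ≤ E i := by
      intro i; simp only [E]; split_ifs
      · norm_num
      · exact he i
    have hEk : E k = 1 := by simp [E, hk, hek]
    have hR := hreg E hE
    -- split the span
    have hsplit : ∀ (F : τ → A), Ideal.span (Set.range F) = Ideal.span (insert (F k) (F '' {k}ᶜ)) := by
      intro F
      congr 1
      ext y
      constructor
      · rintro ⟨i, rfl⟩
        by_cases h : i = k
        · left; rw [h]
        · right; exact ⟨i, h, rfl⟩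
      · rintro (rfl | ⟨i, _, rfl⟩) <;> exact ⟨_, rfl⟩
    rw [hsplit] at hw
    have himg : (fun i => f i ^ (if i ∈ insert k S then 2 else e i)) '' {k}ᶜ =
        (fun i => f i ^ E i) '' {k}ᶜ := by
      apply Set.image_congr
      intro i hi
      have : i ≠ k := hi
      simp [E, this]
    rw [himg, Ideal.mem_span_insert] at hw
    obtain ⟨a, y, hy, hay⟩ := hw
    simp only [Finset.mem_insert_self, if_true] at hay
    have h1 : f k ^ E k * ((∏ i ∈ S, f i) * w - f k * a) ∈ Ideal.span ((fun i => f i ^ E i) '' {k}ᶜ) := by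
      have : f k ^ E k * ((∏ i ∈ S, f i) * w - f k * a) = y := by
        rw [hEk, pow_one]
        rw [Finset.prod_insert hk] at hay
        linear_combination hay
      rw [this]; exact hy
    have h2 := hR {k}ᶜ k (by simp) _ h1
    change (∏ i ∈ S, f i) * w ∈ Ideal.span (Set.range fun i => f i ^ E i)
    rw [hsplit, Ideal.mem_span_insert]
    refine ⟨a, _, h2, ?_⟩
    simp only [hEk, pow_one]
    ring

/-- The contradiction. -/
theorem local_contradiction [IsLocalRing A] [IsNoetherianRing A] (h2 : (2 : A) = 0)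
    {ι κ : Type} [Fintype ι] [DecidableEq ι] [Fintype κ] [DecidableEq κ] (u : ι → A) (θ : κ → A) (p₀ q₀ : A)
    (P Q : Ideal A) (hP : P.IsPrime) (hQ : Q.IsPrime)
    (hsop : SOP (Sum.elim u (Sum.elim θ (fun _ : Unit => p₀ + q₀))))
    (hreg : ∀ e : ι ⊕ (κ ⊕ Unit) → ℕ, (∀ i, 1 ≤ e i) →
      RegFam (fun i => (Sum.elim u (Sum.elim θ (fun _ : Unit => p₀ + q₀))) i ^ e i))
    (hIP : ∀ i, u i ∈ P) (hIQ : ∀ i, u i ∈ Q)
    (hp₀P : p₀ ∈ P) (hp₀Q : ∀ x ∈ Q, p₀ * x ∈ Ideal.span (Set.range u)) (hp₀ : p₀ ∉ Q)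
    (hq₀Q : q₀ ∈ Q) (hq₀P : ∀ x ∈ P, q₀ * x ∈ Ideal.span (Set.range u)) (hq₀ : q₀ ∉ P)
    (hu : ∏ i, u i ∈ bracketPow (maximalIdeal A) 2)
    (hFP : WeakFReg 2 (A ⧸ P)) (hFQ : WeakFReg 2 (A ⧸ Q)) (hFPQ : WeakFReg 2 (A ⧸ (P ⊔ Q))) :
    False := by
  classical
  set t : A := p₀ + q₀ with ht
  set F : ι ⊕ (κ ⊕ Unit) → A := Sum.elim u (Sum.elim θ (fun _ : Unit => t)) with hF
  -- ideals
  let I : Ideal A := Ideal.span (Set.range u)
  let Θ : ℕ → Ideal A := fun b => Ideal.span (Set.range fun i => θ i ^ b)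
  have hIleP : I ≤ P := Ideal.span_le.mpr (by rintro _ ⟨i, rfl⟩; exact hIP i)
  have hIleQ : I ≤ Q := Ideal.span_le.mpr (by rintro _ ⟨i, rfl⟩; exact hIQ i)
  -- regularity of t^b on I + θ^b
  have hcol : ∀ b : ℕ, 1 ≤ b → ∀ g : A, t ^ b * g ∈ I ⊔ Θ b → g ∈ I ⊔ Θ b := by
    intro b hb g hg
    let e : ι ⊕ (κ ⊕ Unit) → ℕ := Sum.elim (fun _ => 1) (fun _ => b)
    have he : ∀ i, 1 ≤ e i := by rintro (i | i) <;> simp [e, hb]
    have hR := hreg e he {Sum.inr (Sum.inr ())}ᶜ (Sum.inr (Sum.inr ())) (by simp) g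
    have himg : Ideal.span ((fun i => F i ^ e i) '' {Sum.inr (Sum.inr ())}ᶜ) = I ⊔ Θ b := by
      rw [← Ideal.span_union]
      congr 1
      ext y
      constructor
      · rintro ⟨i, hi, rfl⟩
        rcases i with i | i | i
        · left; exact ⟨i, by simp [F, e]⟩
        · right; exact ⟨i, by simp [F, e]⟩
        · exact absurd rfl hi
      · rintro (⟨i, rfl⟩ | ⟨i, rfl⟩)
        · exact ⟨Sum.inl i, by simp, by simp [F, e]⟩
        · exact ⟨Sum.inr (Sum.inl i), by simp, by simp [F, e]⟩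
    rw [himg] at hR
    exact hR (by simpa [F, e] using hg)
  -- colon capturing modulo P and modulo Q
  have hcap : ∀ (R : Ideal A), R.IsPrime → I ≤ R → WeakFReg 2 (A ⧸ R) → ∀ c : A, c ∉ R →
      (∀ x ∈ R, c * x ∈ I) → ∀ b : ℕ, 1 ≤ b → ∀ g : A, t ^ b * g ∈ R ⊔ Θ b → g ∈ R ⊔ Θ b := by
    intro R hR hIR hFR c hc hcR b hb g hg
    refine hFR.mem_of hR (fun i => θ i ^ b) c g hc ?_
    intro e
    obtain ⟨π, hπ, s, hs, hπs⟩ := Submodule.mem_sup.mp hg
    have h3 : t ^ (b * 2 ^ e) * (c * g ^ 2 ^ e) ∈ I ⊔ Θ (b * 2 ^ e) := by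
      have h4 : t ^ (b * 2 ^ e) * (c * g ^ 2 ^ e) = c * π ^ 2 ^ e + c * s ^ 2 ^ e := by
        rw [← mul_add, ← add_pow_two_pow h2, hπs, mul_pow, ← pow_mul]; ring
      rw [h4]
      refine Ideal.add_mem _ (Ideal.mem_sup_left ?_) (Ideal.mem_sup_right ?_)
      · exact hcR _ (Ideal.pow_mem_of_mem R hπ _ (by positivity))
      · refine Ideal.mul_mem_left _ _ ?_
        have := pow_two_pow_mem_span h2 _ e _ hs
        simpa only [← pow_mul] using this
    have h5 := hcol (b * 2 ^ e) (Nat.mul_pos hb (by positivity)) _ h3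
    have h6 : I ⊔ Θ (b * 2 ^ e) ≤ R ⊔ Ideal.span (Set.range fun i => (θ i ^ b) ^ 2 ^ e) := by
      refine sup_le (hIR.trans le_sup_left) (le_trans ?_ le_sup_right)
      simp only [Θ, ← pow_mul]
      exact le_rfl
    exact h6 h5
  have hcapP := hcap P hP hIleP hFP q₀ hq₀ hq₀P
  have hcapQ := hcap Q hQ hIleQ hFQ p₀ hp₀ hp₀Q
  -- the big parameter ideal
  let q : Ideal A := Ideal.span (Set.range F)
  have hq : q = I ⊔ Θ 1 ⊔ Ideal.span {t} := by
    simp only [q, I, Θ, pow_one]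
    rw [← Ideal.span_union, ← Ideal.span_union]
    congr 1
    ext y
    constructor
    · rintro ⟨i, rfl⟩
      rcases i with i | i | i
      · left; left; exact ⟨i, rfl⟩
      · left; right; exact ⟨i, rfl⟩
      · right; rfl
    · rintro ((⟨i, rfl⟩ | ⟨i, rfl⟩) | hy)
      · exact ⟨Sum.inl i, rfl⟩
      · exact ⟨Sum.inr (Sum.inl i), rfl⟩
      · exact ⟨Sum.inr (Sum.inr ()), hy.symm⟩
  -- everything proper
  have hm := (maximalIdeal.isMaximal A)
  have hθm : Θ 1 ≤ maximalIdeal A := by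
    simp only [Θ, pow_one]
    rw [Ideal.span_le]
    rintro _ ⟨i, rfl⟩
    exact hsop.1 (Sum.inr (Sum.inl i))
  have hPQm : P ⊔ Q ⊔ Θ 1 ≤ maximalIdeal A :=
    sup_le (sup_le (le_maximalIdeal hP.ne_top) (le_maximalIdeal hQ.ne_top)) hθm
  -- Step A
  have hA : p₀ ∉ q := by
    intro hp
    rw [hq] at hp
    obtain ⟨x, hx, y, hy, hxy⟩ := Submodule.mem_sup.mp hp
    rw [Ideal.mem_span_singleton'] at hy
    obtain ⟨g, rfl⟩ := hy
    have hgP : g ∈ P ⊔ Θ 1 := by
      apply hcapP 1 le_rfl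
      have : t ^ 1 * g = p₀ - x := by rw [← hxy]; ring
      rw [this]
      refine Ideal.sub_mem _ (Ideal.mem_sup_left hp₀P) ?_
      exact (sup_le_sup_right hIleP _) hx
    have hgQ : 1 - g ∈ Q ⊔ Θ 1 := by
      apply hcapQ 1 le_rfl
      have : t ^ 1 * (1 - g) = x + q₀ := by
        rw [ht] at hxy ⊢
        linear_combination (-1 : A) * hxy
      rw [this]
      exact Ideal.add_mem _ ((sup_le_sup_right hIleQ _) hx) (Ideal.mem_sup_left hq₀Q)
    have h1 : (1 : A) ∈ maximalIdeal A := by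
      have e1 : (1 : A) = g + (1 - g) := by ring
      rw [e1]
      refine Ideal.add_mem _ (hPQm ?_) (hPQm ?_)
      · have h7 : P ⊔ Θ 1 ≤ P ⊔ Q ⊔ Θ 1 := sup_le_sup_right le_sup_left _
        exact h7 hgP
      · have h7 : Q ⊔ Θ 1 ≤ P ⊔ Q ⊔ Θ 1 := sup_le_sup_right le_sup_right _
        exact h7 hgQ
    exact (Ideal.ne_top_iff_one _).mp hm.ne_top h1
  -- Step B
  obtain ⟨N, hN⟩ := hsop.2
  have hB : ∃ c₁ : A, p₀ * c₁ ∉ q ∧ ∀ x ∈ maximalIdeal A, x * (p₀ * c₁) ∈ q := by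
    by_contra hcon
    push Not at hcon
    have claim : ∀ k : ℕ, ∃ c ∈ maximalIdeal A ^ k, p₀ * c ∉ q := by
      intro k
      induction k with
      | zero => exact ⟨1, by simp, by simpa using hA⟩
      | succ k ih =>
        obtain ⟨c, hc, hcq⟩ := ih
        obtain ⟨x, hx, hxq⟩ := hcon c hcq
        refine ⟨x * c, ?_, ?_⟩
        · rw [pow_succ']; exact Ideal.mul_mem_mul hx hc
        · have : p₀ * (x * c) = x * (p₀ * c) := by ring
          rw [this]; exact hxq
    obtain ⟨c, hc, hcq⟩ := claim N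
    exact hcq (Ideal.mul_mem_left _ _ (hN hc))
  obtain ⟨c₁, hc₁, hsoc⟩ := hB
  -- Step C
  have hC : (p₀ * c₁) ^ 2 ∈ I ⊔ Θ 2 ⊔ Ideal.span {t ^ 2} := by
    have h3 : (∏ i, u i) * (p₀ * c₁) ^ 2 ∈ Ideal.span (Set.range fun i => F i ^ 2) := by
      have h4 : ∀ x ∈ bracketPow (maximalIdeal A) 2,
          x * (p₀ * c₁) ^ 2 ∈ Ideal.span (Set.range fun i => F i ^ 2) := by
        intro x hx
        refine Submodule.span_induction ?_ ?_ ?_ ?_ hx
        · rintro _ ⟨y, hy, rfl⟩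
          rw [← mul_pow]
          exact sq_mem_span h2 _ _ (hsoc y hy)
        · simp
        · intro a b _ _ ha hb
          rw [add_mul]; exact Ideal.add_mem _ ha hb
        · intro a b _ hb
          rw [smul_eq_mul, mul_assoc]; exact Ideal.mul_mem_left _ _ hb
      exact h4 _ hu
    let S : Finset (ι ⊕ (κ ⊕ Unit)) := Finset.univ.image Sum.inl
    let e : ι ⊕ (κ ⊕ Unit) → ℕ := Sum.elim (fun _ => 1) (fun _ => 2)
    have h5 := prod_colon F hreg S e (by rintro (i | i) <;> simp [e])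
      (by
        intro i hi
        simp only [S, Finset.mem_image, Finset.mem_univ, true_and] at hi
        obtain ⟨j, rfl⟩ := hi
        rfl) ((p₀ * c₁) ^ 2) (by
        have e1 : (∏ i ∈ S, F i) = ∏ i, u i := by
          simp only [S]
          rw [Finset.prod_image (fun a _ b _ h => Sum.inl_injective h)]
          rfl
        have e2 : (fun i => F i ^ (if i ∈ S then 2 else e i)) = fun i => F i ^ 2 := by
          funext i
          rcases i with i | i
          · simp [S]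
          · simp [S, e]
        rw [e1, e2]; exact h3)
    have h6 : Ideal.span (Set.range fun i => F i ^ e i) ≤ I ⊔ Θ 2 ⊔ Ideal.span {t ^ 2} := by
      simp only [I, Θ]
      rw [← Ideal.span_union, ← Ideal.span_union]
      apply Ideal.span_mono
      rintro _ ⟨i, rfl⟩
      rcases i with i | i | i
      · left; left; exact ⟨i, by simp [F, e]⟩
      · left; right; exact ⟨i, by simp [F, e]⟩
      · right; simp [F, e]
    exact h6 h5
  -- Step D
  obtain ⟨x, hx, y, hy, hxy⟩ := Submodule.mem_sup.mp hC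
  rw [Ideal.mem_span_singleton'] at hy
  obtain ⟨g, rfl⟩ := hy
  have hgP : g ∈ P ⊔ Θ 2 := by
    apply hcapP 2 (by norm_num)
    have : t ^ 2 * g = p₀ * (p₀ * c₁ ^ 2) - x := by linear_combination hxy
    rw [this]
    exact Ideal.sub_mem _ (Ideal.mem_sup_left (Ideal.mul_mem_right _ _ hp₀P))
      ((sup_le_sup_right hIleP _) hx)
  have hgQ : c₁ ^ 2 - g ∈ Q ⊔ Θ 2 := by
    apply hcapQ 2 (by norm_num)
    have : t ^ 2 * (c₁ ^ 2 - g) = x + q₀ * ((2 * p₀ + q₀) * c₁ ^ 2) := by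
      rw [ht] at hxy ⊢
      linear_combination (-1 : A) * hxy
    rw [this]
    exact Ideal.add_mem _ ((sup_le_sup_right hIleQ _) hx)
      (Ideal.mem_sup_left (Ideal.mul_mem_right _ _ hq₀Q))
  have hcc : c₁ ^ 2 ∈ P ⊔ Q ⊔ Θ 2 := by
    have e1 : c₁ ^ 2 = g + (c₁ ^ 2 - g) := by ring
    rw [e1]
    have h7 : P ⊔ Θ 2 ≤ P ⊔ Q ⊔ Θ 2 := sup_le_sup_right le_sup_left _
    have h8 : Q ⊔ Θ 2 ≤ P ⊔ Q ⊔ Θ 2 := sup_le_sup_right le_sup_right _
    exact Ideal.add_mem _ (h7 hgP) (h8 hgQ)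
  -- Step E
  have hE : c₁ ∈ P ⊔ Q ⊔ Θ 1 := by
    have := hFPQ.mem_of_sq h2 θ c₁ hcc
    simpa [Θ] using this
  obtain ⟨z, hz, s, hs, hzs⟩ := Submodule.mem_sup.mp hE
  obtain ⟨π, hπ, ρ, hρ, hπρ⟩ := Submodule.mem_sup.mp hz
  apply hc₁
  have hfin : p₀ * c₁ = t * π - q₀ * π + p₀ * ρ + p₀ * s := by
    rw [← hzs, ← hπρ, ht]; ring
  rw [hfin, hq]
  have hI' : I ≤ I ⊔ Θ 1 ⊔ Ideal.span {t} := le_sup_left.trans le_sup_left
  refine Ideal.add_mem _ (Ideal.add_mem _ (Ideal.sub_mem _ ?_ (hI' (hq₀P π hπ))) (hI' (hp₀Q ρ hρ))) ?_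
  · exact Ideal.mem_sup_right (Ideal.mul_mem_right _ _ (Ideal.mem_span_singleton_self t))
  · exact Ideal.mul_mem_left _ _ (Ideal.mem_sup_left (Ideal.mem_sup_right hs))

end Pool.Agent.Helper51.NC
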