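import Mathlib
import Pool.Agent.Helper51.NC.Contra
import Pool.Agent.Helper51.NC.Height

/-!
Passing from the polynomial ring to its localization at the origin.
-/

namespace Pool.Agent.Helper51.NC

open IsLocalRing MvPolynomial

/-! ### transport of tight closure -/

lemma mem_bracketPow_of_equiv {S T : Type} [CommRing S] [CommRing T] (e : T ≃+* S) (a : Ideal T) (n : ℕ)
    (z : T) (hz : z ∈ bracketPow a n) : e z ∈ bracketPow (a.comap e.symm) n := by
  refine Submodule.span_induction ?_ ?_ ?_ ?_ hz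
  · rintro _ ⟨x, hx, rfl⟩
    rw [map_pow]
    exact Ideal.subset_span ⟨e x, by simpa using hx, rfl⟩
  · simp
  · intro x y _ _ hx hy
    rw [map_add]; exact Ideal.add_mem _ hx hy
  · intro x y _ hy
    rw [smul_eq_mul, map_mul]; exact Ideal.mul_mem_left _ _ hy

lemma WeakFReg.of_equiv {p : ℕ} {S T : Type} [CommRing S] [CommRing T] (e : T ≃+* S)
    (h : WeakFReg p S) : WeakFReg p T := by
  intro a z hz
  obtain ⟨c, hc, e₀, he⟩ := hz
  have h1 : e z ∈ a.comap e.symm := by
    apply h
    refine ⟨e c, ?_, e₀, ?_⟩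
    · intro q hq hcq
      have h2 : q.comap (e : T →+* S) ∈ ((⊥ : Ideal S).comap (e : T →+* S)).minimalPrimes :=
        Ideal.minimalPrimes_comap_of_surjective (f := (e : T →+* S)) e.surjective hq
      have h3 : (⊥ : Ideal S).comap (e : T →+* S) = ⊥ := by
        rw [← RingHom.ker_eq_comap_bot]
        exact (RingHom.injective_iff_ker_eq_bot _).mp e.injective
      rw [h3] at h2
      exact hc _ h2 hcq
    · intro k hk
      rw [← map_pow, ← map_mul]
      exact mem_bracketPow_of_equiv e a _ _ (he k hk)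
  simpa using h1

lemma IsFRegular.weak {p : ℕ} {R : Type} [CommRing R] (M : Submonoid R) (A : Type) [CommRing A]
    [Algebra R A] [IsLocalization M A] (P : Ideal R) (h : IsFRegular p (R ⧸ P)) :
    WeakFReg p (A ⧸ P.map (algebraMap R A)) := by
  have h1 : WeakFReg p (Localization (Algebra.algebraMapSubmonoid (R ⧸ P) M)) :=
    fun a z hz => h _ a z hz
  exact h1.of_equiv (IsLocalization.algEquiv (Algebra.algebraMapSubmonoid (R ⧸ P) M)
    (A ⧸ P.map (algebraMap R A)) (Localization (Algebra.algebraMapSubmonoid (R ⧸ P) M))).toRingEquiv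

/-! ### choosing parameters -/

lemma exists_params {A : Type} [CommRing A] [IsLocalRing A] [IsNoetherianRing A] (b : Ideal A)
    (h : ℕ) (hb : ∀ q : Ideal A, q.IsPrime → b ≤ q → (h : ℕ∞) ≤ q.height) (n : ℕ) :
    ∃ θ : Fin n → A, (∀ i, θ i ∈ maximalIdeal A) ∧
      ∀ q : Ideal A, q.IsPrime → b ≤ q → (∀ i, θ i ∈ q) → q = maximalIdeal A ∨
        ((h + n : ℕ) : ℕ∞) ≤ q.height := by
  induction n with
  | zero =>
    refine ⟨Fin.elim0, fun i => i.elim0, fun q hq hbq _ => Or.inr ?_⟩
    simpa using hb q hq hbq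
  | succ n ih =>
    obtain ⟨θ, hθ, hθq⟩ := ih
    let c : Ideal A := b ⊔ Ideal.span (Set.range θ)
    obtain ⟨z, hz, hzq⟩ := exists_avoid {q ∈ c.minimalPrimes | q ≠ maximalIdeal A}
      (Set.Finite.subset (Ideal.finite_minimalPrimes_of_isNoetherianRing A c) (fun q hq => hq.1))
      (fun q hq => hq.1.1.1) (fun q hq => hq.2)
    refine ⟨Fin.snoc θ z, ?_, ?_⟩
    · intro i
      refine Fin.lastCases ?_ (fun i => ?_) i
      · simpa using hz
      · simpa using hθ i
    · intro q hq hbq hθ'
      by_cases hqm : q = maximalIdeal A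
      · exact Or.inl hqm
      right
      have hzq' : z ∈ q := by simpa using hθ' (Fin.last n)
      have hθq' : ∀ i, θ i ∈ q := fun i => by simpa using hθ' i.castSucc
      have hcq : c ≤ q := sup_le hbq (Ideal.span_le.mpr (by rintro _ ⟨i, rfl⟩; exact hθq' i))
      obtain ⟨p, hp, hpq⟩ := Ideal.exists_minimalPrimes_le hcq
      have hpp : p.IsPrime := hp.1.1
      have hqm' : q < maximalIdeal A := lt_of_le_of_ne (le_maximalIdeal hq.ne_top) hqm
      have hpm : p ≠ maximalIdeal A := (hpq.trans_lt hqm').ne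
      have hlt : p < q := by
        refine lt_of_le_of_ne hpq ?_
        rintro rfl
        exact hzq p ⟨hp, hpm⟩ hzq'
      have h1 : ((h + n : ℕ) : ℕ∞) ≤ p.height := by
        rcases hθq p hpp (le_sup_left.trans hp.1.2)
          (fun i => hp.1.2 (Ideal.mem_sup_right (Ideal.subset_span ⟨i, rfl⟩))) with h1 | h1
        · exact absurd h1 hpm
        · exact h1
      have h2 := Ideal.height_add_one_le_of_lt_of_isPrime hlt
      calc ((h + (n + 1) : ℕ) : ℕ∞) = ((h + n : ℕ) : ℕ∞) + 1 := by push_cast; ring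
        _ ≤ p.height + 1 := by gcongr
        _ ≤ q.height := h2

/-! ### the origin -/

section origin

variable {K : Type} [Field K] {σ : Type}

/-- the ideal of the origin -/
noncomputable def orig (K : Type) [Field K] (σ : Type) : Ideal (MvPolynomial σ K) :=
  RingHom.ker (constantCoeff : MvPolynomial σ K →+* K)

instance orig_prime : (orig K σ).IsPrime := RingHom.ker_isPrime _

lemma orig_eq_span : orig K σ = Ideal.span (Set.range (X : σ → MvPolynomial σ K)) := by
  ext f
  rw [← Set.image_univ, mem_ideal_span_X_image, orig, RingHom.mem_ker, constantCoeff_eq]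
  constructor
  · intro h m hm
    by_contra hcon
    push Not at hcon
    have : m = 0 := by ext i; exact hcon i (Set.mem_univ i)
    rw [this, mem_support_iff] at hm
    exact hm h
  · intro h
    by_contra h0
    obtain ⟨i, _, hi⟩ := h 0 (by rw [mem_support_iff]; exact h0)
    exact hi rfl

lemma card_le_height_orig [Fintype σ] : (Fintype.card σ : ℕ∞) ≤ (orig K σ).height := by
  have h1 : Algebra.trdeg K K ≤ ((0 : ℕ) : Cardinal) := by
    have : Algebra.trdeg K K = 0 := trdeg_eq_zero
    rw [this]; simp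
  have h := card_le_height_add (K := K) (fun _ : σ => (0 : K)) 0 h1
  have h2 : RingHom.ker (aeval (R := K) (fun _ : σ => (0 : K))) = orig K σ := by
    ext f
    rw [orig, RingHom.mem_ker, RingHom.mem_ker]
    have : (aeval (R := K) (fun _ : σ => (0 : K))) f = constantCoeff f := by
      rw [aeval_zero']; simp
    rw [this]
  rw [h2] at h
  simpa using h

abbrev Loc (K : Type) [Field K] (σ : Type) : Type := Localization.AtPrime (orig K σ)

lemma under_max : (maximalIdeal (Loc K σ)).under (MvPolynomial σ K) = orig K σ :=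
  IsLocalization.AtPrime.under_maximalIdeal (Loc K σ) (orig K σ)

lemma card_le_height_max [Fintype σ] : (Fintype.card σ : ℕ∞) ≤ (maximalIdeal (Loc K σ)).height := by
  rw [← IsLocalization.height_under (orig K σ).primeCompl, under_max]
  exact card_le_height_orig

/-- the variables in the local ring -/
noncomputable def xl (i : σ) : Loc K σ := algebraMap (MvPolynomial σ K) (Loc K σ) (X i)

lemma max_eq_span : maximalIdeal (Loc K σ) = Ideal.span (Set.range (xl (K := K) (σ := σ))) := by
  have h := congrArg (Ideal.map (algebraMap (MvPolynomial σ K) (Loc K σ))) (orig_eq_span (K := K) (σ := σ))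
  rw [Ideal.map_span, ← Set.range_comp] at h
  exact (IsLocalization.AtPrime.map_eq_maximalIdeal (orig K σ) (Loc K σ)).symm.trans h

lemma height_max_le [Fintype σ] : (maximalIdeal (Loc K σ)).height ≤ (Fintype.card σ : ℕ∞) := by
  classical
  have h1 : maximalIdeal (Loc K σ) ∈
      (Ideal.span ((Finset.univ.image (xl (K := K) (σ := σ)) : Finset (Loc K σ)) : Set (Loc K σ))).minimalPrimes := by
    have : ((Finset.univ.image (xl (K := K) (σ := σ)) : Finset (Loc K σ)) : Set (Loc K σ)) =
        Set.range xl := by simp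
    rw [this, ← max_eq_span, Ideal.minimalPrimes_eq_subsingleton_self]
    rfl
  refine (Ideal.height_le_card_of_mem_minimalPrimes_span_finset h1).trans ?_
  exact_mod_cast Finset.card_image_le

lemma regFam_X : RegFam (X : σ → MvPolynomial σ K) := by
  intro S k hk h hh
  rw [mem_ideal_span_X_image] at hh ⊢
  intro m hm
  have h1 : m + Finsupp.single k 1 ∈ (X k * h).support := by
    rw [mem_support_iff] at hm ⊢
    rw [add_comm, coeff_X_mul]
    exact hm
  obtain ⟨i, hi, h2⟩ := hh _ h1
  refine ⟨i, hi, ?_⟩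
  have hik : i ≠ k := fun h => hk (h ▸ hi)
  rwa [Finsupp.add_apply, Finsupp.single_eq_of_ne hik, add_zero] at h2

lemma regFam_xl : RegFam (xl (K := K) (σ := σ)) := by
  intro S k hk h hh
  have e1 : (xl (K := K) (σ := σ)) '' S = algebraMap (MvPolynomial σ K) (Loc K σ) '' (X '' S) := by
    rw [← Set.image_comp]; rfl
  rw [e1, ← Ideal.map_span] at hh ⊢
  obtain ⟨r, s, rfl⟩ := IsLocalization.exists_mk'_eq (orig K σ).primeCompl h
  have h3 : xl k * IsLocalization.mk' (Loc K σ) r s = IsLocalization.mk' (Loc K σ) (X k * r) s := by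
    rw [xl, IsLocalization.mul_mk'_eq_mk'_of_mul]
  rw [h3, IsLocalization.mk'_mem_map_algebraMap_iff] at hh
  rw [IsLocalization.mk'_mem_map_algebraMap_iff]
  obtain ⟨t, ht, htr⟩ := hh
  refine ⟨t, ht, regFam_X S k hk _ ?_⟩
  have : X k * (t * r) = t * (X k * r) := by ring
  rw [this]; exact htr

lemma RegFam.comp_equiv {A : Type} [CommRing A] {ι ι' : Type} {f : ι → A} (hf : RegFam f) (e : ι' ≃ ι) :
    RegFam (f ∘ e) := by
  intro S k hk h hh
  rw [Set.image_comp] at hh ⊢
  exact hf (e '' S) (e k) (by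
    rintro ⟨j, hj, hjk⟩
    exact hk (e.injective hjk ▸ hj)) h hh

end origin

/-- The contradiction, phrased in the polynomial ring. -/
theorem global_contradiction {K : Type} [Field K] (h2 : (2 : K) = 0) {σ : Type} [Fintype σ]
    {ι : Type} [Fintype ι] [DecidableEq ι] (n : ℕ)
    (hcard : Fintype.card ι + (n + 1) = Fintype.card σ)
    (u : ι → MvPolynomial σ K) (p₀ q₀ : MvPolynomial σ K)
    (P Q : Ideal (MvPolynomial σ K)) (hP : P.IsPrime) (hQ : Q.IsPrime)
    (hPo : P ≤ orig K σ) (hQo : Q ≤ orig K σ)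
    (hmin : ∀ q : Ideal (MvPolynomial σ K), q.IsPrime → (∀ i, u i ∈ q) → P ≤ q ∨ Q ≤ q)
    (hPh : (Fintype.card ι : ℕ∞) ≤ P.height) (hQh : (Fintype.card ι : ℕ∞) ≤ Q.height)
    (hIP : ∀ i, u i ∈ P) (hIQ : ∀ i, u i ∈ Q)
    (hp₀P : p₀ ∈ P) (hp₀Q : ∀ x ∈ Q, p₀ * x ∈ Ideal.span (Set.range u)) (hp₀ : p₀ ∉ Q)
    (hq₀Q : q₀ ∈ Q) (hq₀P : ∀ x ∈ P, q₀ * x ∈ Ideal.span (Set.range u)) (hq₀ : q₀ ∉ P)
    (hu : ∏ i, u i ∈ Ideal.span (Set.range fun j : σ => (X j : MvPolynomial σ K) ^ 2))
    (hFP : IsFRegular 2 (MvPolynomial σ K ⧸ P)) (hFQ : IsFRegular 2 (MvPolynomial σ K ⧸ Q))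
    (hFPQ : IsFRegular 2 (MvPolynomial σ K ⧸ (P ⊔ Q))) : False := by
  classical
  let R := MvPolynomial σ K
  let A := Loc K σ
  let φ : R →+* A := algebraMap R A
  have disj : ∀ T : Ideal R, T ≤ orig K σ → Disjoint ((orig K σ).primeCompl : Set R) (T : Set R) := by
    intro T hT
    rw [Set.disjoint_left]
    intro x hx hxT
    exact hx (hT hxT)
  have hPA : (P.map φ).IsPrime :=
    IsLocalization.isPrime_of_isPrime_disjoint (orig K σ).primeCompl A P hP (disj P hPo)
  have hQA : (Q.map φ).IsPrime :=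
    IsLocalization.isPrime_of_isPrime_disjoint (orig K σ).primeCompl A Q hQ (disj Q hQo)
  have uP : (P.map φ).under R = P :=
    IsLocalization.under_map_of_isPrime_disjoint (orig K σ).primeCompl A hP (disj P hPo)
  have uQ : (Q.map φ).under R = Q :=
    IsLocalization.under_map_of_isPrime_disjoint (orig K σ).primeCompl A hQ (disj Q hQo)
  have h2A : (2 : A) = 0 := by
    have : (2 : A) = φ (C 2) := by rw [show (C 2 : R) = 2 from map_ofNat C 2]; exact (map_ofNat φ 2).symm
    rw [this, h2, C_0, map_zero]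
  have hdimge : (Fintype.card σ : ℕ∞) ≤ (maximalIdeal A).height := card_le_height_max
  have hdimle : (maximalIdeal A).height ≤ (Fintype.card σ : ℕ∞) := height_max_le
  let u' : ι → A := fun i => φ (u i)
  let t : A := φ p₀ + φ q₀
  have ht : t = φ (p₀ + q₀) := (map_add φ _ _).symm
  have htm : t ∈ maximalIdeal A := by
    have h1 : P.map φ ≤ maximalIdeal A := le_maximalIdeal hPA.ne_top
    have h3 : Q.map φ ≤ maximalIdeal A := le_maximalIdeal hQA.ne_top
    exact Ideal.add_mem _ (h1 (Ideal.mem_map_of_mem φ hp₀P)) (h3 (Ideal.mem_map_of_mem φ hq₀Q))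
  -- heights of primes containing `I` and `t`
  have hb : ∀ q : Ideal A, q.IsPrime → Ideal.span (Set.range u') ⊔ Ideal.span {t} ≤ q →
      ((Fintype.card ι + 1 : ℕ) : ℕ∞) ≤ q.height := by
    intro q hq hle
    rw [← IsLocalization.height_under (orig K σ).primeCompl (A := A) q]
    have hq' : (q.under R).IsPrime := Ideal.IsPrime.under R q
    have hu' : ∀ i, u i ∈ q.under R := by
      intro i
      exact hle (Ideal.mem_sup_left (Ideal.subset_span ⟨i, rfl⟩))
    have htq : p₀ + q₀ ∈ q.under R := by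
      have : t ∈ q := hle (Ideal.mem_sup_right (Ideal.mem_span_singleton_self _))
      rw [ht] at this
      exact this
    have key : ∀ T : Ideal R, T.IsPrime → (Fintype.card ι : ℕ∞) ≤ T.height → p₀ + q₀ ∉ T →
        T ≤ q.under R → ((Fintype.card ι + 1 : ℕ) : ℕ∞) ≤ (q.under R).height := by
      intro T hT hTh hTt hTq
      have hlt : T < q.under R := by
        refine lt_of_le_of_ne hTq ?_
        intro h; rw [h] at hTt; exact hTt htq
      have := Ideal.height_add_one_le_of_lt_of_isPrime hlt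
      push_cast
      exact (add_le_add_left hTh 1).trans this
    rcases hmin _ hq' hu' with h | h
    · refine key P hP hPh ?_ h
      intro h0
      exact hq₀ (by simpa using Ideal.sub_mem _ h0 hp₀P)
    · refine key Q hQ hQh ?_ h
      intro h0
      exact hp₀ (by simpa using Ideal.sub_mem _ h0 hq₀Q)
  obtain ⟨θ, hθ, hθq⟩ := exists_params _ _ hb n
  let F : ι ⊕ (Fin n ⊕ Unit) → A := Sum.elim u' (Sum.elim θ (fun _ => t))
  have hFm : ∀ i, F i ∈ maximalIdeal A := by
    rintro (i | i | i)
    · exact (le_maximalIdeal hPA.ne_top) (Ideal.mem_map_of_mem φ (hIP i))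
    · exact hθ i
    · exact htm
  have hsopE : ∀ e : ι ⊕ (Fin n ⊕ Unit) → ℕ, (∀ i, 1 ≤ e i) → SOP (fun i => F i ^ e i) := by
    intro e he
    refine ⟨fun i => Ideal.pow_mem_of_mem _ (hFm i) _ (he i), ?_⟩
    apply exists_pow_le_of_primes
    intro q hq hle
    have hFq : ∀ i, F i ∈ q := fun i => hq.mem_of_pow_mem _ (hle (Ideal.subset_span ⟨i, rfl⟩))
    have h1 : Ideal.span (Set.range u') ⊔ Ideal.span {t} ≤ q := by
      refine sup_le (Ideal.span_le.mpr ?_) ?_
      · rintro _ ⟨i, rfl⟩
        exact hFq (Sum.inl i)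
      · rw [Ideal.span_singleton_le_iff_mem]
        exact hFq (Sum.inr (Sum.inr ()))
    rcases hθq q hq h1 (fun i => hFq (Sum.inr (Sum.inl i))) with h3 | h3
    · exact h3
    · by_contra hne
      have hlt : q < maximalIdeal A := lt_of_le_of_ne (le_maximalIdeal hq.ne_top) hne
      have h4 := Ideal.height_add_one_le_of_lt_of_isPrime hlt
      have h5 : ((Fintype.card ι + 1 + n + 1 : ℕ) : ℕ∞) ≤ (Fintype.card σ : ℕ∞) := by
        refine le_trans ?_ hdimle
        refine le_trans ?_ h4
        push_cast at h3 ⊢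
        gcongr
      have h6 : Fintype.card ι + 1 + n + 1 ≤ Fintype.card σ := by exact_mod_cast h5
      omega
  have hcard2 : Fintype.card (ι ⊕ (Fin n ⊕ Unit)) = Fintype.card σ := by
    simp only [Fintype.card_sum, Fintype.card_fin, Fintype.card_unit]
    exact hcard
  let eqv : ι ⊕ (Fin n ⊕ Unit) ≃ σ := Fintype.equivOfCardEq hcard2
  have hreg : ∀ e : ι ⊕ (Fin n ⊕ Unit) → ℕ, (∀ i, 1 ≤ e i) → RegFam (fun i => F i ^ e i) := by
    intro e he
    refine RegFam.of_sop (ι := ι ⊕ (Fin n ⊕ Unit)) ?_ Finset.univ (xl ∘ eqv) _ ?_ (hsopE e he) ?_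
      (regFam_xl.comp_equiv eqv)
    · rw [hcard2]; exact hdimge
    · refine ⟨fun i => ?_, 1, ?_⟩
      · rw [max_eq_span]; exact Ideal.subset_span ⟨eqv i, rfl⟩
      · rw [pow_one, max_eq_span, Set.range_comp, eqv.surjective.range_eq, Set.image_univ]
    · intro i hi; exact absurd (Finset.mem_univ i) hi
  have hsop : SOP F := by
    have := hsopE (fun _ => 1) (fun _ => le_rfl)
    simpa using this
  have hspan : (Ideal.span (Set.range u)).map φ = Ideal.span (Set.range u') := by
    rw [Ideal.map_span, ← Set.range_comp]; rfl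
  have colon : ∀ (T : Ideal R) (c : R), (∀ x ∈ T, c * x ∈ Ideal.span (Set.range u)) →
      ∀ x ∈ T.map φ, φ c * x ∈ Ideal.span (Set.range u') := by
    intro T c hT x hx
    refine Submodule.span_induction ?_ ?_ ?_ ?_ hx
    · rintro _ ⟨y, hy, rfl⟩
      rw [← map_mul, ← hspan]
      exact Ideal.mem_map_of_mem φ (hT y hy)
    · rw [mul_zero]; exact Ideal.zero_mem _
    · intro a b _ _ ha hb
      rw [mul_add]; exact Ideal.add_mem _ ha hb
    · intro a b _ hb
      have : φ c * (a • b) = a * (φ c * b) := by rw [smul_eq_mul]; ring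
      rw [this]; exact Ideal.mul_mem_left _ _ hb
  have huA : ∏ i, u' i ∈ bracketPow (maximalIdeal A) 2 := by
    have h1 : ∏ i, u' i = φ (∏ i, u i) := (map_prod φ _ _).symm
    rw [h1]
    have h3 : (Ideal.span (Set.range fun j : σ => (X j : R) ^ 2)).map φ ≤ bracketPow (maximalIdeal A) 2 := by
      rw [Ideal.map_span, Ideal.span_le]
      rintro _ ⟨_, ⟨j, rfl⟩, rfl⟩
      refine Ideal.subset_span ⟨xl j, ?_, ?_⟩
      · rw [max_eq_span]; exact Ideal.subset_span ⟨j, rfl⟩
      · exact map_pow φ _ _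
    exact h3 (Ideal.mem_map_of_mem φ hu)
  refine local_contradiction (A := A) h2A u' θ (φ p₀) (φ q₀) (P.map φ) (Q.map φ) hPA hQA hsop hreg
    (fun i => Ideal.mem_map_of_mem φ (hIP i)) (fun i => Ideal.mem_map_of_mem φ (hIQ i))
    (Ideal.mem_map_of_mem φ hp₀P) (colon Q p₀ hp₀Q) ?_
    (Ideal.mem_map_of_mem φ hq₀Q) (colon P q₀ hq₀P) ?_ huA
    (IsFRegular.weak (orig K σ).primeCompl A P hFP) (IsFRegular.weak (orig K σ).primeCompl A Q hFQ) ?_
  · intro h
    have : p₀ ∈ (Q.map φ).under R := h
    rw [uQ] at this; exact hp₀ this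
  · intro h
    have : q₀ ∈ (P.map φ).under R := h
    rw [uP] at this; exact hq₀ this
  · have := IsFRegular.weak (orig K σ).primeCompl A (P ⊔ Q) hFPQ
    rw [Ideal.map_sup] at this
    exact this

end Pool.Agent.Helper51.NC
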