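import Mathlib
import Pool.Agent.Helper51.NC.MinPrimes
import Pool.Agent.Helper51.NC.Global

/-!
The linking elements, heights, and the reduction of the main theorem to the membership of the
product of the equations in the Frobenius power of the maximal ideal.
-/

namespace Pool.Agent.Helper51.NC

open MvPolynomial Matrix

variable {K : Type} [Field K]

lemma exists_mult (p : Ideal (AX K)) [hp : p.IsPrime] :
    ∃ s : AX K, s ∉ p ∧ ∀ x ∈ PP p, embX K s * x ∈ idealI 4 K ⊔ p.map (embX K) := by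
  classical
  obtain ⟨S, hS⟩ : (PP p).FG := IsNoetherian.noetherian (PP p)
  have key : ∀ T : Finset (PolyXY 4 K), (∀ x ∈ T, x ∈ PP p) →
      ∃ s : AX K, s ∉ p ∧ ∀ x ∈ T, embX K s * x ∈ idealI 4 K ⊔ p.map (embX K) := by
    intro T
    induction T using Finset.induction_on with
    | empty =>
      intro _
      exact ⟨1, fun h => hp.ne_top ((Ideal.eq_top_iff_one p).mpr h), fun x hx => by simp at hx⟩
    | insert a T _ ih =>
      intro hT
      obtain ⟨s, hs, hsT⟩ := ih (fun x hx => hT x (Finset.mem_insert_of_mem hx))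
      obtain ⟨s', hs', hsa⟩ := PP_spec p (hT a (Finset.mem_insert_self a T))
      refine ⟨s * s', fun h => (hp.mem_or_mem h).elim hs hs', ?_⟩
      intro x hx
      rw [Finset.mem_insert] at hx
      rcases hx with rfl | hx
      · rw [map_mul, mul_assoc]; exact Ideal.mul_mem_left _ _ hsa
      · rw [map_mul, mul_comm (embX K s), mul_assoc]; exact Ideal.mul_mem_left _ _ (hsT x hx)
  obtain ⟨s, hs, hsS⟩ := key S (fun x hx => by rw [← hS]; exact Ideal.subset_span hx)
  refine ⟨s, hs, ?_⟩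
  intro x hx
  rw [← hS] at hx
  refine Submodule.span_induction ?_ ?_ ?_ ?_ hx
  · intro y hy; exact hsS y hy
  · rw [mul_zero]; exact Ideal.zero_mem _
  · intro a b _ _ ha hb
    rw [mul_add]; exact Ideal.add_mem _ ha hb
  · intro a b _ hb
    have : embX K s * (a • b) = a * (embX K s * b) := by rw [smul_eq_mul]; ring
    rw [this]; exact Ideal.mul_mem_left _ _ hb

lemma height_arith (P : Ideal (PolyXY 4 K)) (a : ℕ) (ha : a ≤ 20) (h : (32 : ℕ∞) ≤ P.height + (a : ℕ)) :
    (12 : ℕ∞) ≤ P.height := by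
  by_contra hcon
  push Not at hcon
  have h1 : P.height ≠ ⊤ := ne_top_of_lt hcon
  obtain ⟨m, hm⟩ := ENat.ne_top_iff_exists.mp h1
  rw [← hm] at h hcon
  have h2 : m < 12 := by exact_mod_cast hcon
  have h3 : 32 ≤ m + a := by exact_mod_cast h
  omega

lemma twelve_le_height_bot (h2 : (2 : K) = 0) : (12 : ℕ∞) ≤ (PP (⊥ : Ideal (AX K))).height := by
  have hv : (Wm (fun i => algebraMap K (Kap (⊥ : Ideal (AX K))) (if i = 0 then 1 else 0))
      (Mp (⊥ : Ideal (AX K)))).det ≠ 0 := by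
    rw [← evX_cV (K := K) (fun i => if i = 0 then 1 else 0) (Mp (⊥ : Ideal (AX K)))]
    intro h
    rw [evX_Mp_eq_zero] at h
    refine cV_e0_notMem (K := K) ?_
    rw [Ideal.mem_bot.mp h]; exact Ideal.zero_mem _
  have h1 := finrank_NS_le _ _ hv
  have h3 := PP_height (⊥ : Ideal (AX K)) 16 (trdeg_kap_le_sixteen _)
  have hD : (Gm (Mp (⊥ : Ideal (AX K)))).det ≠ 0 := by
    rw [← evX_DX (K := K), Ne, evX_Mp_eq_zero, Ideal.mem_bot]
    exact DX_ne_zero h2
  have h4 := rank_ge_four _ hD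
  exact height_arith _ _ (by omega) h3

lemma evX_minor {κ : Type} [Field κ] [Algebra K κ] {n : ℕ} (r c : Fin n → Fin 4) (M : M4 κ) :
    evX M ((Gm (genX K)).submatrix r c).det = ((Gm M).submatrix r c).det := by
  have h := Gm_map (evX (K := K) M : MvPolynomial IX K →+* κ) (genX K)
  rw [genX_map] at h
  rw [← h]
  have h1 := RingHom.map_det (evX (K := K) M : MvPolynomial IX K →+* κ) ((Gm (genX K)).submatrix r c)
  exact h1

lemma minor_notMem_pD (h2 : (2 : K) = 0) :
    ((Gm (genX K)).submatrix ![0, 1, 2] ![0, 1, 2]).det ∉ pD K := by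
  intro h
  rw [pD, Ideal.mem_span_singleton'] at h
  obtain ⟨a, ha⟩ := h
  have h1 := congrArg (fun f => evX (K := K) (lineM (1 : K) 0) f) ha
  simp only [map_mul] at h1
  rw [evX_DX, det_Gm_lineM _ _ h2, evX_minor] at h1
  have h3 : (0 : K) + 1 + 1 ^ 6 = 0 := by linear_combination h2
  rw [h3, mul_zero] at h1
  have hG : (Gm (lineM (1 : K) 0)).submatrix ![0, 1, 2] ![0, 1, 2] =
      !![1, 1, 1; 1, 0, 0; 2, 1, 2] := by
    ext i j
    fin_cases i <;> fin_cases j <;>
      simp [Gm, lineM, pow_succ, Matrix.mul_apply, Fin.sum_univ_four] <;> norm_num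
  rw [hG, Matrix.det_fin_three] at h1
  simp at h1
  have h5 : (1 : K) = 0 := by linear_combination h2 - h1
  exact one_ne_zero h5

lemma twelve_le_height_pD (h2 : (2 : K) = 0) [(pD K).IsPrime] : (12 : ℕ∞) ≤ (PP (pD K)).height := by
  have hv : (Wm (fun i => algebraMap K (Kap (pD K)) (if i = 0 then 1 else 0)) (Mp (pD K))).det ≠ 0 := by
    rw [← evX_cV (K := K) (fun i => if i = 0 then 1 else 0) (Mp (pD K))]
    intro h
    rw [evX_Mp_eq_zero] at h
    exact cV_e0_notMem (K := K) h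
  have h1 := finrank_NS_le _ _ hv
  have hDne : pD K ≠ ⊥ := by
    rw [pD, Ne, Ideal.span_singleton_eq_bot]; exact DX_ne_zero h2
  have h3 := PP_height (pD K) 15 (trdeg_kap_le_fifteen _ hDne)
  have h4 : 3 ≤ (Gm (Mp (pD K))).rank := by
    apply minor_ne_zero_rank _ ![0, 1, 2] ![0, 1, 2]
    rw [← evX_minor (K := K), Ne, evX_Mp_eq_zero]
    exact minor_notMem_pD h2
  exact height_arith _ _ (by omega) h3

/-! ### the origin -/

lemma PP_le_orig (p : Ideal (AX K)) [p.IsPrime] (hp : p ≤ orig K IX) :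
    PP p ≤ orig K ((Fin 4 × Fin 4) ⊕ (Fin 4 × Fin 4)) := by
  intro f hf
  let r : PolyXY 4 K →ₐ[K] AX K := aeval (Sum.elim X (fun _ => 0))
  let TT : PolyXY 4 K →+* MvPolynomial (Fin (Module.finrank (Kap p) (NS (Mp p)))) (Kap p) :=
    ((Theta (K := K) (Mp p) (bp p) : PolyXY 4 K →ₐ[K]
      MvPolynomial (Fin (Module.finrank (Kap p) (NS (Mp p)))) (Kap p)) : PolyXY 4 K →+* _)
  have h1 : ∀ g : PolyXY 4 K, constantCoeff (Theta (K := K) (Mp p) (bp p) g) = evX (Mp p) (r g) := by
    intro g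
    have e : (constantCoeff : MvPolynomial (Fin (Module.finrank (Kap p) (NS (Mp p)))) (Kap p) →+* Kap p).comp
        TT =
        ((evX (K := K) (Mp p) : AX K →ₐ[K] Kap p) : AX K →+* Kap p).comp ((r : _ →ₐ[K] _) : PolyXY 4 K →+* AX K) := by
      apply MvPolynomial.ringHom_ext
      · intro a
        have e1 : TT (C a) = C (algebraMap K (Kap p) a) := (Theta (K := K) (Mp p) (bp p)).commutes a
        have e2 : ((r : _ →ₐ[K] _) : PolyXY 4 K →+* AX K) (C a) = C a := r.commutes a
        rw [RingHom.comp_apply, RingHom.comp_apply, e1, e2, constantCoeff_C]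
        exact ((evX (K := K) (Mp p)).commutes a).symm
      · rintro (q | q)
        · simp [TT, Theta, r, evX]
        · simp [TT, Theta, r, genY]
    exact congrArg (fun φ : PolyXY 4 K →+* Kap p => φ g) e
  have h3 : r f ∈ p := by
    rw [← evX_Mp_eq_zero p, ← h1]
    have : Theta (K := K) (Mp p) (bp p) f = 0 := hf
    rw [this, map_zero]
  have h4 : constantCoeff (r f) = 0 := hp h3
  have h5 : constantCoeff (r f) = constantCoeff f := by
    have e : (constantCoeff : AX K →+* K).comp ((r : _ →ₐ[K] _) : PolyXY 4 K →+* AX K) =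
        (constantCoeff : PolyXY 4 K →+* K) := by
      apply MvPolynomial.ringHom_ext
      · intro a
        have e2 : ((r : _ →ₐ[K] _) : PolyXY 4 K →+* AX K) (C a) = C a := r.commutes a
        rw [RingHom.comp_apply, e2, constantCoeff_C, constantCoeff_C]
      · rintro (q | q) <;> simp [r]
    exact congrArg (fun φ : PolyXY 4 K →+* K => φ f) e
  rw [h5] at h4
  exact h4

lemma DX_mem_orig : DX K ∈ orig K IX := by
  rw [orig, RingHom.mem_ker]
  have h1 : evX (K := K) (0 : M4 K) (DX K) = constantCoeff (DX K) := by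
    have : (fun p : IX => (0 : M4 K) p.1 p.2) = (0 : IX → K) := rfl
    rw [evX, this, MvPolynomial.aeval_zero]
    rfl
  rw [← h1, evX_DX]
  apply Matrix.det_eq_zero_of_row_eq_zero (1 : Fin 4)
  intro j
  simp [Gm]

lemma pD_le_orig : pD K ≤ orig K IX := by
  rw [pD, Ideal.span_singleton_le_iff_mem]; exact DX_mem_orig

/-! ### assembly modulo the Frobenius-power membership -/

/-- the off-diagonal entries as a family -/
noncomputable def uoff (K : Type) [Field K] (p : OffD) : PolyXY 4 K := commEntry 4 K p.1.1 p.1.2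

lemma idealI_eq_range : idealI 4 K = Ideal.span (Set.range (uoff K)) := by
  rw [idealI]
  congr 1
  ext f
  constructor
  · rintro ⟨i, j, hij, rfl⟩
    exact ⟨⟨(i, j), hij⟩, rfl⟩
  · rintro ⟨p, rfl⟩
    exact ⟨_, _, p.2, rfl⟩

theorem reduction [IsAlgClosed K] (h2 : (2 : K) = 0)
    (hu : ∏ i, uoff K i ∈ Ideal.span (Set.range fun j : (Fin 4 × Fin 4) ⊕ (Fin 4 × Fin 4) =>
      (X j : PolyXY 4 K) ^ 2)) :
    ∃ Q : Ideal (PolyXY 4 K), Q ≠ idealP 4 K ∧ (idealI 4 K).minimalPrimes = {idealP 4 K, Q} ∧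
      ¬ (IsFRegular 2 (PolyXY 4 K ⧸ idealP 4 K) ∧ IsFRegular 2 (PolyXY 4 K ⧸ Q) ∧
        IsFRegular 2 (PolyXY 4 K ⧸ (idealP 4 K ⊔ Q))) := by
  have hpD : (pD K).IsPrime := pD_isPrime h2
  rw [idealP_eq h2]
  refine ⟨PP (pD K), ?_, minimalPrimes_eq h2, ?_⟩
  · intro h
    exact PP_pD_not_le (K := K) h2 h.le
  rintro ⟨F1, F2, F3⟩
  obtain ⟨k, hk⟩ := exists_commEntry_notMem (K := K)
  obtain ⟨s, hs, hsP⟩ := exists_mult (⊥ : Ideal (AX K))
  obtain ⟨s', hs', hsQ⟩ := exists_mult (pD K)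
  refine global_contradiction h2 (σ := (Fin 4 × Fin 4) ⊕ (Fin 4 × Fin 4)) (ι := OffD) 19 ?_
    (uoff K) (commEntry 4 K k k * embX K s') (embX K (s * DX K)) (PP (⊥ : Ideal (AX K))) (PP (pD K))
    (PP_isPrime _) (PP_isPrime _) (PP_le_orig _ bot_le) (PP_le_orig _ pD_le_orig) ?_ ?_ ?_ ?_ ?_
    ?_ ?_ ?_ ?_ ?_ ?_ hu F1 F2 F3
  · rw [card_offD]; simp
  · intro q hq huq
    have hIq : idealI 4 K ≤ q := by
      rw [idealI_eq_range, Ideal.span_le]
      rintro _ ⟨i, rfl⟩
      exact huq i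
    obtain ⟨T, hT, hTq⟩ := Ideal.exists_minimalPrimes_le hIq
    rcases minimalPrimes_subset h2 hT with h | h
    · left; rw [← h]; exact hTq
    · right; rw [← h]; exact hTq
  · rw [card_offD]; exact twelve_le_height_bot h2
  · rw [card_offD]; exact twelve_le_height_pD h2
  · intro i
    exact idealI_le_PP _ (Ideal.subset_span ⟨_, _, i.2, rfl⟩)
  · intro i
    exact idealI_le_PP _ (Ideal.subset_span ⟨_, _, i.2, rfl⟩)
  · exact Ideal.mul_mem_right _ _ (commEntry_mem_PPbot h2 k)
  · intro x hx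
    rw [← idealI_eq_range, mul_assoc]
    obtain ⟨a, ha, b, hb, hab⟩ := Submodule.mem_sup.mp (hsQ x hx)
    rw [← hab, mul_add]
    refine Ideal.add_mem _ (Ideal.mul_mem_left _ _ ha) ?_
    rw [pD, Ideal.map_span, Set.image_singleton, Ideal.mem_span_singleton'] at hb
    obtain ⟨c, rfl⟩ := hb
    have : commEntry 4 K k k * (c * (embX K) (DX K)) = c * (embX K (DX K) * commEntry 4 K k k) := by ring
    rw [this]
    exact Ideal.mul_mem_left _ _ (embX_DX_mul_mem k)
  · intro h
    rcases (PP_isPrime (pD K)).mem_or_mem h with h | h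
    · exact hk h
    · rw [embX_mem_PP] at h; exact hs' h
  · rw [map_mul]; exact Ideal.mul_mem_left _ _ DX_mem_PP
  · intro x hx
    rw [← idealI_eq_range, mul_comm s, map_mul, mul_assoc]
    have := hsP x hx
    rw [Ideal.map_bot, sup_bot_eq] at this
    exact Ideal.mul_mem_left _ _ this
  · intro h
    rw [embX_mem_PP, Ideal.mem_bot] at h
    rcases mul_eq_zero.mp h with h | h
    · apply hs; rw [h]; exact Ideal.zero_mem _
    · exact DX_ne_zero h2 h

end Pool.Agent.Helper51.NC
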