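import Mathlib

/-!
Bit-set arithmetic in the ring of squarefree polynomials in characteristic two.
-/

namespace Pool.Agent.Helper51.NC

/-- the bit mask of the monomials in `n` variables not involving the variable `i` -/
def mask : ℕ → ℕ → ℕ
  | 0, _ => 1
  | n + 1, i => if i = n then 2 ^ (2 ^ n) - 1 else mask n i * (1 + 2 ^ (2 ^ n))

lemma mask_lt (n i : ℕ) (hi : i < n) : mask n i * 2 ^ (2 ^ i) < 2 ^ (2 ^ n) := by
  induction n with
  | zero => omega
  | succ n ih =>
    have hpow : 2 ^ (2 ^ (n + 1)) = 2 ^ (2 ^ n) * 2 ^ (2 ^ n) := by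
      rw [← pow_add]; congr 1; ring
    have hpos : 0 < 2 ^ (2 ^ n) := by positivity
    rw [mask]
    split_ifs with h
    · subst h
      rw [hpow]
      exact Nat.mul_lt_mul_of_pos_right (by omega) hpos
    · have h1 := ih (by omega)
      rw [hpow]
      obtain ⟨k, hk⟩ : ∃ k, 2 ^ (2 ^ n) = k + 1 := ⟨2 ^ (2 ^ n) - 1, by omega⟩
      rw [hk] at h1 ⊢
      calc mask n i * (1 + (k + 1)) * 2 ^ 2 ^ i = (mask n i * 2 ^ 2 ^ i) * (1 + (k + 1)) := by ring
        _ ≤ k * (1 + (k + 1)) := Nat.mul_le_mul_right _ (by omega)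
        _ < (k + 1) * (k + 1) := by nlinarith

lemma mask_lt' (n i : ℕ) (hi : i < n) : mask n i < 2 ^ (2 ^ n) := by
  refine lt_of_le_of_lt ?_ (mask_lt n i hi)
  exact Nat.le_mul_of_pos_right _ (by positivity)

section ev

variable {T : Type} [CommRing T] (z : ℕ → T)

/-- the polynomial encoded by a bit set, evaluated at `z` -/
def ev : ℕ → ℕ → T
  | 0, f => if f % 2 = 1 then 1 else 0
  | n + 1, f => ev n (f % 2 ^ (2 ^ n)) + z n * ev n (f / 2 ^ (2 ^ n))

lemma ev_zero (n : ℕ) : ev z n 0 = 0 := by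
  induction n with
  | zero => simp [ev]
  | succ n ih => simp [ev, ih]

lemma ev_one (n : ℕ) : ev z n 1 = 1 := by
  induction n with
  | zero => simp [ev]
  | succ n ih =>
    have h1 : 1 < 2 ^ (2 ^ n) := Nat.one_lt_two_pow (by positivity)
    rw [ev, Nat.mod_eq_of_lt h1, Nat.div_eq_of_lt h1, ih, ev_zero]
    simp

lemma ev_xor (h2 : (2 : T) = 0) (n : ℕ) (a b : ℕ) : ev z n (a ^^^ b) = ev z n a + ev z n b := by
  induction n generalizing a b with
  | zero =>
    simp only [ev, Nat.xor_mod_two_eq]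
    rcases Nat.mod_two_eq_zero_or_one a with ha | ha <;>
      rcases Nat.mod_two_eq_zero_or_one b with hb | hb <;>
      simp [Nat.add_mod, ha, hb]
    linear_combination (-1 : T) * h2
  | succ n ih =>
    simp only [ev]
    rw [Nat.xor_mod_two_pow, Nat.xor_div_two_pow, ih, ih]
    ring

lemma and_mask_split (k m f : ℕ) (hm : m < 2 ^ k) :
    f &&& (m * (1 + 2 ^ k)) = (f % 2 ^ k &&& m) + 2 ^ k * (f / 2 ^ k &&& m) := by
  have h1 : (f &&& (m * (1 + 2 ^ k))) % 2 ^ k = f % 2 ^ k &&& m := by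
    rw [Nat.and_mod_two_pow]
    congr 1
    rw [mul_add, mul_one, Nat.add_mul_mod_self_right, Nat.mod_eq_of_lt hm]
  have h2 : (f &&& (m * (1 + 2 ^ k))) / 2 ^ k = f / 2 ^ k &&& m := by
    rw [Nat.and_div_two_pow]
    congr 1
    rw [mul_add, mul_one, Nat.add_mul_div_right _ _ (by positivity), Nat.div_eq_of_lt hm, zero_add]
  conv_lhs => rw [← Nat.mod_add_div (f &&& (m * (1 + 2 ^ k))) (2 ^ k)]
  rw [h1, h2]

lemma ev_mvk (n i : ℕ) (hi : i < n) (hz : z i ^ 2 = 0) (f : ℕ) :
    ev z n ((f &&& mask n i) <<< (2 ^ i)) = z i * ev z n f := by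
  induction n generalizing f with
  | zero => omega
  | succ n ih =>
    have hpos : 0 < 2 ^ (2 ^ n) := by positivity
    rw [Nat.shiftLeft_eq, mask]
    split_ifs with h
    · subst h
      simp only [ev]
      rw [Nat.and_two_pow_sub_one_eq_mod, Nat.mul_mod_left, Nat.mul_div_cancel _ hpos, ev_zero]
      linear_combination (-ev z i (f / 2 ^ 2 ^ i)) * hz
    · have hi' : i < n := by omega
      rw [and_mask_split (2 ^ n) (mask n i) f (mask_lt' n i hi')]
      have hlt : (f % 2 ^ 2 ^ n &&& mask n i) * 2 ^ 2 ^ i < 2 ^ 2 ^ n := by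
        refine lt_of_le_of_lt (Nat.mul_le_mul_right _ ?_) (mask_lt n i hi')
        exact Nat.and_le_right
      have e1 : ((f % 2 ^ 2 ^ n &&& mask n i) + 2 ^ 2 ^ n * (f / 2 ^ 2 ^ n &&& mask n i)) * 2 ^ 2 ^ i =
          (f % 2 ^ 2 ^ n &&& mask n i) * 2 ^ 2 ^ i +
            2 ^ 2 ^ n * ((f / 2 ^ 2 ^ n &&& mask n i) * 2 ^ 2 ^ i) := by ring
      rw [e1]
      simp only [ev]
      rw [Nat.add_mul_mod_self_left, Nat.mod_eq_of_lt hlt, Nat.add_mul_div_left _ _ hpos,
        Nat.div_eq_of_lt hlt, zero_add, ← Nat.shiftLeft_eq, ← Nat.shiftLeft_eq, ih hi', ih hi']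
      ring

end ev

/-! ### the algorithm -/

/-- evaluate the argument first -/
def force {α : Type} (n : ℕ) (k : ℕ → α) : α :=
  match n with
  | 0 => k 0
  | m + 1 => k (m + 1)

lemma force_eq {α : Type} (n : ℕ) (k : ℕ → α) : force n k = k n := by
  cases n <;> rfl

def forceL {α : Type} : List ℕ → (List ℕ → α) → α
  | [], k => k []
  | a :: l, k => force a fun a' => forceL l fun l' => k (a' :: l')

lemma forceL_eq {α : Type} (l : List ℕ) (k : List ℕ → α) : forceL l k = k l := by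
  induction l generalizing k with
  | nil => rfl
  | cons a l ih => rw [forceL, force_eq, ih]

def forceLL {α : Type} : List (List ℕ) → (List (List ℕ) → α) → α
  | [], k => k []
  | a :: l, k => forceL a fun a' => forceLL l fun l' => k (a' :: l')

lemma forceLL_eq {α : Type} (l : List (List ℕ)) (k : List (List ℕ) → α) : forceLL l k = k l := by
  induction l generalizing k with
  | nil => rfl
  | cons a l ih => rw [forceLL, forceL_eq, ih]

/-- multiplication by the variable `p` (the variable `15` is zero) -/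
def mv (p f : ℕ) : ℕ := if p = 15 then 0 else (f &&& mask 15 p) <<< (2 ^ p)

def comb (j a b c d : ℕ) : ℕ := (mv j a ^^^ mv (4 + j) b) ^^^ (mv (8 + j) c ^^^ mv (12 + j) d)

def z2 (f i j : ℕ) : ℕ := comb j (mv (4 * i) f) (mv (4 * i + 1) f) (mv (4 * i + 2) f) (mv (4 * i + 3) f)

def z3 (f i j : ℕ) : ℕ := comb j (z2 f i 0) (z2 f i 1) (z2 f i 2) (z2 f i 3)

def n2 (f c : ℕ) : ℕ := if c / 4 = c % 4 then z2 f (c / 4) (c % 4) ^^^ z2 f 3 3 else z2 f (c / 4) (c % 4)

def n3 (f c : ℕ) : ℕ := if c / 4 = c % 4 then z3 f (c / 4) (c % 4) ^^^ z3 f 3 3 else z3 f (c / 4) (c % 4)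

def g12 (f c d : ℕ) : ℕ := n2 (mv c f) d ^^^ n2 (mv d f) c

def m3 (f c d e : ℕ) : ℕ := (n3 (g12 f c d) e ^^^ n3 (g12 f c e) d) ^^^ n3 (g12 f d e) c

/-- the determinant `D` -/
def D0 : ℕ := m3 1 0 5 10

/-- the list of the sixteen `z3` -/
def z3l (f : ℕ) : List ℕ :=
  force (z2 f 0 0) fun a0 => force (z2 f 0 1) fun b0 => force (z2 f 0 2) fun c0 => force (z2 f 0 3) fun d0 =>
  force (z2 f 1 0) fun a1 => force (z2 f 1 1) fun b1 => force (z2 f 1 2) fun c1 => force (z2 f 1 3) fun d1 =>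
  force (z2 f 2 0) fun a2 => force (z2 f 2 1) fun b2 => force (z2 f 2 2) fun c2 => force (z2 f 2 3) fun d2 =>
  force (z2 f 3 0) fun a3 => force (z2 f 3 1) fun b3 => force (z2 f 3 2) fun c3 => force (z2 f 3 3) fun d3 =>
  [comb 0 a0 b0 c0 d0, comb 1 a0 b0 c0 d0, comb 2 a0 b0 c0 d0, comb 3 a0 b0 c0 d0,
   comb 0 a1 b1 c1 d1, comb 1 a1 b1 c1 d1, comb 2 a1 b1 c1 d1, comb 3 a1 b1 c1 d1,
   comb 0 a2 b2 c2 d2, comb 1 a2 b2 c2 d2, comb 2 a2 b2 c2 d2, comb 3 a2 b2 c2 d2,
   comb 0 a3 b3 c3 d3, comb 1 a3 b3 c3 d3, comb 2 a3 b3 c3 d3, comb 3 a3 b3 c3 d3]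

def row (D c : ℕ) : List (List ℕ) :=
  (List.range 15).map fun d => if c < d then force (g12 D c d) z3l else []

def look (L : List (List ℕ)) (d e : ℕ) : ℕ :=
  if e / 4 = e % 4 then (L.getD d []).getD e 0 ^^^ (L.getD d []).getD 15 0 else (L.getD d []).getD e 0

def chk2 (L M : List (List ℕ)) (c d : ℕ) : Bool :=
  (List.range 15).all fun e => if d < e then (look L d e ^^^ look L e d) ^^^ look M e c == 0 else true

def tab (D : ℕ) : List (List (List ℕ)) := (List.range 15).map fun c => row D c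

def chk (T : List (List (List ℕ))) : Bool :=
  (List.range 15).all fun c => (List.range 15).all fun d =>
    if c < d then chk2 (T.getD c []) (T.getD d []) c d else true

def forceLLL {α : Type} : List (List (List ℕ)) → (List (List (List ℕ)) → α) → α
  | [], k => k []
  | a :: l, k => forceLL a fun a' => forceLLL l fun l' => k (a' :: l')

lemma forceLLL_eq {α : Type} (l : List (List (List ℕ))) (k : List (List (List ℕ)) → α) :
    forceLLL l k = k l := by
  induction l generalizing k with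
  | nil => rfl
  | cons a l ih => rw [forceLLL, forceLL_eq, ih]

def main : Bool := force D0 fun D => forceLLL (tab D) chk

end Pool.Agent.Helper51.NC
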