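import Mathlib
import Pool.Agent.Helper51.NC.Refl

/-!
Correctness of the bit-set computation.
-/

namespace Pool.Agent.Helper51.NC

theorem main_true : main = true := by decide +kernel

lemma getD_map_range {α : Type} (g : ℕ → α) (n c : ℕ) (hc : c < n) (def0 : α) :
    ((List.range n).map g).getD c def0 = g c := by
  rw [List.getD_eq_getElem?_getD, List.getElem?_map, List.getElem?_range hc]
  rfl

lemma z3l_getD (f i j : ℕ) (hi : i < 4) (hj : j < 4) : (z3l f).getD (4 * i + j) 0 = z3 f i j := by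
  simp only [z3l, force_eq]
  interval_cases i <;> interval_cases j <;> rfl

lemma look_row (D c d e : ℕ) (hcd : c < d) (hd : d < 15) (he : e < 16) :
    look (row D c) d e = n3 (g12 D c d) e := by
  have h1 : (row D c).getD d [] = z3l (g12 D c d) := by
    rw [row, getD_map_range _ _ _ hd, if_pos hcd, force_eq]
  have h2 : (z3l (g12 D c d)).getD e 0 = z3 (g12 D c d) (e / 4) (e % 4) := by
    have := z3l_getD (g12 D c d) (e / 4) (e % 4) (by omega) (by omega)
    rwa [Nat.div_add_mod] at this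
  have h3 : (z3l (g12 D c d)).getD 15 0 = z3 (g12 D c d) 3 3 :=
    z3l_getD (g12 D c d) 3 3 (by omega) (by omega)
  rw [look, h1, h2, h3, n3]

lemma m3_D0 (c d e : ℕ) (hcd : c < d) (hde : d < e) (he : e < 15) : m3 D0 c d e = 0 := by
  have h := main_true
  rw [main, force_eq, forceLLL_eq, chk, List.all_eq_true] at h
  have h1 := h c (List.mem_range.mpr (by omega))
  rw [List.all_eq_true] at h1
  have h2 := h1 d (List.mem_range.mpr (by omega))
  rw [if_pos hcd, chk2, List.all_eq_true] at h2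
  have h3 := h2 e (List.mem_range.mpr he)
  rw [if_pos hde, beq_iff_eq] at h3
  have r1 : (tab D0).getD c [] = row D0 c := by rw [tab, getD_map_range _ _ _ (by omega)]
  have r2 : (tab D0).getD d [] = row D0 d := by rw [tab, getD_map_range _ _ _ (by omega)]
  rw [r1, r2, look_row _ _ _ _ hcd (by omega) (by omega), look_row _ _ _ _ (by omega) (by omega) (by omega),
    look_row _ _ _ _ hde (by omega) (by omega)] at h3
  exact h3

section spec

variable {T : Type} [CommRing T] (z : ℕ → T)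

def Z2 (i j : ℕ) : T :=
  z (4 * i) * z j + z (4 * i + 1) * z (4 + j) + z (4 * i + 2) * z (8 + j) + z (4 * i + 3) * z (12 + j)

def Z3 (i j : ℕ) : T :=
  Z2 z i 0 * z j + Z2 z i 1 * z (4 + j) + Z2 z i 2 * z (8 + j) + Z2 z i 3 * z (12 + j)

def N2 (c : ℕ) : T := if c / 4 = c % 4 then Z2 z (c / 4) (c % 4) + Z2 z 3 3 else Z2 z (c / 4) (c % 4)

def N3 (c : ℕ) : T := if c / 4 = c % 4 then Z3 z (c / 4) (c % 4) + Z3 z 3 3 else Z3 z (c / 4) (c % 4)

def M3 (c d e : ℕ) : T := (z c * N2 z d + z d * N2 z c) * N3 z e + (z c * N2 z e + z e * N2 z c) * N3 z d +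
  (z d * N2 z e + z e * N2 z d) * N3 z c

variable (h2 : (2 : T) = 0) (hz : ∀ p, z p ^ 2 = 0) (hz15 : z 15 = 0)

include h2 hz hz15

lemma ev_mv (p f : ℕ) (hp : p < 16) : ev z 15 (mv p f) = z p * ev z 15 f := by
  rw [mv]
  split_ifs with h
  · rw [h, hz15, ev_zero, zero_mul]
  · exact ev_mvk z 15 p (by omega) (hz p) f

lemma ev_comb (j a b c d : ℕ) (hj : j < 4) : ev z 15 (comb j a b c d) =
    z j * ev z 15 a + z (4 + j) * ev z 15 b + z (8 + j) * ev z 15 c + z (12 + j) * ev z 15 d := by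
  rw [comb, ev_xor z h2, ev_xor z h2, ev_xor z h2, ev_mv z h2 hz hz15 _ _ (by omega),
    ev_mv z h2 hz hz15 _ _ (by omega), ev_mv z h2 hz hz15 _ _ (by omega),
    ev_mv z h2 hz hz15 _ _ (by omega)]
  ring

lemma ev_z2 (f i j : ℕ) (hi : i < 4) (hj : j < 4) : ev z 15 (z2 f i j) = ev z 15 f * Z2 z i j := by
  rw [z2, ev_comb z h2 hz hz15 _ _ _ _ _ hj, ev_mv z h2 hz hz15 _ _ (by omega),
    ev_mv z h2 hz hz15 _ _ (by omega), ev_mv z h2 hz hz15 _ _ (by omega),
    ev_mv z h2 hz hz15 _ _ (by omega), Z2]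
  ring

lemma ev_z3 (f i j : ℕ) (hi : i < 4) (hj : j < 4) : ev z 15 (z3 f i j) = ev z 15 f * Z3 z i j := by
  rw [z3, ev_comb z h2 hz hz15 _ _ _ _ _ hj, ev_z2 z h2 hz hz15 _ _ _ hi (by omega),
    ev_z2 z h2 hz hz15 _ _ _ hi (by omega), ev_z2 z h2 hz hz15 _ _ _ hi (by omega),
    ev_z2 z h2 hz hz15 _ _ _ hi (by omega), Z3]
  ring

lemma ev_n2 (f c : ℕ) (hc : c < 16) : ev z 15 (n2 f c) = ev z 15 f * N2 z c := by
  rw [n2, N2]
  split_ifs with h
  · rw [ev_xor z h2, ev_z2 z h2 hz hz15 _ _ _ (by omega) (by omega),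
      ev_z2 z h2 hz hz15 _ _ _ (by omega) (by omega)]
    ring
  · rw [ev_z2 z h2 hz hz15 _ _ _ (by omega) (by omega)]

lemma ev_n3 (f c : ℕ) (hc : c < 16) : ev z 15 (n3 f c) = ev z 15 f * N3 z c := by
  rw [n3, N3]
  split_ifs with h
  · rw [ev_xor z h2, ev_z3 z h2 hz hz15 _ _ _ (by omega) (by omega),
      ev_z3 z h2 hz hz15 _ _ _ (by omega) (by omega)]
    ring
  · rw [ev_z3 z h2 hz hz15 _ _ _ (by omega) (by omega)]

lemma ev_g12 (f c d : ℕ) (hc : c < 16) (hd : d < 16) :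
    ev z 15 (g12 f c d) = ev z 15 f * (z c * N2 z d + z d * N2 z c) := by
  rw [g12, ev_xor z h2, ev_n2 z h2 hz hz15 _ _ hd, ev_n2 z h2 hz hz15 _ _ hc,
    ev_mv z h2 hz hz15 _ _ hc, ev_mv z h2 hz hz15 _ _ hd]
  ring

lemma ev_m3 (f c d e : ℕ) (hc : c < 16) (hd : d < 16) (he : e < 16) :
    ev z 15 (m3 f c d e) = ev z 15 f * M3 z c d e := by
  rw [m3, ev_xor z h2, ev_xor z h2, ev_n3 z h2 hz hz15 _ _ hc, ev_n3 z h2 hz hz15 _ _ hd,
    ev_n3 z h2 hz hz15 _ _ he, ev_g12 z h2 hz hz15 _ _ _ hc hd, ev_g12 z h2 hz hz15 _ _ _ hc he,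
    ev_g12 z h2 hz hz15 _ _ _ hd he, M3]
  ring

lemma M3_mul_lt (c d e : ℕ) (hcd : c < d) (hde : d < e) (he : e < 15) :
    M3 z 0 5 10 * M3 z c d e = 0 := by
  have h1 := ev_m3 z h2 hz hz15 D0 c d e (by omega) (by omega) (by omega)
  have h3 : ev z 15 D0 = M3 z 0 5 10 := by
    rw [D0, ev_m3 z h2 hz hz15 1 0 5 10 (by omega) (by omega) (by omega), ev_one, one_mul]
  rw [m3_D0 c d e hcd hde he, ev_zero, h3] at h1
  exact h1.symm

omit h2 hz hz15 in
lemma M3_swap12 (c d e : ℕ) : M3 z c d e = M3 z d c e := by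
  simp only [M3]; ring

omit h2 hz hz15 in
lemma M3_swap23 (c d e : ℕ) : M3 z c d e = M3 z c e d := by
  simp only [M3]; ring

omit hz hz15 in
lemma M3_self12 (c e : ℕ) : M3 z c c e = 0 := by
  simp only [M3]
  linear_combination (z c * N2 z c * N3 z e + z c * N2 z e * N3 z c + z e * N2 z c * N3 z c) * h2

omit hz in
lemma M3_fifteen (c d : ℕ) : M3 z c d 15 = 0 := by
  have h3 : N2 z 15 = 0 := by
    have : N2 z 15 = Z2 z 3 3 + Z2 z 3 3 := by rw [N2, if_pos (by norm_num)]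
    rw [this]; linear_combination (Z2 z 3 3) * h2
  have h4 : N3 z 15 = 0 := by
    have : N3 z 15 = Z3 z 3 3 + Z3 z 3 3 := by rw [N3, if_pos (by norm_num)]
    rw [this]; linear_combination (Z3 z 3 3) * h2
  simp only [M3, h3, h4, hz15]
  ring

/-- The key vanishing. -/
theorem M3_mul (c d e : ℕ) (hc : c < 16) (hd : d < 16) (he : e < 16) :
    M3 z 0 5 10 * M3 z c d e = 0 := by
  have key : ∀ c d e : ℕ, c < d → d < e → e < 16 → M3 z 0 5 10 * M3 z c d e = 0 := by
    intro c d e hcd hde he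
    by_cases h15 : e = 15
    · rw [h15, M3_fifteen z h2 hz15, mul_zero]
    · exact M3_mul_lt z h2 hz hz15 c d e hcd hde (by omega)
  generalize M3 z 0 5 10 = D at key ⊢
  have key2 : ∀ c d e : ℕ, c < d → e < 16 → d < 16 → D * M3 z c d e = 0 := by
    intro c d e hcd he hd
    rcases lt_trichotomy d e with h | h | h
    · exact key c d e hcd h he
    · subst h
      rw [M3_swap12, M3_swap23, M3_self12 z h2, mul_zero]
    · rcases lt_trichotomy c e with h' | h' | h'
      · rw [M3_swap23]; exact key c e d h' h hd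
      · subst h'
        rw [M3_swap23, M3_self12 z h2, mul_zero]
      · rw [M3_swap23, M3_swap12]; exact key e c d h' hcd hd
  rcases lt_trichotomy c d with h | h | h
  · exact key2 c d e h he hd
  · subst h
    rw [M3_self12 z h2, mul_zero]
  · rw [M3_swap12]; exact key2 d c e h he hc

end spec

end Pool.Agent.Helper51.NC
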