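import Mathlib
import Pool.Agent.Helper51.NC.AdMat
import Pool.Agent.Helper51.NC.ReflSpec

/-!
For a matrix with square-zero entries in characteristic two, `D` kills all the minors `p_C`.
-/

namespace Pool.Agent.Helper51.NC

open Matrix

variable {T : Type} [CommRing T]

/-- the coefficients of the powers of `Z + c` -/
def Uc (c : T) : M4 T := !![1, c, c ^ 2, c ^ 3; 0, 1, 2 * c, 3 * c ^ 2; 0, 0, 1, 3 * c; 0, 0, 0, 1]

lemma det_Uc (c : T) : (Uc c).det = 1 := by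
  have e1 : (1 : Fin 4).succAbove (2 : Fin 3) = 3 := rfl
  simp [Uc, Matrix.det_succ_row_zero, Fin.sum_univ_succ, e1]

/-- the coefficients of the second column operation -/
def Vc (a b d : T) : M4 T := !![1, a, b, d; 0, 1, 0, 0; 0, 0, 1, 0; 0, 0, 0, 1]

lemma det_Vc (a b d : T) : (Vc a b d).det = 1 := by
  have e1 : (1 : Fin 4).succAbove (2 : Fin 3) = 3 := rfl
  simp [Vc, Matrix.det_succ_row_zero, Fin.sum_univ_succ, e1]

lemma PC_shift (Z : M4 T) (c : T) (C : Fin 4 → IX) : PC (Z + c • (1 : M4 T)) C = PC Z C * Uc c := by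
  have h1 : (Z + c • (1 : M4 T)) ^ 2 = Z ^ 2 + (2 * c) • Z + (c ^ 2) • (1 : M4 T) := by
    rw [sq, add_mul, mul_add, mul_add, smul_mul_assoc, mul_smul_comm, one_mul, mul_one, ← sq,
      smul_mul_smul_comm, one_mul]
    module
  have h2 : (Z + c • (1 : M4 T)) ^ 3 = Z ^ 3 + (3 * c) • Z ^ 2 + (3 * c ^ 2) • Z + (c ^ 3) • (1 : M4 T) := by
    rw [pow_succ, h1]
    have e1 : (Z ^ 2 + (2 * c) • Z + c ^ 2 • (1 : M4 T)) * (Z + c • (1 : M4 T)) =
        Z ^ 2 * Z + c • Z ^ 2 + ((2 * c) • (Z * Z) + (2 * c * c) • Z) + (c ^ 2 • Z + (c ^ 2 * c) • (1 : M4 T)) := by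
      simp only [mul_add, add_mul, smul_mul_assoc, mul_smul_comm, one_mul, mul_one]
      module
    rw [e1, ← sq, ← pow_succ]
    module
  refine Matrix.ext fun k a => ?_
  rw [Matrix.mul_apply, Fin.sum_univ_four]
  fin_cases a
  · simp [PC, Uc]
  · simp [PC, Uc, Matrix.one_apply]; ring
  · simp only [PC, Matrix.of_apply]
    have := congrFun (congrFun h1 (C k).1) (C k).2
    simp [Uc, Matrix.one_apply] at this ⊢
    rw [this]; ring
  · simp only [PC, Matrix.of_apply]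
    have := congrFun (congrFun h2 (C k).1) (C k).2
    simp [Uc, Matrix.one_apply] at this ⊢
    rw [this]; ring

/-- the reduced columns -/
def NN (Z : M4 T) (a : ℕ) (c : IX) : T := (Z ^ a) c.1 c.2 - (if c.1 = c.2 then 1 else 0) * (Z ^ a) 3 3

def NM (Z : M4 T) (C : Fin 4 → IX) : M4 T := Matrix.of fun k a =>
  if a = 0 then (if (C k).1 = (C k).2 then 1 else 0) else NN Z (a : ℕ) (C k)

lemma det_PC_eq_NM (Z : M4 T) (C : Fin 4 → IX) : (PC Z C).det = (NM Z C).det := by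
  have h : NM Z C = PC Z C * Vc (-(Z 3 3)) (-(Z ^ 2) 3 3) (-(Z ^ 3) 3 3) := by
    refine Matrix.ext fun k a => ?_
    rw [Matrix.mul_apply, Fin.sum_univ_four]
    fin_cases a
    · simp [PC, Vc, NM, Matrix.one_apply]
    · simp [PC, Vc, NM, NN, Matrix.one_apply]; ring
    · simp [PC, Vc, NM, NN, Matrix.one_apply]; ring
    · simp [PC, Vc, NM, NN, Matrix.one_apply]; ring
  rw [h, Matrix.det_mul, det_Vc, mul_one]

/-- linear index of a position -/
def idx (c : IX) : ℕ := 4 * (c.1 : ℕ) + (c.2 : ℕ)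

lemma idx_lt (c : IX) : idx c < 16 := by
  have h1 := c.1.2
  have h2 := c.2.2
  simp only [idx]; omega

/-- the linearly indexed entries -/
def zf (Z : M4 T) (p : ℕ) : T := Z (Fin.ofNat 4 (p / 4)) (Fin.ofNat 4 (p % 4))

lemma zf_add (Z : M4 T) (i j : Fin 4) : zf Z (4 * (i : ℕ) + (j : ℕ)) = Z i j := by
  have h1 : Fin.ofNat 4 ((4 * (i : ℕ) + (j : ℕ)) / 4) = i := by
    apply Fin.ext; simp only [Fin.ofNat]; omega
  have h2 : Fin.ofNat 4 ((4 * (i : ℕ) + (j : ℕ)) % 4) = j := by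
    apply Fin.ext; simp only [Fin.ofNat]; omega
  rw [zf, h1, h2]

lemma Z2_eq (Z : M4 T) (i j : Fin 4) : Z2 (zf Z) i j = (Z ^ 2) i j := by
  have a0 := zf_add Z i 0
  have a1 := zf_add Z i 1
  have a2 := zf_add Z i 2
  have a3 := zf_add Z i 3
  have b0 := zf_add Z 0 j
  have b1 := zf_add Z 1 j
  have b2 := zf_add Z 2 j
  have b3 := zf_add Z 3 j
  have e2 : ((2 : Fin 4) : ℕ) = 2 := rfl
  have e3 : ((3 : Fin 4) : ℕ) = 3 := rfl
  simp only [Fin.val_zero, Fin.val_one, e2, e3, mul_zero, zero_add, add_zero, mul_one] at a0 a1 a2 a3 b0 b1 b2 b3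
  norm_num at b2 b3
  rw [Z2, a0, a1, a2, a3, b0, b1, b2, b3, sq, Matrix.mul_apply, Fin.sum_univ_four]

lemma Z3_eq (Z : M4 T) (i j : Fin 4) : Z3 (zf Z) i j = (Z ^ 3) i j := by
  have a0 := Z2_eq Z i 0
  have a1 := Z2_eq Z i 1
  have a2 := Z2_eq Z i 2
  have a3 := Z2_eq Z i 3
  have b0 := zf_add Z 0 j
  have b1 := zf_add Z 1 j
  have b2 := zf_add Z 2 j
  have b3 := zf_add Z 3 j
  have e2 : ((2 : Fin 4) : ℕ) = 2 := rfl
  have e3 : ((3 : Fin 4) : ℕ) = 3 := rfl
  simp only [Fin.val_zero, Fin.val_one, e2, e3, mul_zero, zero_add, add_zero, mul_one] at a0 a1 a2 a3 b0 b1 b2 b3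
  norm_num at b2 b3
  rw [Z3, a0, a1, a2, a3, b0, b1, b2, b3, pow_succ Z 2, Matrix.mul_apply, Fin.sum_univ_four]

section char2

variable (h2 : (2 : T) = 0) (Z : M4 T) (hZ33 : Z 3 3 = 0)

include h2

lemma idx_div (c : IX) : idx c / 4 = (c.1 : ℕ) := by
  have h2 := c.2.2
  simp only [idx]; omega

lemma idx_mod (c : IX) : idx c % 4 = (c.2 : ℕ) := by
  have h2 := c.2.2
  simp only [idx]; omega

lemma N2_eq (c : IX) : N2 (zf Z) (idx c) = NN Z 2 c := by
  have h33 := Z2_eq Z 3 3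
  have e3 : ((3 : Fin 4) : ℕ) = 3 := rfl
  rw [e3] at h33
  rw [N2, NN, idx_div h2, idx_mod h2, Z2_eq, h33]
  by_cases h : c.1 = c.2
  · rw [if_pos (by rw [h]), if_pos h]
    linear_combination ((Z ^ 2) 3 3) * h2
  · rw [if_neg (fun h' => h (Fin.ext h')), if_neg h]; ring

lemma N3_eq (c : IX) : N3 (zf Z) (idx c) = NN Z 3 c := by
  have h33 := Z3_eq Z 3 3
  have e3 : ((3 : Fin 4) : ℕ) = 3 := rfl
  rw [e3] at h33
  rw [N3, NN, idx_div h2, idx_mod h2, Z3_eq, h33]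
  by_cases h : c.1 = c.2
  · rw [if_pos (by rw [h]), if_pos h]
    linear_combination ((Z ^ 3) 3 3) * h2
  · rw [if_neg (fun h' => h (Fin.ext h')), if_neg h]; ring

include hZ33

lemma N1_eq (c : IX) : zf Z (idx c) = NN Z 1 c := by
  rw [idx, zf_add, NN, pow_one, hZ33, mul_zero, sub_zero]

lemma minor_eq (C : Fin 4 → IX) (i : Fin 4) :
    ((NM Z C).submatrix i.succAbove Fin.succ).det =
      M3 (zf Z) (idx (C (i.succAbove 0))) (idx (C (i.succAbove 1))) (idx (C (i.succAbove 2))) := by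
  have hB : ∀ r s : Fin 3, (NM Z C).submatrix i.succAbove Fin.succ r s =
      NN Z ((s : ℕ) + 1) (C (i.succAbove r)) := by
    intro r s
    simp only [Matrix.submatrix_apply, NM, Matrix.of_apply]
    rw [if_neg (Fin.succ_ne_zero s), Fin.val_succ]
  rw [Matrix.det_fin_three]
  simp only [hB, M3]
  have e2 : ((2 : Fin 3) : ℕ) = 2 := rfl
  have e1 : ((1 : Fin 3) : ℕ) = 1 := rfl
  have e0 : ((0 : Fin 3) : ℕ) = 0 := rfl
  simp only [e0, e1, e2, N1_eq h2 Z hZ33, N2_eq h2, N3_eq h2, zero_add, Nat.reduceAdd]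
  generalize NN Z 1 (C (i.succAbove 0)) = a1
  generalize NN Z 1 (C (i.succAbove 1)) = a2
  generalize NN Z 1 (C (i.succAbove 2)) = a3
  generalize NN Z 2 (C (i.succAbove 0)) = b1
  generalize NN Z 2 (C (i.succAbove 1)) = b2
  generalize NN Z 2 (C (i.succAbove 2)) = b3
  generalize NN Z 3 (C (i.succAbove 0)) = c1
  generalize NN Z 3 (C (i.succAbove 1)) = c2
  generalize NN Z 3 (C (i.succAbove 2)) = c3
  linear_combination (-(a1 * b3 * c2) - a2 * b1 * c3 - a3 * b2 * c1) * h2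

lemma det_NM (C : Fin 4 → IX) : (NM Z C).det = ∑ i : Fin 4, (if (C i).1 = (C i).2 then 1 else 0) *
    M3 (zf Z) (idx (C (i.succAbove 0))) (idx (C (i.succAbove 1))) (idx (C (i.succAbove 2))) := by
  rw [Matrix.det_succ_column_zero]
  refine Finset.sum_congr rfl fun i _ => ?_
  rw [minor_eq h2 Z hZ33]
  have h3 : NM Z C i 0 = if (C i).1 = (C i).2 then 1 else 0 := by simp [NM]
  rw [h3]
  have h4 : ∀ n : ℕ, (-1 : T) ^ n = 1 := by
    intro n
    have : (-1 : T) = 1 := by linear_combination (-1 : T) * h2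
    rw [this, one_pow]
  rw [h4, one_mul]

lemma det_Gm_eq : (Gm Z).det = M3 (zf Z) 0 5 10 := by
  have h1 : (Gm Z).det = (PC Z (fun k => (k, k))).det := by
    rw [← Matrix.det_transpose]; rfl
  have h15 : zf Z 15 = 0 := by
    have := zf_add Z 3 3
    rw [hZ33] at this
    exact this
  rw [h1, det_PC_eq_NM, det_NM h2 Z hZ33, Fin.sum_univ_four]
  have i3 : idx ((3 : Fin 4), (3 : Fin 4)) = 15 := rfl
  have a0 : (0 : Fin 4).succAbove (2 : Fin 3) = 3 := rfl
  have a1 : (1 : Fin 4).succAbove (2 : Fin 3) = 3 := rfl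
  have a2 : (2 : Fin 4).succAbove (2 : Fin 3) = 3 := rfl
  have b0 : (3 : Fin 4).succAbove (0 : Fin 3) = 0 := rfl
  have b1 : (3 : Fin 4).succAbove (1 : Fin 3) = 1 := rfl
  have b2 : (3 : Fin 4).succAbove (2 : Fin 3) = 2 := rfl
  have j0 : idx ((0 : Fin 4), (0 : Fin 4)) = 0 := rfl
  have j1 : idx ((1 : Fin 4), (1 : Fin 4)) = 5 := rfl
  have j2 : idx ((2 : Fin 4), (2 : Fin 4)) = 10 := rfl
  simp only [a0, a1, a2, b0, b1, b2, i3, j0, j1, j2, M3_fifteen (zf Z) h2 h15, mul_zero, if_true,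
    one_mul, zero_add]

end char2

/-- `D · p_C = 0` when all the entries have square zero. -/
theorem det_Gm_mul_det_PC (h2 : (2 : T) = 0) (X : M4 T) (hX : ∀ i j, X i j ^ 2 = 0) (C : Fin 4 → IX) :
    (Gm X).det * (PC X C).det = 0 := by
  let Z : M4 T := X + (-(X 3 3)) • (1 : M4 T)
  have hXZ : X = Z + (X 3 3) • (1 : M4 T) := by simp only [Z]; module
  have hZ33 : Z 3 3 = 0 := by simp [Z]
  have hZ : ∀ i j, Z i j ^ 2 = 0 := by
    intro i j
    simp only [Z, Matrix.add_apply, Matrix.smul_apply, smul_eq_mul, Matrix.one_apply]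
    by_cases h : i = j
    · rw [if_pos h]
      linear_combination hX i j + hX 3 3 - (X i j * X 3 3) * h2
    · rw [if_neg h, mul_zero, add_zero]; exact hX i j
  have hz : ∀ p, zf Z p ^ 2 = 0 := fun p => hZ _ _
  have hz15 : zf Z 15 = 0 := by
    have := zf_add Z 3 3
    rw [hZ33] at this
    exact this
  have hPC : ∀ C' : Fin 4 → IX, (PC X C').det = (PC Z C').det := by
    intro C'
    conv_lhs => rw [hXZ]
    rw [PC_shift, Matrix.det_mul, det_Uc, mul_one]
  have hG : (Gm X).det = (Gm Z).det := by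
    have h3 : ∀ W : M4 T, (Gm W).det = (PC W (fun k => (k, k))).det := by
      intro W
      rw [← Matrix.det_transpose]; rfl
    rw [h3, h3, hPC]
  rw [hG, hPC C, det_Gm_eq h2 Z hZ33, det_PC_eq_NM, det_NM h2 Z hZ33, Finset.mul_sum]
  refine Finset.sum_eq_zero fun i _ => ?_
  have := M3_mul (zf Z) h2 hz hz15 (idx (C (i.succAbove 0))) (idx (C (i.succAbove 1)))
    (idx (C (i.succAbove 2))) (idx_lt _) (idx_lt _) (idx_lt _)
  rw [mul_left_comm, this, mul_zero]

end Pool.Agent.Helper51.NC
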