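import Mathlib
import Pool.Agent.Helper51.NC.Link
import Pool.Agent.Helper51.NC.MinorVanish

/-!
The product of the off-diagonal entries of the commutator lies in the ideal of the squares of the
variables (characteristic two, size four).
-/

namespace Pool.Agent.Helper51.NC

open MvPolynomial Matrix

/-- the index set of the variables -/
abbrev VI : Type := (Fin 4 × Fin 4) ⊕ (Fin 4 × Fin 4)

/-- the ideal generated by the squares of the variables -/
noncomputable def sqI (K : Type) [Field K] : Ideal (PolyXY 4 K) :=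
  Ideal.span (Set.range fun j : VI => (X j : PolyXY 4 K) ^ 2)

variable {K : Type} [Field K]

lemma mem_sqI (f : PolyXY 4 K) : f ∈ sqI K ↔ ∀ m ∈ f.support, ∃ j, 2 ≤ m j := by
  have h : sqI K = Ideal.span ((fun s : VI →₀ ℕ => (monomial s (1 : K) : PolyXY 4 K)) ''
      (Set.range fun j : VI => Finsupp.single j 2)) := by
    rw [sqI, ← Set.range_comp]
    congr 2
    funext j
    rw [Function.comp, X_pow_eq_monomial]
  rw [h, mem_ideal_span_monomial_image]
  constructor
  · intro hf m hm
    obtain ⟨_, ⟨j, rfl⟩, hj⟩ := hf m hm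
    exact ⟨j, by have := hj j; simpa using this⟩
  · intro hf m hm
    obtain ⟨j, hj⟩ := hf m hm
    refine ⟨_, ⟨j, rfl⟩, ?_⟩
    rw [Finsupp.single_le_iff]
    exact hj

lemma two_quot (h2 : (2 : K) = 0) : (2 : PolyXY 4 K ⧸ sqI K) = 0 := by
  have : (2 : PolyXY 4 K ⧸ sqI K) = algebraMap K (PolyXY 4 K ⧸ sqI K) 2 := (map_ofNat _ 2).symm
  rw [this, h2, map_zero]

lemma mul_mem_sqI (h2 : (2 : K) = 0) (C : Fin 4 → IX) :
    (∏ p, uoff K p) * ∏ k, (X (Sum.inr (C k)) : PolyXY 4 K) ∈ sqI K := by
  rw [← Ideal.Quotient.eq_zero_iff_mem]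
  let π : PolyXY 4 K →+* PolyXY 4 K ⧸ sqI K := Ideal.Quotient.mk (sqI K)
  have h2T := two_quot (K := K) h2
  let Xm : M4 (PolyXY 4 K ⧸ sqI K) := (matX 4 K).map π
  let w : IX → PolyXY 4 K ⧸ sqI K := fun q => π (X (Sum.inr q))
  have hsq : ∀ j : VI, π (X j) ^ 2 = 0 := by
    intro j
    rw [← map_pow]
    exact Ideal.Quotient.eq_zero_iff_mem.mpr (Ideal.subset_span ⟨j, rfl⟩)
  have hX : ∀ i j, Xm i j ^ 2 = 0 := fun i j => hsq _
  -- the determinant vanishes
  have hdet : (MC Xm C).det = 0 := by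
    obtain ⟨h, hh⟩ := exists_factor h2 C
    let φ : AX K →+* PolyXY 4 K ⧸ sqI K := π.comp ((embX K : AX K →ₐ[K] PolyXY 4 K) : AX K →+* PolyXY 4 K)
    have hφ : (genX K).map φ = Xm := by
      refine Matrix.ext fun i j => ?_
      simp [genX, Xm, φ, matX, embX]
    have e1 := det_MC_map φ (genX K) C
    have e2 := det_PC_map φ (genX K) C
    have e3 := det_Gm_map φ (genX K)
    rw [hφ] at e1 e2 e3
    rw [← e1, hh, map_mul, map_mul]
    have e4 : φ (DX K) = (Gm Xm).det := e3
    rw [e2, e4]
    have e5 := det_Gm_mul_det_PC h2T Xm hX C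
    linear_combination (φ (h ^ 2)) * e5
  have hlin := prod_linear_forms h2T (MC Xm C) (fun q => w (posOf q)) (fun q => hsq _)
  rw [hdet, zero_mul, Fintype.prod_sum_type] at hlin
  rw [map_mul, map_prod, map_prod]
  have g1 : ∀ p : OffD, π (uoff K p) = ∑ q, MC Xm C (Sum.inl p) q * w (posOf q) := by
    intro p
    have e1 := map_commEntry π p.1.1 p.1.2
    rw [cm_eq_sum, sum_IX] at e1
    rw [uoff, e1, Fintype.sum_sum_type]
    rfl
  have g2 : ∀ k : Fin 4, π (X (Sum.inr (C k))) = ∑ q, MC Xm C (Sum.inr k) q * w (posOf q) := by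
    intro k
    rw [Fintype.sum_sum_type]
    have e1 := sum_IX (fun q : IX => (if C k = q then (1 : PolyXY 4 K ⧸ sqI K) else 0) * w q)
    have e2 : ∑ q : IX, (if C k = q then (1 : PolyXY 4 K ⧸ sqI K) else 0) * w q = w (C k) := by
      rw [Finset.sum_eq_single (C k)]
      · simp
      · intro q _ hq; simp [hq.symm]
      · intro h; exact absurd (Finset.mem_univ _) h
    rw [e2] at e1
    exact e1
  have g3 : ∏ p, π (uoff K p) = ∏ p, ∑ q, MC Xm C (Sum.inl p) q * w (posOf q) :=
    Finset.prod_congr rfl fun p _ => g1 p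
  have g4 : ∏ k, π (X (Sum.inr (C k))) = ∏ k, ∑ q, MC Xm C (Sum.inr k) q * w (posOf q) :=
    Finset.prod_congr rfl fun k _ => g2 k
  change (∏ p, π (uoff K p)) * ∏ k, π (X (Sum.inr (C k))) = 0
  rw [g3, g4]
  exact hlin

/-- weights: degree in the `Y` variables -/
def wt : VI → ℕ := Sum.elim (fun _ => 0) (fun _ => 1)

lemma wh_uoff (p : OffD) : IsWeightedHomogeneous wt (uoff K p) 1 := by
  have hx : ∀ i j, IsWeightedHomogeneous wt (matX 4 K i j) 0 := fun i j =>
    isWeightedHomogeneous_X K wt (Sum.inl (i, j))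
  have hy : ∀ i j, IsWeightedHomogeneous wt (matY 4 K i j) 1 := fun i j =>
    isWeightedHomogeneous_X K wt (Sum.inr (i, j))
  rw [uoff, commEntry, Matrix.sub_apply, Matrix.mul_apply, Matrix.mul_apply]
  refine (weightedHomogeneousSubmodule K wt 1).sub_mem ?_ ?_
  · refine Submodule.sum_mem _ fun k _ => ?_
    have := (hx p.1.1 k).mul (hy k p.1.2)
    rwa [zero_add] at this
  · refine Submodule.sum_mem _ fun k _ => ?_
    have := (hy p.1.1 k).mul (hx k p.1.2)
    rwa [add_zero] at this

theorem prod_uoff_mem (h2 : (2 : K) = 0) : ∏ p, uoff K p ∈ sqI K := by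
  classical
  rw [mem_sqI]
  intro m hm
  by_contra hcon
  push Not at hcon
  have hwh : IsWeightedHomogeneous wt (∏ p, uoff K p) (∑ p : OffD, 1) :=
    IsWeightedHomogeneous.prod Finset.univ (fun p => uoff K p) (fun _ => 1) (fun p _ => wh_uoff p)
  have hcard : ∑ p : OffD, 1 = 12 := by
    rw [Finset.sum_const, Finset.card_univ, card_offD]; rfl
  rw [hcard] at hwh
  have hw := hwh (mem_support_iff.mp hm)
  have hsum : ∑ q : IX, m (Sum.inr q) = 12 := by
    rw [Finsupp.weight_apply, Finsupp.sum_fintype _ _ (by simp), Fintype.sum_sum_type] at hw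
    simpa [wt] using hw
  -- positions not in the monomial
  let Z : Finset IX := Finset.univ.filter (fun q => m (Sum.inr q) = 0)
  have hZ : 4 ≤ Z.card := by
    have h1 : ∑ q : IX, m (Sum.inr q) = ∑ q ∈ Finset.univ.filter (fun q => ¬ m (Sum.inr q) = 0), m (Sum.inr q) := by
      rw [Finset.sum_filter]
      refine Finset.sum_congr rfl fun q _ => ?_
      by_cases h : m (Sum.inr q) = 0
      · simp [h]
      · simp [h]
    have h3 : ∑ q ∈ Finset.univ.filter (fun q => ¬ m (Sum.inr q) = 0), m (Sum.inr q) =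
        (Finset.univ.filter (fun q : IX => ¬ m (Sum.inr q) = 0)).card := by
      rw [Finset.card_eq_sum_ones]
      refine Finset.sum_congr rfl fun q hq => ?_
      have h4 := hcon (Sum.inr q)
      have h5 := (Finset.mem_filter.mp hq).2
      omega
    have h4 := Finset.card_filter_add_card_filter_not (s := (Finset.univ : Finset IX))
      (fun q => m (Sum.inr q) = 0)
    have h5 : (Finset.univ : Finset IX).card = 16 := by decide
    have h6 : Z.card = (Finset.univ.filter (fun q : IX => m (Sum.inr q) = 0)).card := rfl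
    omega
  obtain ⟨W, hWZ, hW⟩ := Finset.exists_subset_card_eq hZ
  let e : Fin 4 ≃ W := (Fintype.equivFinOfCardEq (by simpa using hW)).symm
  let C : Fin 4 → IX := fun k => (e k).1
  have hCinj : Function.Injective C := fun a b h => e.injective (Subtype.ext h)
  have hC0 : ∀ k, m (Sum.inr (C k)) = 0 := fun k => (Finset.mem_filter.mp (hWZ (e k).2)).2
  have hmem := mul_mem_sqI h2 C
  let s : VI →₀ ℕ := ∑ k, Finsupp.single (Sum.inr (C k)) 1
  have hprod : ∏ k, (X (Sum.inr (C k)) : PolyXY 4 K) = monomial s 1 := by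
    have : ∀ k, (X (Sum.inr (C k)) : PolyXY 4 K) = monomial (Finsupp.single (Sum.inr (C k)) 1) 1 :=
      fun k => rfl
    simp only [this, s]
    rw [← monomial_sum_one]
  rw [hprod, mem_sqI] at hmem
  obtain ⟨j, hj⟩ := hmem (m + s) (by
    rw [mem_support_iff, coeff_mul_monomial, mul_one]
    exact mem_support_iff.mp hm)
  have hmj := hcon j
  rw [Finsupp.add_apply] at hj
  have hsj : s j = ∑ k, (if Sum.inr (C k) = j then 1 else 0) := by
    simp only [s, Finsupp.finsetSum_apply, Finsupp.single_apply]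
  by_cases hex : ∃ k, Sum.inr (C k) = j
  · obtain ⟨k, rfl⟩ := hex
    have h1 : s (Sum.inr (C k)) = 1 := by
      rw [hsj, Finset.sum_eq_single k]
      · simp
      · intro k' _ hk'
        rw [if_neg]
        intro h
        exact hk' (hCinj (Sum.inr_injective h))
      · intro h; exact absurd (Finset.mem_univ _) h
    rw [h1, hC0] at hj
    omega
  · have h1 : s j = 0 := by
      rw [hsj]
      refine Finset.sum_eq_zero fun k _ => ?_
      rw [if_neg]
      intro h; exact hex ⟨k, h⟩
    rw [h1] at hj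
    omega

end Pool.Agent.Helper51.NC
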